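import Mathlib
import Pool.Agent.TH974.IH.Box

/-! Job 2189 (IH-C1): size of the boundary. -/

set_option autoImplicit false

open Finset MeasureTheory ProbabilityTheory Filter Topology
open scoped ENNReal NNReal

namespace Pool.Agent.TH740.J2189

open Pool.Agent.TH974.IH

theorem card_cube (d : ℕ) (a b : ℤ) : (cube d a b).card = (b + 1 - a).toNat ^ d := by
  unfold cube
  rw [Fintype.card_piFinset]
  simp

theorem card_DB (d N L : ℕ) (hd : 1 ≤ d) (hL : 2 ≤ L) (hN : 1 ≤ N) :
    ((DD d N L \ BB d N L).card : ℝ) ≤ 2 * d * (N * L : ℝ) ^ (d - 1) := by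
  have hx : 2 ≤ N * L := by nlinarith
  have hsub : BB d N L ⊆ DD d N L := by
    intro v hv
    unfold BB DD cube at *
    rw [Fintype.mem_piFinset] at *
    intro i
    have := hv i
    rw [Finset.mem_Icc] at *
    omega
  have hD : (DD d N L).card = (N * L) ^ d := by
    unfold DD; rw [card_cube]
    congr 1
    have : ((N : ℤ) * L - 1 + 1 - 0) = ((N * L : ℕ) : ℤ) := by push_cast; ring
    rw [this]; exact Int.toNat_natCast _
  have hB : (BB d N L).card = (N * L - 2) ^ d := by
    unfold BB; rw [card_cube]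
    congr 1
    have : ((N : ℤ) * L - 2 + 1 - 1) = ((N * L - 2 : ℕ) : ℤ) := by
      rw [Nat.cast_sub hx]; push_cast; ring
    rw [this]; exact Int.toNat_natCast _
  rw [Finset.card_sdiff_of_subset hsub, hD, hB,
    Nat.cast_sub (Nat.pow_le_pow_left (Nat.sub_le _ _) _)]
  push_cast [Nat.cast_sub hx]
  set x : ℝ := (N : ℝ) * L with hxdef
  have hx2 : (2 : ℝ) ≤ x := by rw [hxdef]; exact_mod_cast hx
  have hxpos : 0 < x := by linarith
  have h1 := one_add_mul_le_pow (a := -2 / x) (by
    rw [le_div_iff₀ hxpos]; nlinarith) d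
  have h2 : x ^ d * (1 + -2 / x) ^ d = (x - 2) ^ d := by
    rw [← mul_pow]; congr 1; field_simp; ring
  have h3 : x ^ d = x ^ (d - 1) * x := by
    rw [← pow_succ]; congr 1; omega
  have h4 : x ^ d * (1 + (d : ℝ) * (-2 / x)) = x ^ d - 2 * d * x ^ (d - 1) := by
    rw [h3]; field_simp; ring
  have h5 := mul_le_mul_of_nonneg_left h1 (by positivity : (0 : ℝ) ≤ x ^ d)
  rw [h2, h4] at h5
  linarith

end Pool.Agent.TH740.J2189
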