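import Mathlib
import Pool.Agent.TH974.IH.Box
import Pool.Agent.TH667.J2184
import Pool.Agent.TH731.J2187
import Pool.Agent.TH731.J2188

/-! Job 2355 (IH-R7): the replacement lemma for percolation. -/

set_option autoImplicit false

open Finset MeasureTheory ProbabilityTheory Filter Topology
open scoped ENNReal NNReal

namespace Pool.Agent.TH740.J2355

open Pool.Agent.TH974.IH Pool.Agent.TH731.IHR4 Pool.Agent.TH731.IHR5

/-- edges of a cell are edges of the large domain -/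
theorem cell_sub {d L N : ℕ} {e : Ed d} (he : e ∈ cedges d 0 ((L : ℤ) - 1))
    (z : Fin d → Fin N) : ((e.1 + pos L z, e.2) : Ed d) ∈ ED d N L := by
  obtain ⟨h1, h2⟩ := he
  have key : ∀ x : Zd d, x ∈ cube d 0 ((L : ℤ) - 1) →
      x + pos L z ∈ cube d 0 ((N : ℤ) * L - 1) := by
    intro x hx
    rw [mem_cube] at hx ⊢
    intro i
    have h3 := hx i
    simp only [Pi.add_apply, pos]
    have hz : ((z i : ℕ) : ℤ) + 1 ≤ N := by
      have := (z i).2
      exact_mod_cast this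
    have hz0 : (0 : ℤ) ≤ ((z i : ℕ) : ℤ) := Int.natCast_nonneg _
    have hL0 : (0 : ℤ) ≤ (L : ℤ) := Int.natCast_nonneg _
    constructor
    · nlinarith [h3.1]
    · nlinarith [h3.2]
  refine ⟨key _ h1, ?_⟩
  have : hd ((e.1 + pos L z, e.2) : Ed d) = hd e + pos L z := by
    unfold hd
    simp only
    abel
  rw [this]
  exact key _ h2

/-- events of a cell which depend on its edges -/
theorem dep_cell {d L N : ℕ} {F : Set (Ed d)} (hF : F ⊆ cedges d 0 ((L : ℤ) - 1))
    {A : Set (Env d)} (hA : Dep F A) (z : Fin d → Fin N) {ω ω' : Env d}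
    (h : ∀ e ∈ ED d N L, ω e = ω' e) : sh (pos L z) ω ∈ A ↔ sh (pos L z) ω' ∈ A := by
  refine hA _ _ fun e he => ?_
  exact h _ (cell_sub (hF he) z)

/-- an edge of the cell `z` outside `E` lies in no box -/
theorem cell_out {d L N : ℕ} (hL : 1 ≤ L) {E : Finset (Ed d)}
    (hE : ∀ e ∈ E, e.1 ∈ cube d 0 ((L : ℤ) - 1) ∧ hd e ∈ cube d 0 ((L : ℤ) - 1))
    {e : Ed d} (he : e ∈ cedges d 0 ((L : ℤ) - 1)) (heE : e ∉ E) (z z' : Fin d → Fin N) :
    ((e.1 + pos L z - pos L z', e.2) : Ed d) ∉ E := by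
  intro h
  have h1 := mem_cube.mp (hE _ h).1
  have h2 := mem_cube.mp he.1
  have hzz : z = z' := by
    funext i
    have h3 := h1 i
    have h4 := h2 i
    simp only [Pi.sub_apply, Pi.add_apply, pos] at h3 h4
    apply Fin.ext
    have hL' : (1 : ℤ) ≤ L := by exact_mod_cast hL
    have h5 : (L : ℤ) * ((z i : ℕ) : ℤ) - (L : ℤ) * ((z' i : ℕ) : ℤ) < L := by
      linarith [h3.2, h4.1]
    have h6 : (L : ℤ) * ((z' i : ℕ) : ℤ) - (L : ℤ) * ((z i : ℕ) : ℤ) < L := by
      linarith [h3.1, h4.2]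
    have h7 : ((z i : ℕ) : ℤ) - ((z' i : ℕ) : ℤ) < 1 := by
      by_contra hc
      push Not at hc
      nlinarith
    have h8 : ((z' i : ℕ) : ℤ) - ((z i : ℕ) : ℤ) < 1 := by
      by_contra hc
      push Not at hc
      nlinarith
    omega
  subst hzz
  apply heE
  have : ((e.1 + pos L z - pos L z, e.2) : Ed d) = e := by simp
  rw [this] at h
  exact h

theorem GRP {d : ℕ} (p : ℝ) (hp0 : 0 < p) (hp1 : p < 1) (L N : ℕ) (hL : 1 ≤ L)
    (E : Finset (Ed d)) (hE : ∀ e ∈ E, e.1 ∈ cube d 0 ((L : ℤ) - 1) ∧ hd e ∈ cube d 0 ((L : ℤ) - 1))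
    (G S R : Set (Env d)) (hG : Dep (cedges d 0 ((L : ℤ) - 1) \ (E : Set (Ed d))) G)
    (hS : Dep (E : Set (Ed d)) S) (hR : Dep (E : Set (Ed d)) R)
    (hSR : Disjoint S R) (hR0 : 0 < (perc d p).real R) (ε : ℝ)
    (hε : ε * ((perc d p).real S + (perc d p).real R) ≤ (perc d p).real S) :
    ∃ (Ξ : Finset (Env d)) (ν : Env d → ℝ), (∀ ω, 0 ≤ ν ω) ∧ ∑ ω ∈ Ξ, ν ω = 1 ∧
      ∀ (q : ℕ) [Fact q.Prime] (W : Env d → Submodule (ZMod q) (DD d N L → ZMod q))
        (U : Env d → (Fin d → Fin N) → Submodule (ZMod q) (DD d N L → ZMod q))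
        (NF : (Fin d → Fin N) → Set (Env d)),
        (∀ z, Dep (ED d N L) (NF z)) →
        (∀ ω ω' : Env d,
          (∀ e, (∀ z : Fin d → Fin N, sh (pos L z) ω ∈ G → sh (pos L z) ω ∈ S → e ∉ tE L E z) →
            ω' e = ω e) →
          (∀ z : Fin d → Fin N, sh (pos L z) ω ∈ G → sh (pos L z) ω ∈ S → sh (pos L z) ω' ∈ R) →
          ∀ z : Fin d → Fin N, sh (pos L z) ω ∈ G → sh (pos L z) ω ∈ R → ω ∈ NF z →
            ¬ (W ω' ⊓ ⨅ (z' : Fin d → Fin N) (_ : sh (pos L z') ω ∈ G ∧ sh (pos L z') ω ∈ S),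
              U ω' z' ≤ U ω' z)) →
        ε * ∑ z : Fin d → Fin N, (perc d p).real {ω | sh (pos L z) ω ∈ G ∧ sh (pos L z) ω ∈ R ∧
          ω ∈ NF z} ≤
          ∑ ω ∈ Ξ, ν ω * ((Module.finrank (ZMod q) (W ω) : ℝ) -
            Module.finrank (ZMod q) (W ω ⊓ ⨅ (z : Fin d → Fin N) (_ : sh (pos L z) ω ∈ G), U ω z :
              Submodule (ZMod q) (DD d N L → ZMod q))) := by
  classical
  have hp0' := hp0.le
  have hp1' := hp1.le
  -- the sets of configurations of a box
  set exE : (E → Bool) → Env d := fun η e => if h : e ∈ E then η ⟨e, h⟩ else false with hexE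
  set S' : Finset (E → Bool) := Finset.univ.filter (fun η => exE η ∈ S) with hS'
  set R' : Finset (E → Bool) := Finset.univ.filter (fun η => exE η ∈ R) with hR'
  have memS' : ∀ η, η ∈ S' ↔ exE η ∈ S := fun η => by simp [hS']
  have memR' : ∀ η, η ∈ R' ↔ exE η ∈ R := fun η => by simp [hR']
  have sumS : ∑ x ∈ S', wE p x = (perc d p).real S := by
    rw [box_law p hp0' hp1' E S hS, hS', Finset.sum_filter]
  have sumR : ∑ x ∈ R', wE p x = (perc d p).real R := by
    rw [box_law p hp0' hp1' E R hR, hR', Finset.sum_filter]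
  have hbox : ∀ (ξ : Env d) (η : (Fin d → Fin N) → E → Bool) (z : Fin d → Fin N) (A : Set (Env d)),
      Dep (E : Set (Ed d)) A → (sh (pos L z) (glue L E ξ η) ∈ A ↔ exE (η z) ∈ A) := by
    intro ξ η z A hA
    refine hA _ _ fun e he => ?_
    have he' : e ∈ E := he
    have h1 := (glue_box L N hL E hE ξ η).1 z ⟨e, he'⟩
    simp only [hexE]
    rw [dif_pos he']
    exact h1
  have hboxS : ∀ (ξ : Env d) (η : (Fin d → Fin N) → E → Bool) (z : Fin d → Fin N),
      sh (pos L z) (glue L E ξ η) ∈ S ↔ η z ∈ S' := fun ξ η z => by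
    rw [memS']; exact hbox ξ η z S hS
  have hboxR : ∀ (ξ : Env d) (η : (Fin d → Fin N) → E → Bool) (z : Fin d → Fin N),
      sh (pos L z) (glue L E ξ η) ∈ R ↔ η z ∈ R' := fun ξ η z => by
    rw [memR']; exact hbox ξ η z R hR
  have hboxG : ∀ (ξ : Env d) (η η' : (Fin d → Fin N) → E → Bool) (z : Fin d → Fin N),
      sh (pos L z) (glue L E ξ η) ∈ G ↔ sh (pos L z) (glue L E ξ η') ∈ G := by
    intro ξ η η' z
    refine hG _ _ fun e he => ?_
    have he1 : e ∉ E := he.2
    have h1 : ∀ η'' : (Fin d → Fin N) → E → Bool, sh (pos L z) (glue L E ξ η'') e =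
        ξ (e.1 + pos L z, e.2) := by
      intro η''
      refine glue_out ξ η'' fun z' => ?_
      exact cell_out hL hE he.1 he1 z z'
    rw [h1, h1]
  -- background law
  obtain ⟨Ξ0, w0, hw0, hw01, hlaw⟩ := glue_law p hp0' hp1' L N hL E hE
  set η0 : (Fin d → Fin N) → E → Bool := fun _ _ => false with hη0
  set J : Env d → Finset (Fin d → Fin N) := fun ξ =>
    Finset.univ.filter (fun z => sh (pos L z) (glue L E ξ η0) ∈ G) with hJ
  have memJ : ∀ (ξ : Env d) (η : (Fin d → Fin N) → E → Bool) (z : Fin d → Fin N), z ∈ J ξ ↔ sh (pos L z) (glue L E ξ η) ∈ G := by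
    intro ξ η z
    simp only [hJ, Finset.mem_filter, Finset.mem_univ, true_and]
    exact hboxG ξ η0 η z
  have hdisj : Disjoint S' R' := by
    rw [Finset.disjoint_left]
    intro η h1 h2
    exact (Set.disjoint_left.mp hSR) ((memS' η).1 h1) ((memR' η).1 h2)
  have hgr := fun ξ : Env d => GRL (I := Fin d → Fin N) (Ω := fun _ => E → Bool) (fun _ => wE p)
    (fun _ x => wE_nonneg hp0' hp1' x) (fun _ => wE_sum hp0' hp1' E) (J ξ) (fun _ => S')
    (fun _ => R') (fun _ => hdisj) (fun _ => by rw [sumR]; exact hR0) ε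
    (fun _ => by rw [sumS, sumR]; exact hε)
  choose ν' hν0 hν1 hν using hgr
  set P : Finset (Env d × ((Fin d → Fin N) → E → Bool)) := Ξ0 ×ˢ Finset.univ with hP
  set gl : Env d × ((Fin d → Fin N) → E → Bool) → Env d := fun x => glue L E x.1 x.2 with hgl
  have hfib : ∀ f : Env d → ℝ, ∑ ω ∈ P.image gl,
      (∑ x ∈ P.filter (fun x => gl x = ω), w0 x.1 * ν' x.1 x.2) * f ω =
      ∑ ξ ∈ Ξ0, w0 ξ * ∑ η, ν' ξ η * f (glue L E ξ η) := by
    intro f
    have h1 : ∀ ω ∈ P.image gl, (∑ x ∈ P.filter (fun x => gl x = ω), w0 x.1 * ν' x.1 x.2) * f ω =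
        ∑ x ∈ P.filter (fun x => gl x = ω), w0 x.1 * ν' x.1 x.2 * f (gl x) := by
      intro ω _
      rw [Finset.sum_mul]
      refine Finset.sum_congr rfl fun x hx => ?_
      rw [(Finset.mem_filter.1 hx).2]
    rw [Finset.sum_congr rfl h1, Finset.sum_fiberwise_of_maps_to
      (fun x hx => Finset.mem_image_of_mem gl hx), hP, Finset.sum_product]
    refine Finset.sum_congr rfl fun ξ _ => ?_
    rw [Finset.mul_sum]
    refine Finset.sum_congr rfl fun η _ => ?_
    simp only [hgl]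
    ring
  refine ⟨P.image gl, fun ω => ∑ x ∈ P.filter (fun x => gl x = ω), w0 x.1 * ν' x.1 x.2,
    fun ω => Finset.sum_nonneg fun x _ => mul_nonneg (hw0 _) (hν0 _ _), ?_, ?_⟩
  · have h1 := hfib (fun _ => 1)
    simp only [mul_one] at h1
    rw [h1]
    simp only [hν1, mul_one]
    exact hw01
  · intro q _ W U NF hNF hyp
    rw [hfib]
    -- the left side
    have hA : ∀ z : Fin d → Fin N, Dep (ED d N L)
        {ω | sh (pos L z) ω ∈ G ∧ sh (pos L z) ω ∈ R ∧ ω ∈ NF z} := by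
      intro z ω ω' h
      simp only [Set.mem_ofPred_eq]
      rw [dep_cell Set.sdiff_subset hG z h, dep_cell (fun e he => hE e he) hR z h, hNF z ω ω' h]
    have h1 : ∑ z : Fin d → Fin N, (perc d p).real {ω | sh (pos L z) ω ∈ G ∧ sh (pos L z) ω ∈ R ∧
          ω ∈ NF z} = ∑ ξ ∈ Ξ0, w0 ξ * ∑ z ∈ J ξ, ∑ η : (Fin d → Fin N) → E → Bool,
            (if η z ∈ R' ∧ η ∈ {η | glue L E ξ η ∈ NF z} then ∏ j, wE p (η j) else 0) := by
      rw [Finset.sum_congr rfl fun z _ => hlaw _ (hA z), Finset.sum_comm]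
      refine Finset.sum_congr rfl fun ξ _ => ?_
      rw [← Finset.mul_sum]
      congr 1
      rw [hJ, Finset.sum_filter]
      refine Finset.sum_congr rfl fun z _ => ?_
      split_ifs with hz
      · refine Finset.sum_congr rfl fun η _ => ?_
        have hz' : sh (pos L z) (glue L E ξ η) ∈ G := (hboxG ξ η η0 z).2 hz
        simp only [Set.mem_ofPred_eq, hz', true_and, hboxR]
      · refine Finset.sum_eq_zero fun η _ => ?_
        have hz' : sh (pos L z) (glue L E ξ η) ∉ G := fun h => hz ((hboxG ξ η η0 z).1 h)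
        simp only [Set.mem_ofPred_eq, hz', false_and, if_false]
    rw [h1, Finset.mul_sum]
    refine Finset.sum_le_sum fun ξ _ => ?_
    rw [mul_left_comm]
    refine mul_le_mul_of_nonneg_left ?_ (hw0 ξ)
    have h2 := hν ξ (ZMod q) (DD d N L) (fun η => W (glue L E ξ η))
      (fun η z => U (glue L E ξ η) z) (fun z => {η | glue L E ξ η ∈ NF z}) ?_
    · refine h2.trans (le_of_eq ?_)
      refine Finset.sum_congr rfl fun η _ => ?_
      have h3 : (⨅ i ∈ J ξ, U (glue L E ξ η) i) =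
          ⨅ (z : Fin d → Fin N) (_ : sh (pos L z) (glue L E ξ η) ∈ G), U (glue L E ξ η) z := by
        refine iInf_congr fun z => ?_
        exact iInf_congr_Prop (memJ ξ η z) fun _ => rfl
      rw [h3]
    · intro η η' hrel z hz hzR hzNF
      have h3 := hyp (glue L E ξ η) (glue L E ξ η') ?_ ?_ z ((memJ ξ η z).1 hz)
        ((hboxR ξ η z).2 hzR) hzNF
      · have h4 : (⨅ j ∈ (J ξ).filter (fun j => η j ∈ S'), U (glue L E ξ η') j) =
            ⨅ (z' : Fin d → Fin N) (_ : sh (pos L z') (glue L E ξ η) ∈ G ∧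
              sh (pos L z') (glue L E ξ η) ∈ S), U (glue L E ξ η') z' := by
          refine iInf_congr fun z' => ?_
          refine iInf_congr_Prop ?_ fun _ => rfl
          rw [Finset.mem_filter, memJ ξ η z', hboxS ξ η z']
        rw [← h4] at h3
        exact h3
      · intro e he
        by_cases hex : ∃ z' : Fin d → Fin N, (e.1 - pos L z', e.2) ∈ E
        · obtain ⟨z', hz'⟩ := hex
          rw [glue_eq hL hE ξ η' hz', glue_eq hL hE ξ η hz']
          rcases hrel z' with ⟨h4, h5, _⟩ | ⟨_, h5⟩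
          · exact absurd hz' (he z' ((memJ ξ η z').1 h4) ((hboxS ξ η z').2 h5))
          · rw [h5]
        · push Not at hex
          rw [glue_out ξ η' hex, glue_out ξ η hex]
      · intro z' h4 h5
        rcases hrel z' with ⟨_, _, h6⟩ | ⟨h6, _⟩
        · exact (hboxR ξ η' z').2 h6
        · exact absurd ⟨(memJ ξ η z').2 h4, (hboxS ξ η z').1 h5⟩ h6

end Pool.Agent.TH740.J2355
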