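import Mathlib
import Pool.Agent.TH974.IH.Box
import Pool.Agent.TH740.J2355
import Pool.Agent.TH740.J2189
import Pool.Agent.TH999.J2180
import Pool.Agent.TH999.J2181
import Pool.Agent.TH999.J2182
import Pool.Agent.TH999.J2183
import Pool.Agent.TH645.J2185

/-! Common lemmas for the jobs 2356, 2357 (project IH): shifts, cells, dimensions. -/

set_option autoImplicit false

open Finset MeasureTheory ProbabilityTheory Filter Topology
open scoped ENNReal NNReal

namespace Pool.Agent.TH740.IHc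

open Pool.Agent.TH974.IH Pool.Agent.TH731.IHR4 Pool.Agent.TH740.J2355

/-! ### shifts -/

theorem lap_shift {d : ℕ} {R : Type*} [CommRing R] (a : Zd d) (ω : Env d) (u : Zd d → R)
    (x : Zd d) : Lap (sh a ω) (fun v => u (v + a)) x = Lap ω u (x + a) := by
  unfold Lap sh
  refine Finset.sum_congr rfl fun i _ => ?_
  have h1 : x + Pi.single i 1 + a = x + a + Pi.single i 1 := add_right_comm _ _ _
  have h2 : x - Pi.single i 1 + a = x + a - Pi.single i 1 := by abel
  simp only [h1, h2]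

theorem hd_shift {d : ℕ} (a : Zd d) (e : Ed d) : hd ((e.1 + a, e.2) : Ed d) = hd e + a := by
  unfold hd
  simp only
  abel

theorem hd_shift' {d : ℕ} (a : Zd d) (e : Ed d) : hd ((e.1 - a, e.2) : Ed d) = hd e - a := by
  unfold hd
  simp only
  abel

/-- shifted edge set -/
noncomputable def shE {d : ℕ} (a : Zd d) (E : Finset (Ed d)) : Finset (Ed d) :=
  open Classical in E.image fun e => ((e.1 + a, e.2) : Ed d)

/-- shifted vertex set -/
noncomputable def shV {d : ℕ} (a : Zd d) (V : Finset (Zd d)) : Finset (Zd d) :=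
  open Classical in V.image fun x => x + a

theorem mem_shE {d : ℕ} {a : Zd d} {E : Finset (Ed d)} {e : Ed d} :
    e ∈ shE a E ↔ ((e.1 - a, e.2) : Ed d) ∈ E := by
  classical
  unfold shE
  rw [Finset.mem_image]
  constructor
  · rintro ⟨e', he', rfl⟩
    simpa using he'
  · intro h
    exact ⟨_, h, by simp⟩

theorem mem_shV {d : ℕ} {a : Zd d} {V : Finset (Zd d)} {x : Zd d} :
    x ∈ shV a V ↔ x - a ∈ V := by
  classical
  unfold shV
  rw [Finset.mem_image]
  constructor
  · rintro ⟨x', hx', rfl⟩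
    simpa using hx'
  · intro h
    exact ⟨_, h, by simp⟩

theorem flx_shift {d : ℕ} {R : Type*} [CommRing R] (a : Zd d) (E : Finset (Ed d)) (ω : Env d)
    (u : Zd d → R) (x : Zd d) :
    flx E (sh a ω) (fun v => u (v + a)) x = flx (shE a E) ω u (x + a) := by
  classical
  unfold flx shE
  rw [Finset.sum_image]
  · refine Finset.sum_congr rfl fun e _ => ?_
    have h1 : sh a ω e = ω (e.1 + a, e.2) := rfl
    rw [h1, hd_shift]
    simp only [add_left_inj]
  · intro e _ e' _ h
    simp only [Prod.mk.injEq, add_left_inj] at h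
    exact Prod.ext h.1 h.2

theorem flx_congr {d : ℕ} {R : Type*} [CommRing R] (E : Finset (Ed d)) {ω ω' : Env d}
    (h : ∀ e ∈ E, ω e = ω' e) (u : Zd d → R) (x : Zd d) : flx E ω u x = flx E ω' u x := by
  unfold flx
  refine Finset.sum_congr rfl fun e he => ?_
  rw [h e he]

/-! ### cells -/

theorem cell_eq {d L N : ℕ} (hL : 1 ≤ L) {x : Zd d} {z z' : Fin d → Fin N}
    (h1 : x - pos L z ∈ cube d 0 ((L : ℤ) - 1)) (h2 : x - pos L z' ∈ cube d 0 ((L : ℤ) - 1)) :
    z = z' := by
  rw [mem_cube] at h1 h2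
  funext i
  have h3 := h1 i
  have h4 := h2 i
  simp only [Pi.sub_apply, pos] at h3 h4
  apply Fin.ext
  have hL' : (1 : ℤ) ≤ L := by exact_mod_cast hL
  have h5 : (L : ℤ) * ((z i : ℕ) : ℤ) - (L : ℤ) * ((z' i : ℕ) : ℤ) < L := by
    linarith [h3.1, h4.2]
  have h6 : (L : ℤ) * ((z' i : ℕ) : ℤ) - (L : ℤ) * ((z i : ℕ) : ℤ) < L := by
    linarith [h3.2, h4.1]
  have h7 : ((z i : ℕ) : ℤ) - ((z' i : ℕ) : ℤ) < 1 := by
    by_contra hc
    push Not at hc
    nlinarith
  have h8 : ((z' i : ℕ) : ℤ) - ((z i : ℕ) : ℤ) < 1 := by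
    by_contra hc
    push Not at hc
    nlinarith
  omega

theorem cube_mono {d : ℕ} {a b a' b' : ℤ} (h1 : a' ≤ a) (h2 : b ≤ b') :
    cube d a b ⊆ cube d a' b' := by
  intro x hx
  rw [mem_cube] at hx ⊢
  intro i
  have := hx i
  omega

theorem pos_bd {d L N : ℕ} (z : Fin d → Fin N) (i : Fin d) :
    0 ≤ pos L z i ∧ pos L z i + L ≤ (N : ℤ) * L := by
  simp only [pos]
  have hz : ((z i : ℕ) : ℤ) + 1 ≤ N := by
    have := (z i).2
    exact_mod_cast this
  have hz0 : (0 : ℤ) ≤ ((z i : ℕ) : ℤ) := Int.natCast_nonneg _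
  have hL0 : (0 : ℤ) ≤ (L : ℤ) := Int.natCast_nonneg _
  constructor <;> nlinarith

/-- vertices of the cell are in the large domain -/
theorem cell_D {d L N : ℕ} {x : Zd d} (hx : x ∈ cube d 0 ((L : ℤ) - 1)) (z : Fin d → Fin N) :
    x + pos L z ∈ DD d N L := by
  unfold DD
  rw [mem_cube] at hx ⊢
  intro i
  have h1 := hx i
  have h2 := pos_bd (L := L) z i
  simp only [Pi.add_apply]
  omega

/-- interior vertices of the cell are in the interior of the large domain -/
theorem cell_B {d L N : ℕ} {x : Zd d} (hx : x ∈ cube d 1 ((L : ℤ) - 2)) (z : Fin d → Fin N) :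
    x + pos L z ∈ BB d N L := by
  unfold BB
  rw [mem_cube] at hx ⊢
  intro i
  have h1 := hx i
  have h2 := pos_bd (L := L) z i
  simp only [Pi.add_apply]
  omega

theorem B_sub_D (d N L : ℕ) : BB d N L ⊆ DD d N L := cube_mono (by omega) (by omega)

theorem B_nbr (d N L : ℕ) : ∀ x ∈ BB d N L, ∀ i, x + Pi.single i 1 ∈ DD d N L ∧
    x - Pi.single i 1 ∈ DD d N L := by
  intro x hx i
  unfold BB at hx
  unfold DD
  rw [mem_cube] at hx
  rw [mem_cube, mem_cube]
  constructor
  · intro j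
    have := hx j
    simp only [Pi.add_apply, Pi.single_apply]
    split_ifs <;> omega
  · intro j
    have := hx j
    simp only [Pi.sub_apply, Pi.single_apply]
    split_ifs <;> omega

/-- the Laplacian on the interior only depends on the edges of the large domain -/
theorem lap_dep {d N L : ℕ} {R : Type*} [CommRing R] {ω ω' : Env d}
    (h : ∀ e ∈ ED d N L, ω e = ω' e) (u : Zd d → R) {x : Zd d} (hx : x ∈ BB d N L) :
    Lap ω u x = Lap ω' u x := by
  unfold Lap
  refine Finset.sum_congr rfl fun i _ => ?_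
  have h1 : ω (x, i) = ω' (x, i) := h _ ⟨B_sub_D d N L hx, (B_nbr d N L x hx i).1⟩
  have h2 : ω (x - Pi.single i 1, i) = ω' (x - Pi.single i 1, i) := by
    refine h _ ⟨(B_nbr d N L x hx i).2, ?_⟩
    have : hd ((x - Pi.single i 1, i) : Ed d) = x := by unfold hd; simp
    rw [this]
    exact B_sub_D d N L hx
  rw [h1, h2]

theorem ext_of_mem {d : ℕ} {R : Type*} [CommRing R] {D : Finset (Zd d)} (w : D → R) {x : Zd d}
    (hx : x ∈ D) : Pool.Agent.TH974.IH.ext D w x = w ⟨x, hx⟩ := by
  unfold Pool.Agent.TH974.IH.ext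
  rw [dif_pos hx]

/-- harmonic functions restrict to elements of `WW` -/
theorem restr_WW {d N L : ℕ} {R : Type*} [CommRing R] (ω : Env d) (w : Zd d → R)
    (hw : ∀ x ∈ BB d N L, Lap ω w x = 0) :
    (fun y : DD d N L => w y) ∈ WW R (DD d N L) (BB d N L) ω := by
  intro x hx
  rw [← hw x hx]
  unfold Lap
  refine Finset.sum_congr rfl fun i _ => ?_
  rw [ext_of_mem _ (B_nbr d N L x hx i).1, ext_of_mem _ (B_nbr d N L x hx i).2,
    ext_of_mem _ (B_sub_D d N L hx)]

theorem CC_le_WW {d N L : ℕ} {R : Type*} [CommRing R] (ω : Env d) :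
    CC R (DD d N L) ω ≤ WW R (DD d N L) (BB d N L) ω := by
  intro w hw x hx
  unfold Lap
  refine Finset.sum_eq_zero fun i _ => ?_
  have hxD := B_sub_D d N L hx
  obtain ⟨h1, h2⟩ := B_nbr d N L x hx i
  rw [ext_of_mem _ h1, ext_of_mem _ h2, ext_of_mem _ hxD]
  have h3 : (if ω (x, i) = true then w ⟨x + Pi.single i 1, h1⟩ - w ⟨x, hxD⟩ else 0) = 0 := by
    split_ifs with h
    · rw [hw ⟨x, hxD⟩ ⟨_, h1⟩ (x, i) h rfl rfl, sub_self]
    · rfl
  have h4 : (if ω (x - Pi.single i 1, i) = true then w ⟨x - Pi.single i 1, h2⟩ - w ⟨x, hxD⟩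
      else 0) = 0 := by
    split_ifs with h
    · rw [hw ⟨_, h2⟩ ⟨x, hxD⟩ (x - Pi.single i 1, i) h rfl (by unfold hd; simp), sub_self]
    · rfl
  rw [h3, h4, add_zero]

/-- the condition `w (x + a) = w (y + a)` for the pairs `(x, y)` of a relation -/
noncomputable def UU {d : ℕ} (R : Type*) [CommRing R] (D : Finset (Zd d))
    (r : Zd d → Zd d → Prop) (a : Zd d) : Submodule R (D → R) where
  carrier := {w | ∀ x y, r x y → Pool.Agent.TH974.IH.ext D w (x + a) =
    Pool.Agent.TH974.IH.ext D w (y + a)}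
  add_mem' := by
    intro v w hv hw x y h
    have key : ∀ z, Pool.Agent.TH974.IH.ext D (v + w) z =
        Pool.Agent.TH974.IH.ext D v z + Pool.Agent.TH974.IH.ext D w z := by
      intro z
      by_cases hz : z ∈ D <;> simp [Pool.Agent.TH974.IH.ext, hz]
    rw [key, key, hv x y h, hw x y h]
  zero_mem' := by
    intro x y _
    have key : ∀ z, Pool.Agent.TH974.IH.ext D (0 : D → R) z = 0 := by
      intro z
      by_cases hz : z ∈ D <;> simp [Pool.Agent.TH974.IH.ext, hz]
    rw [key, key]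
  smul_mem' := by
    intro c v hv x y h
    have key : ∀ z, Pool.Agent.TH974.IH.ext D (c • v) z = c * Pool.Agent.TH974.IH.ext D v z := by
      intro z
      by_cases hz : z ∈ D <;> simp [Pool.Agent.TH974.IH.ext, hz]
    rw [key, key, hv x y h]

theorem mem_UU {d : ℕ} {R : Type*} [CommRing R] {D : Finset (Zd d)} {r : Zd d → Zd d → Prop}
    {a : Zd d} {w : D → R} : w ∈ UU R D r a ↔ ∀ x y, r x y →
      Pool.Agent.TH974.IH.ext D w (x + a) = Pool.Agent.TH974.IH.ext D w (y + a) := Iff.rfl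

/-- functions which are constant along open edges are constant along open paths in a cell -/
theorem CC_con {d N L : ℕ} {R : Type*} [CommRing R] (ω : Env d) (z : Fin d → Fin N)
    {w : DD d N L → R} (hw : w ∈ CC R (DD d N L) ω) {x y : Zd d}
    (h : Pool.Agent.TH974.IH.Con (cedges d 0 ((L : ℤ) - 1)) (sh (pos L z) ω) x y) :
    Pool.Agent.TH974.IH.ext (DD d N L) w (x + pos L z) =
      Pool.Agent.TH974.IH.ext (DD d N L) w (y + pos L z) := by
  unfold Pool.Agent.TH974.IH.Con at h
  induction h with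
  | refl => rfl
  | @tail b c _ hbc ih =>
    rw [ih]
    obtain ⟨e, he, ho, hj⟩ := hbc
    have he1 : e.1 + pos L z ∈ DD d N L := cell_D he.1 z
    have he2 : hd e + pos L z ∈ DD d N L := cell_D he.2 z
    have hkey : Pool.Agent.TH974.IH.ext (DD d N L) w (e.1 + pos L z) =
        Pool.Agent.TH974.IH.ext (DD d N L) w (hd e + pos L z) := by
      rw [ext_of_mem _ he1, ext_of_mem _ he2]
      exact hw ⟨_, he1⟩ ⟨_, he2⟩ (e.1 + pos L z, e.2) ho rfl (hd_shift _ _)
    rcases hj with ⟨rfl, rfl⟩ | ⟨rfl, rfl⟩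
    · exact hkey
    · exact hkey.symm

/-- dimension of the space of harmonic functions modulo `q` -/
theorem dim_WW {d N L : ℕ} (hd1 : 1 ≤ d) (hL : 2 ≤ L) (hN : 1 ≤ N) (ω : Env d) (q : ℕ)
    [Fact q.Prime] :
    (Module.finrank (ZMod q) (WW (ZMod q) (DD d N L) (BB d N L) ω) : ℝ) ≤
      Module.finrank (ZMod q) (CC (ZMod q) (DD d N L) ω) +
        (2 * d * (N * L : ℝ) ^ (d - 1) + dfc q (DD d N L) (BB d N L) ω) := by
  classical
  have hker : ∀ (R : Type) [Field R], Module.finrank R (WW R (DD d N L) (BB d N L) ω) +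
      ((MM (DD d N L) (BB d N L) ω).map (Int.cast : ℤ → R)).rank = (DD d N L).card := by
    intro R _
    have h1 : WW R (DD d N L) (BB d N L) ω =
        LinearMap.ker (((MM (DD d N L) (BB d N L) ω).map (Int.cast : ℤ → R)).mulVecLin) := by
      ext w
      rw [LinearMap.mem_ker, Matrix.mulVecLin_apply,
        Pool.Agent.TH999.J2181.WW_ker _ _ (B_sub_D d N L) (B_nbr d N L)]
    rw [h1]
    have h2 := LinearMap.finrank_range_add_finrank_ker
      (((MM (DD d N L) (BB d N L) ω).map (Int.cast : ℤ → R)).mulVecLin)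
    rw [Matrix.rank, add_comm]
    rw [h2]
    simp
  have h1 := hker (ZMod q)
  have h2 := hker ℚ
  have h3 := Pool.Agent.TH999.J2182.energy _ _ (B_sub_D d N L) (B_nbr d N L) ω
  have h4 := Pool.Agent.TH999.J2180.CC_rank (DD d N L) ω q
  have h5 := Pool.Agent.TH740.J2189.card_DB d N L hd1 hL hN
  have h6 : Module.finrank (ZMod q) (WW (ZMod q) (DD d N L) (BB d N L) ω) ≤
      Module.finrank (ZMod q) (CC (ZMod q) (DD d N L) ω) + (DD d N L \ BB d N L).card +
        dfc q (DD d N L) (BB d N L) ω := by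
    unfold dfc
    omega
  have h7 : (Module.finrank (ZMod q) (WW (ZMod q) (DD d N L) (BB d N L) ω) : ℝ) ≤
      (Module.finrank (ZMod q) (CC (ZMod q) (DD d N L) ω) : ℝ) +
        ((DD d N L \ BB d N L).card : ℝ) + (dfc q (DD d N L) (BB d N L) ω : ℝ) := by
    exact_mod_cast h6
  linarith

/-! ### measures -/

theorem real_shift {d : ℕ} (p : ℝ) (hp0 : 0 ≤ p) (hp1 : p ≤ 1) (z : Zd d) (A : Set (Env d)) :
    (perc d p).real {ω | sh z ω ∈ A} = (perc d p).real A := by
  unfold Measure.real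
  rw [Pool.Agent.TH645.IH.perc_shift p hp0 hp1 z A]

/-- the shift of a function harmonic around the cell `z` is harmonic for `ω` on a region -/
theorem har_shift {d : ℕ} {r r' : ℕ} (ω : Env d) (a b : Zd d) {u : Zd d → ℤ}
    (h : HarC r (sh a ω) u) (hab : ∀ i, |b i - a i| + r' ≤ r) :
    HarC r' (sh b ω) (fun v => u (v + b - a)) := by
  intro x hx
  have h1 := lap_shift b ω (fun v => u (v - a)) x
  rw [h1]
  have h2 := lap_shift a ω (fun v => u (v - a)) (x + b - a)
  simp only [add_sub_cancel_right, sub_add_cancel] at h2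
  rw [← h2]
  apply h
  rw [mem_cube] at hx ⊢
  intro i
  have h3 := hx i
  have h4 := hab i
  have h5 := abs_le.1 (le_of_eq (rfl : |b i - a i| = |b i - a i|))
  simp only [Pi.add_apply, Pi.sub_apply]
  omega

/-- the shift of a function harmonic around the cell `z` is harmonic on the large domain -/
theorem har_B {d N L r : ℕ} (hr : N * L ≤ r) (ω : Env d) (z : Fin d → Fin N) {u : Zd d → ℤ}
    (h : HarC r (sh (pos L z) ω) u) {x : Zd d} (hx : x ∈ BB d N L) :
    Lap ω (fun v => u (v - pos L z)) x = 0 := by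
  have h2 := lap_shift (pos L z) ω (fun v => u (v - pos L z)) (x - pos L z)
  simp only [add_sub_cancel_right, sub_add_cancel] at h2
  rw [← h2]
  apply h
  unfold BB at hx
  rw [mem_cube] at hx ⊢
  intro i
  have h3 := hx i
  have h4 := pos_bd (L := L) z i
  have h5 : ((N * L : ℕ) : ℤ) ≤ r := by exact_mod_cast hr
  push_cast at h5
  simp only [Pi.sub_apply]
  omega

end Pool.Agent.TH740.IHc
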