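import Mathlib
import Pool.Agent.TH740.IHc
import Pool.Agent.TH592.J2169
import Pool.Agent.TH576.J2179

/-! Job 2356 (IH-T1): the transfer lemma. -/

set_option autoImplicit false

open Finset MeasureTheory ProbabilityTheory Filter Topology
open scoped ENNReal NNReal

namespace Pool.Agent.TH740.J2356

open Pool.Agent.TH974.IH Pool.Agent.TH740.IHc Pool.Agent.TH731.IHR4

/-- shift of the hypothesis `Flat` -/
theorem flat_shift {d : ℕ} (q : ℕ) (a : Zd d) (T : Finset (Zd d)) (E : Finset (Ed d)) (ω : Env d)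
    (u : Zd d → ℤ) (h : Flat q (sh a ω) T E (fun v => u (v + a))) :
    Flat q ω (shV a T) (shE a E) u := by
  constructor
  · intro x hx y hy
    rw [mem_shV] at hx hy
    have := h.1 _ hx _ hy
    simpa using this
  · intro x hx
    rw [mem_shV] at hx
    have h1 := h.2 _ hx
    rw [flx_shift] at h1
    simpa using h1

theorem flat_congr {d : ℕ} (q : ℕ) (T : Finset (Zd d)) (E : Finset (Ed d)) {ω ω' : Env d}
    (h : ∀ e ∈ E, ω e = ω' e) (u : Zd d → ℤ) : Flat q ω T E u ↔ Flat q ω' T E u := by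
  unfold Flat
  simp only [flx_congr E h]

theorem TLP {d : ℕ} (hd1 : 1 ≤ d) (p : ℝ) (hp0 : 0 < p) (hp1 : p < 1) (X : Loc d) (hX : X.OK)
    (hL : 2 ≤ X.L) (S : Set (Env d)) (hS : Dep (X.E : Set (Ed d)) S)
    (Mon : Env d → Zd d → Zd d → Prop)
    (hM1 : ∀ ω ω' x y, (∀ e ∈ cedges d 0 ((X.L : ℤ) - 1), ω e = ω' e) → Mon ω x y → Mon ω' x y)
    (hM2 : ∀ ω x y, Mon ω x y → x ∈ X.V ∧ y ∈ X.V)
    (hM3 : ∀ ω x y, ω ∈ X.G → Mon ω x y → Con (cedges d 0 ((X.L : ℤ) - 1)) ω x y)
    (α : ℝ) (hα : 0 < α) (hα' : α ≤ (perc d p).real S) (N : ℕ) (hN : 1 ≤ N) :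
    ∃ df : ℕ → ℝ, (∀ q, 0 ≤ df q) ∧
      (∀ Q : Finset ℕ, (∀ q ∈ Q, q.Prime) →
        ∑ q ∈ Q, df q * Real.log q ≤ (N * X.L : ℝ) ^ d * Real.log (4 * d)) ∧
      ∀ q : ℕ, q.Prime → ∀ (r0 : ℕ) (δ : ℝ),
        (perc d p).real {ω | ω ∈ X.G ∧ ω ∈ S ∧ ∃ u, HarC r0 ω u ∧ ¬ Flat q ω X.T X.E u} ≤ δ →
        ∃ r1 : ℕ, (perc d p).real {ω | ω ∈ X.G ∧ ω ∉ S ∧ ∃ u, HarC r1 ω u ∧
          ∃ x y, Mon ω x y ∧ (u x : ZMod q) ≠ u y} ≤
          (N : ℝ) ^ d * δ + (2 * d * (N * X.L : ℝ) ^ (d - 1) + df q) / (α * (N : ℝ) ^ d) := by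
  classical
  have hp0' := hp0.le
  have hp1' := hp1.le
  have hprob : IsProbabilityMeasure (perc d p) := Pool.Agent.TH645.IH.perc_prob p hp0' hp1'
  have hlog : 0 ≤ Real.log (4 * d) := by
    apply Real.log_nonneg
    have : (1 : ℝ) ≤ d := by exact_mod_cast hd1
    linarith
  have hNL0 : (0 : ℝ) ≤ (N * X.L : ℝ) := by positivity
  have hL1 : 1 ≤ X.L := by omega
  -- cells
  have hVc : ∀ x ∈ X.V, x ∈ cube d 0 ((X.L : ℤ) - 1) := fun x hx =>
    cube_mono (by omega) (by omega) (hX.VL hx)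
  have hE : ∀ e ∈ X.E, e.1 ∈ cube d 0 ((X.L : ℤ) - 1) ∧ hd e ∈ cube d 0 ((X.L : ℤ) - 1) :=
    fun e he => ⟨hVc _ (hX.EV e he).1, hVc _ (hX.EV e he).2⟩
  have hSm : MeasurableSet S := Pool.Agent.TH645.IH.dep_meas X.E S hS
  have hcompl : (perc d p).real S + (perc d p).real Sᶜ = 1 := by
    rw [probReal_add_probReal_compl hSm]
  rcases (measureReal_nonneg (μ := perc d p) (s := Sᶜ)).eq_or_lt with hz | hz
  · -- the complement of `S` is negligible
    refine ⟨fun _ => 0, fun _ => le_rfl, fun Q _ => ?_, fun q _ r0 δ hδ => ⟨0, ?_⟩⟩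
    · simp only [zero_mul, Finset.sum_const_zero]
      positivity
    · have hδ0 : 0 ≤ δ := measureReal_nonneg.trans hδ
      have h1 : (perc d p).real {ω | ω ∈ X.G ∧ ω ∉ S ∧ ∃ u, HarC 0 ω u ∧
          ∃ x y, Mon ω x y ∧ (u x : ZMod q) ≠ u y} ≤ (perc d p).real Sᶜ :=
        measureReal_mono fun ω h => h.2.1
      rw [← hz] at h1
      refine h1.trans ?_
      positivity
  -- the replacement lemma
  obtain ⟨Ξ, ν, hν0, hν1, hmain⟩ := Pool.Agent.TH740.J2355.GRP p hp0 hp1 X.L N hL1 X.E hE X.G S Sᶜ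
    hX.Gdep hS (fun ω ω' h => not_congr (hS ω ω' h)) disjoint_compl_right hz α
    (by rw [hcompl, mul_one]; exact hα')
  refine ⟨fun q => ∑ ω ∈ Ξ, ν ω * (dfc q (DD d N X.L) (BB d N X.L) ω : ℝ),
    fun q => Finset.sum_nonneg fun ω _ => mul_nonneg (hν0 ω) (Nat.cast_nonneg _),
    fun Q hQ => ?_, fun q hq r0 δ hδ => ?_⟩
  · -- total deficit
    have h1 : ∀ ω, ∑ q ∈ Q, (dfc q (DD d N X.L) (BB d N X.L) ω : ℝ) * Real.log q ≤
        (N * X.L : ℝ) ^ d * Real.log (4 * d) := by
      intro ω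
      have h2 := Pool.Agent.TH576.J2179.rank_deficit (MM (DD d N X.L) (BB d N X.L) ω) (4 * d)
        (by omega) (fun x => Pool.Agent.TH999.J2181.MM_row _ _ ω x) Q hQ
      have h3 : ((Fintype.card (BB d N X.L) : ℕ) : ℝ) ≤ (N * X.L : ℝ) ^ d := by
        rw [Fintype.card_coe]
        have h4 : (BB d N X.L).card ≤ (DD d N X.L).card := Finset.card_le_card (B_sub_D d N X.L)
        have h5 : (DD d N X.L).card = (N * X.L) ^ d := by
          unfold DD
          rw [Pool.Agent.TH740.J2189.card_cube]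
          congr 1
          have : ((N : ℤ) * X.L - 1 + 1 - 0) = ((N * X.L : ℕ) : ℤ) := by push_cast; ring
          rw [this]; exact Int.toNat_natCast _
        rw [h5] at h4
        exact_mod_cast h4
      have h6 : Real.log ((4 * d : ℕ) : ℝ) = Real.log (4 * d) := by push_cast; rfl
      rw [h6] at h2
      unfold dfc
      exact h2.trans (mul_le_mul_of_nonneg_right h3 hlog)
    calc ∑ q ∈ Q, (∑ ω ∈ Ξ, ν ω * (dfc q (DD d N X.L) (BB d N X.L) ω : ℝ)) * Real.log q
        = ∑ ω ∈ Ξ, ν ω * ∑ q ∈ Q, (dfc q (DD d N X.L) (BB d N X.L) ω : ℝ) * Real.log q := by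
          simp only [Finset.sum_mul, Finset.mul_sum]
          rw [Finset.sum_comm]
          refine Finset.sum_congr rfl fun ω _ => Finset.sum_congr rfl fun q _ => by ring
      _ ≤ ∑ ω ∈ Ξ, ν ω * ((N * X.L : ℝ) ^ d * Real.log (4 * d)) :=
          Finset.sum_le_sum fun ω _ => mul_le_mul_of_nonneg_left (h1 ω) (hν0 ω)
      _ = (N * X.L : ℝ) ^ d * Real.log (4 * d) := by
          rw [← Finset.sum_mul, hν1, one_mul]
  · -- main estimate
    have hqf : Fact q.Prime := ⟨hq⟩
    set NF : (Fin d → Fin N) → Set (Env d) := fun z => {ω | ∃ u : Zd d → ℤ,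
      (∀ x ∈ BB d N X.L, Lap ω u x = 0) ∧
      (∀ z' : Fin d → Fin N, sh (pos X.L z') ω ∈ X.G → sh (pos X.L z') ω ∈ S →
        Flat q (sh (pos X.L z') ω) X.T X.E (fun v => u (v + pos X.L z'))) ∧
      ∃ x y, Mon (sh (pos X.L z) ω) x y ∧
        ((u (x + pos X.L z) : ℤ) : ZMod q) ≠ ((u (y + pos X.L z) : ℤ) : ZMod q)} with hNF
    have hNFd : ∀ z, Dep (ED d N X.L) (NF z) := by
      intro z
      have key : ∀ ω ω' : Env d, (∀ e ∈ ED d N X.L, ω e = ω' e) → ω ∈ NF z → ω' ∈ NF z := by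
        intro ω ω' h hω
        obtain ⟨u, hu, hfl, x, y, hM, hne⟩ := hω
        have hcell : ∀ (z' : Fin d → Fin N), ∀ e ∈ cedges d 0 ((X.L : ℤ) - 1),
            sh (pos X.L z') ω e = sh (pos X.L z') ω' e := fun z' e he =>
          h _ (Pool.Agent.TH740.J2355.cell_sub he z')
        refine ⟨u, fun x hx => ?_, fun z' hG hS' => ?_, x, y, ?_, hne⟩
        · rw [← lap_dep h u hx]; exact hu x hx
        · have hG' : sh (pos X.L z') ω ∈ X.G :=
            (hX.Gdep _ _ fun e he => hcell z' e he.1).2 hG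
          have hS'' : sh (pos X.L z') ω ∈ S := (hS _ _ fun e he => hcell z' e (hE e he)).2 hS'
          rw [← flat_congr q X.T X.E (fun e he => hcell z' e (hE e he))]
          exact hfl z' hG' hS''
        · exact hM1 _ _ _ _ (hcell z) hM
      intro ω ω' h
      exact ⟨key ω ω' h, key ω' ω fun e he => (h e he).symm⟩
    have h1 := hmain q (fun ω => WW (ZMod q) (DD d N X.L) (BB d N X.L) ω)
      (fun ω z => UU (ZMod q) (DD d N X.L) (Mon (sh (pos X.L z) ω)) (pos X.L z)) NF hNFd ?_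
    · -- conclusion
      have h2 : ∀ ω : Env d, (Module.finrank (ZMod q)
            (WW (ZMod q) (DD d N X.L) (BB d N X.L) ω) : ℝ) -
          Module.finrank (ZMod q) (WW (ZMod q) (DD d N X.L) (BB d N X.L) ω ⊓
            ⨅ (z : Fin d → Fin N) (_ : sh (pos X.L z) ω ∈ X.G),
              UU (ZMod q) (DD d N X.L) (Mon (sh (pos X.L z) ω)) (pos X.L z) :
              Submodule (ZMod q) (DD d N X.L → ZMod q)) ≤
          2 * d * (N * X.L : ℝ) ^ (d - 1) + dfc q (DD d N X.L) (BB d N X.L) ω := by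
        intro ω
        have h3 := dim_WW (N := N) hd1 hL hN ω q
        have h4 : CC (ZMod q) (DD d N X.L) ω ≤ WW (ZMod q) (DD d N X.L) (BB d N X.L) ω ⊓
            ⨅ (z : Fin d → Fin N) (_ : sh (pos X.L z) ω ∈ X.G),
              UU (ZMod q) (DD d N X.L) (Mon (sh (pos X.L z) ω)) (pos X.L z) := by
          refine le_inf (CC_le_WW ω) ?_
          refine le_iInf fun z => le_iInf fun hz => ?_
          intro w hw
          rw [mem_UU]
          intro x y hM
          exact CC_con ω z hw (hM3 _ _ _ hz hM)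
        have h5 := Submodule.finrank_mono h4
        have h6 : (Module.finrank (ZMod q) (CC (ZMod q) (DD d N X.L) ω) : ℝ) ≤
            Module.finrank (ZMod q) (WW (ZMod q) (DD d N X.L) (BB d N X.L) ω ⊓
            ⨅ (z : Fin d → Fin N) (_ : sh (pos X.L z) ω ∈ X.G),
              UU (ZMod q) (DD d N X.L) (Mon (sh (pos X.L z) ω)) (pos X.L z) :
              Submodule (ZMod q) (DD d N X.L → ZMod q)) := by exact_mod_cast h5
        linarith
      have h3 : α * ∑ z : Fin d → Fin N, (perc d p).real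
          {ω | sh (pos X.L z) ω ∈ X.G ∧ sh (pos X.L z) ω ∈ Sᶜ ∧ ω ∈ NF z} ≤
          2 * d * (N * X.L : ℝ) ^ (d - 1) +
            ∑ ω ∈ Ξ, ν ω * (dfc q (DD d N X.L) (BB d N X.L) ω : ℝ) := by
        refine h1.trans ?_
        calc _ ≤ ∑ ω ∈ Ξ, ν ω * (2 * d * (N * X.L : ℝ) ^ (d - 1) +
              dfc q (DD d N X.L) (BB d N X.L) ω) :=
              Finset.sum_le_sum fun ω _ => mul_le_mul_of_nonneg_left (h2 ω) (hν0 ω)
          _ = _ := by
              simp only [mul_add, Finset.sum_add_distrib]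
              rw [← Finset.sum_mul, hν1, one_mul]
      set bad : Set (Env d) := {ω | ω ∈ X.G ∧ ω ∈ S ∧ ∃ u, HarC r0 ω u ∧ ¬ Flat q ω X.T X.E u}
        with hbad
      set tgt : Set (Env d) := {ω | ω ∈ X.G ∧ ω ∉ S ∧ ∃ u, HarC (r0 + N * X.L) ω u ∧
          ∃ x y, Mon ω x y ∧ (u x : ZMod q) ≠ u y} with htgt
      have hδ0 : 0 ≤ δ := measureReal_nonneg.trans hδ
      refine ⟨r0 + N * X.L, ?_⟩
      have h4 : ∀ z : Fin d → Fin N, (perc d p).real tgt ≤
          (perc d p).real {ω | sh (pos X.L z) ω ∈ X.G ∧ sh (pos X.L z) ω ∈ Sᶜ ∧ ω ∈ NF z} +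
            (N : ℝ) ^ d * δ := by
        intro z
        have h5 : {ω | sh (pos X.L z) ω ∈ tgt} ⊆
            {ω | sh (pos X.L z) ω ∈ X.G ∧ sh (pos X.L z) ω ∈ Sᶜ ∧ ω ∈ NF z} ∪
              ⋃ z' ∈ (Finset.univ : Finset (Fin d → Fin N)), {ω | sh (pos X.L z') ω ∈ bad} := by
          intro ω hω
          obtain ⟨hG, hnS, u', hu', x, y, hM, hne⟩ := hω
          by_cases hall : ∀ z' : Fin d → Fin N, sh (pos X.L z') ω ∈ X.G →
              sh (pos X.L z') ω ∈ S → Flat q (sh (pos X.L z') ω) X.T X.E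
                (fun v => u' (v + pos X.L z' - pos X.L z))
          · left
            refine ⟨hG, hnS, fun v => u' (v - pos X.L z), fun v hv => ?_, hall, x, y, hM, ?_⟩
            · exact har_B (r := r0 + N * X.L) (by omega) ω z hu' hv
            · simpa using hne
          · right
            push Not at hall
            obtain ⟨z', hG', hS', hfl'⟩ := hall
            simp only [Set.mem_iUnion]
            refine ⟨z', Finset.mem_univ _, hG', hS', _, ?_, hfl'⟩
            refine har_shift (r := r0 + N * X.L) ω (pos X.L z) (pos X.L z') hu' fun i => ?_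
            have e1 := pos_bd (L := X.L) z i
            have e2 := pos_bd (L := X.L) z' i
            have e3 : |pos X.L z' i - pos X.L z i| ≤ (N : ℤ) * X.L := by
              rw [abs_le]; constructor <;> omega
            push_cast
            linarith
        calc (perc d p).real tgt = (perc d p).real {ω | sh (pos X.L z) ω ∈ tgt} :=
              (real_shift p hp0' hp1' _ _).symm
          _ ≤ (perc d p).real ({ω | sh (pos X.L z) ω ∈ X.G ∧ sh (pos X.L z) ω ∈ Sᶜ ∧ ω ∈ NF z} ∪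
              ⋃ z' ∈ (Finset.univ : Finset (Fin d → Fin N)), {ω | sh (pos X.L z') ω ∈ bad}) :=
              measureReal_mono h5
          _ ≤ (perc d p).real {ω | sh (pos X.L z) ω ∈ X.G ∧ sh (pos X.L z) ω ∈ Sᶜ ∧ ω ∈ NF z} +
              (perc d p).real (⋃ z' ∈ (Finset.univ : Finset (Fin d → Fin N)),
                {ω | sh (pos X.L z') ω ∈ bad}) := measureReal_union_le _ _
          _ ≤ (perc d p).real {ω | sh (pos X.L z) ω ∈ X.G ∧ sh (pos X.L z) ω ∈ Sᶜ ∧ ω ∈ NF z} +
              ∑ z' : Fin d → Fin N, (perc d p).real {ω | sh (pos X.L z') ω ∈ bad} := by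
              gcongr
              exact measureReal_biUnion_finset_le _ _
          _ ≤ (perc d p).real {ω | sh (pos X.L z) ω ∈ X.G ∧ sh (pos X.L z) ω ∈ Sᶜ ∧ ω ∈ NF z} +
              ∑ z' : Fin d → Fin N, δ := by
              gcongr with z' _
              rw [real_shift p hp0' hp1']
              exact hδ
          _ = _ := by
              simp
      have h5 := Finset.sum_le_sum fun z (_ : z ∈ (Finset.univ : Finset (Fin d → Fin N))) => h4 z
      rw [Finset.sum_add_distrib, Finset.sum_const, Finset.sum_const] at h5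
      simp only [Finset.card_univ, Fintype.card_pi, Fintype.card_fin, Finset.prod_const,
        nsmul_eq_mul, Nat.cast_pow] at h5
      have hNd : (0 : ℝ) < (N : ℝ) ^ d := by positivity
      set Tz := ∑ z : Fin d → Fin N, (perc d p).real
          {ω | sh (pos X.L z) ω ∈ X.G ∧ sh (pos X.L z) ω ∈ Sᶜ ∧ ω ∈ NF z} with hTz
      have h6 : (perc d p).real tgt ≤ (N : ℝ) ^ d * δ + Tz / (N : ℝ) ^ d := by
        rw [← sub_le_iff_le_add', le_div_iff₀ hNd]
        nlinarith
      refine h6.trans (add_le_add le_rfl ?_)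
      rw [le_div_iff₀ (by positivity)]
      have e1 : Tz / (N : ℝ) ^ d * (α * (N : ℝ) ^ d) = α * Tz := by
        field_simp
      rw [e1]
      exact h3
    · -- the hypothesis of the replacement lemma
      intro ω ω' hoff hrep z hGz hRz hNFz
      obtain ⟨u, hu, hfl, x, y, hM, hne⟩ := hNFz
      set A : Finset (Fin d → Fin N) := Finset.univ.filter
        (fun z' => sh (pos X.L z') ω ∈ X.G ∧ sh (pos X.L z') ω ∈ S) with hA
      have memA : ∀ z', z' ∈ A ↔ sh (pos X.L z') ω ∈ X.G ∧ sh (pos X.L z') ω ∈ S := by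
        intro z'; simp [hA]
      have hcellz : ∀ (z' : Fin d → Fin N) (v : Zd d), v ∈ shV (pos X.L z') X.V →
          v - pos X.L z' ∈ cube d 0 ((X.L : ℤ) - 1) := fun z' v hv => hVc _ (mem_shV.1 hv)
      obtain ⟨w, hw1, hw2, hw3⟩ := Pool.Agent.TH592.J2169.TLdet q (BB d N X.L) A
        (fun z' => shV (pos X.L z') X.V) (fun z' => shV (pos X.L z') X.T)
        (fun z' => shE (pos X.L z') X.E) ω ω'
        (fun z' _ v hv => mem_shV.2 (hX.TV (mem_shV.1 hv)))
        (fun z' _ e he => by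
          have h2 := hX.EV _ (mem_shE.1 he)
          refine ⟨mem_shV.2 h2.1, mem_shV.2 ?_⟩
          rw [← hd_shift']
          exact h2.2)
        (fun z' _ z'' _ hne => by
          rw [Finset.disjoint_left]
          intro v hv hv'
          exact hne (cell_eq hL1 (hcellz z' v hv) (hcellz z'' v hv')))
        (fun z' hz' e he h => by
          have hG := ((memA z').1 hz').1
          have h2 := hX.Gcl _ hG (e.1 - pos X.L z', e.2) (fun h3 => he (mem_shE.2 h3)) (by
            rw [hd_shift']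
            rcases h with ⟨h3, h4⟩ | ⟨h3, h4⟩
            · left
              exact ⟨mem_shV.1 h3, fun h5 => h4 (mem_shV.2 h5)⟩
            · right
              exact ⟨mem_shV.1 h3, fun h5 => h4 (mem_shV.2 h5)⟩)
          have h3 : sh (pos X.L z') ω (e.1 - pos X.L z', e.2) = ω e := by
            unfold sh
            simp
          rw [← h3]
          exact h2)
        (fun e he => hoff e fun z' h2 h3 h4 => he z' ((memA z').2 ⟨h2, h3⟩) (mem_shE.2 h4))
        u hu
        (fun z' hz' => flat_shift q (pos X.L z') X.T X.E ω u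
          (hfl z' ((memA z').1 hz').1 ((memA z').1 hz').2))
      -- the test function
      intro hle
      have hVD : ∀ (z' : Fin d → Fin N) (v : Zd d), v ∈ X.V → v + pos X.L z' ∈ DD d N X.L :=
        fun z' v hv => cell_D (hVc v hv) z'
      have hmem : (fun v : DD d N X.L => w v) ∈ (WW (ZMod q) (DD d N X.L) (BB d N X.L) ω' ⊓
          ⨅ (z' : Fin d → Fin N) (_ : sh (pos X.L z') ω ∈ X.G ∧ sh (pos X.L z') ω ∈ S),
            UU (ZMod q) (DD d N X.L) (Mon (sh (pos X.L z') ω')) (pos X.L z')) := by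
        refine ⟨restr_WW ω' w hw1, ?_⟩
        simp only [Submodule.mem_iInf, SetLike.mem_coe]
        intro z' hz'
        rw [mem_UU]
        intro a b hab
        obtain ⟨ha, hb⟩ := hM2 _ _ _ hab
        rw [ext_of_mem _ (hVD z' a ha), ext_of_mem _ (hVD z' b hb)]
        exact hw2 z' ((memA z').2 hz') _ (mem_shV.2 (by simpa using ha)) _
          (mem_shV.2 (by simpa using hb))
      have h2 := hle hmem
      rw [mem_UU] at h2
      have hzA : z ∉ A := fun h => hRz ((memA z).1 h).2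
      have hMz : Mon (sh (pos X.L z) ω') x y := by
        refine hM1 _ _ _ _ (fun e he => ?_) hM
        refine (hoff _ fun z' h3 h4 h5 => ?_).symm
        have h6 : z = z' := by
          have h7 : e.1 + pos X.L z - pos X.L z' ∈ cube d 0 ((X.L : ℤ) - 1) := (hE _ h5).1
          exact cell_eq hL1 (x := e.1 + pos X.L z) (by simpa using he.1) h7
        subst h6
        exact hRz h4
      have h3 := h2 x y hMz
      obtain ⟨hx, hy⟩ := hM2 _ _ _ hM
      rw [ext_of_mem _ (hVD z x hx), ext_of_mem _ (hVD z y hy)] at h3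
      have hout : ∀ v ∈ X.V, ∀ i ∈ A, v + pos X.L z ∉ shV (pos X.L i) X.V := by
        intro v hv i hi h4
        have h5 : z = i := cell_eq hL1 (x := v + pos X.L z)
          (by simpa using hVc v hv) (hcellz i _ h4)
        exact hzA (h5 ▸ hi)
      rw [hw3 _ (hout x hx), hw3 _ (hout y hy)] at h3
      exact hne h3

end Pool.Agent.TH740.J2356
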