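import Pool.Agent.TH161.KS.Defs

/-! Job 3058 (KS VIS): few visitors. -/

set_option autoImplicit false

open Finset Filter Topology
open scoped Classical

namespace Pool.Agent.TH740.KS_VIS

open Pool.Agent.TH161.KS

/-- numerical estimate for one element -/
theorem num (C R L d : ℝ) (hC : 1 ≤ C) (hR : 1 ≤ R) (hL : 1 ≤ L) (hLR : L ≤ R)
    (hd : L * R < d) :
    Real.exp (-(d / 2 / (9 * (C * (R + √d) + 1)))) ≤
      24 * (108 * C) ^ 4 * Real.exp (-(1 / (108 * C) * L)) * (1 / (d / (L * R)) ^ 2) := by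
  have hLR0 : 0 < L * R := by positivity
  have hd0 : 0 < d := hLR0.trans hd
  obtain ⟨x, hx⟩ : ∃ x, x = d / (L * R) := ⟨_, rfl⟩
  have hx1 : 1 < x := by rw [hx, one_lt_div hLR0]; exact hd
  have hdx : d = x * (L * R) := by rw [hx]; field_simp
  have hs1 : 1 ≤ √x := by rw [← Real.sqrt_one]; exact Real.sqrt_le_sqrt hx1.le
  have hss : √x * √x = x := Real.mul_self_sqrt (by linarith)
  have hsd : √d ≤ √x * R := by
    have h1 : d ≤ (√x * R) ^ 2 := by
      have h2 : (√x * R) ^ 2 = x * (R * R) := by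
        calc (√x * R) ^ 2 = (√x * √x) * (R * R) := by ring
          _ = x * (R * R) := by rw [hss]
      rw [h2, hdx]
      apply mul_le_mul_of_nonneg_left _ (by linarith)
      exact mul_le_mul_of_nonneg_right hLR (by linarith)
    exact Real.sqrt_le_iff.2 ⟨by positivity, h1⟩
  have hS : C * (R + √d) + 1 ≤ 3 * C * √x * R := by
    have h1 : 1 ≤ C * √x * R := by
      have : 1 ≤ C * √x := one_le_mul_of_one_le_of_one_le hC hs1
      exact one_le_mul_of_one_le_of_one_le this hR
    have h2 : C * R ≤ C * √x * R := by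
      have : C * R * 1 ≤ C * R * √x := mul_le_mul_of_nonneg_left hs1 (by positivity)
      linarith
    have h3 : C * √d ≤ C * (√x * R) := mul_le_mul_of_nonneg_left hsd (by linarith)
    nlinarith
  have hS0 : 0 < C * (R + √d) + 1 := by positivity
  have hexp : √x * L / (54 * C) ≤ d / 2 / (9 * (C * (R + √d) + 1)) := by
    rw [div_div, div_le_div_iff₀ (by positivity) (by positivity)]
    calc √x * L * (2 * (9 * (C * (R + √d) + 1))) ≤ √x * L * (2 * (9 * (3 * C * √x * R))) := by
          gcongr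
      _ = (√x * √x) * (L * R) * (54 * C) := by ring
      _ = d * (54 * C) := by rw [hss, hdx]
  have hab : (L + √x) / (108 * C) ≤ √x * L / (54 * C) := by
    rw [div_le_div_iff₀ (by positivity) (by positivity)]
    have : L + √x ≤ 2 * (√x * L) := by nlinarith
    nlinarith
  have h1 : Real.exp (-(d / 2 / (9 * (C * (R + √d) + 1)))) ≤
      Real.exp (-(1 / (108 * C) * L)) * Real.exp (-(√x / (108 * C))) := by
    rw [← Real.exp_add, Real.exp_le_exp]
    have h2 := hab.trans hexp
    have h3 : (L + √x) / (108 * C) = 1 / (108 * C) * L + √x / (108 * C) := by ring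
    rw [h3] at h2
    linarith
  have h2 : Real.exp (-(√x / (108 * C))) ≤ 24 * (108 * C) ^ 4 * (1 / x ^ 2) := by
    have hu : 0 < √x / (108 * C) := by positivity
    have h3 := Real.pow_div_factorial_le_exp (√x / (108 * C)) hu.le 4
    have h4 : (Nat.factorial 4 : ℝ) = 24 := by norm_num [Nat.factorial]
    rw [h4] at h3
    rw [Real.exp_neg]
    have h5 : (√x / (108 * C)) ^ 4 / 24 = x ^ 2 / (24 * (108 * C) ^ 4) := by
      rw [div_pow, div_div]
      have h6 : √x ^ 4 = x ^ 2 := by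
        calc √x ^ 4 = (√x * √x) ^ 2 := by ring
          _ = x ^ 2 := by rw [hss]
      rw [h6]
      congr 1
      ring
    rw [h5] at h3
    have h6 : 24 * (108 * C) ^ 4 * (1 / x ^ 2) = (x ^ 2 / (24 * (108 * C) ^ 4))⁻¹ := by
      rw [inv_div]
      ring
    rw [h6]
    exact inv_anti₀ (by positivity) h3
  calc Real.exp (-(d / 2 / (9 * (C * (R + √d) + 1)))) ≤
      Real.exp (-(1 / (108 * C) * L)) * Real.exp (-(√x / (108 * C))) := h1
    _ ≤ Real.exp (-(1 / (108 * C) * L)) * (24 * (108 * C) ^ 4 * (1 / x ^ 2)) := by gcongr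
    _ = _ := by rw [← hx]; ring

/-- dyadic decomposition -/
theorem dya {ι : Type} [Fintype ι] (s : Finset ι) (x : ι → ℝ) (A : ℝ) (hA : 0 ≤ A)
    (hs : ∀ y ∈ s, 1 < x y)
    (hc : ∀ r : ℝ, 1 ≤ r → ((univ.filter fun y => x y ≤ r).card : ℝ) ≤ A * r) :
    ∑ y ∈ s, 1 / (x y) ^ 2 ≤ 4 * A := by
  obtain ⟨n, hn⟩ : ∃ n : ℕ, ∀ y, x y < 2 ^ n := by
    have h1 : ∀ y, ∃ n : ℕ, x y < 2 ^ n := fun y => pow_unbounded_of_one_lt _ one_lt_two
    choose f hf using h1
    refine ⟨∑ y, f y, fun y => lt_of_lt_of_le (hf y) ?_⟩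
    exact pow_le_pow_right₀ one_le_two (Finset.single_le_sum (f := f) (fun _ _ => Nat.zero_le _)
      (mem_univ y))
  have h2 : ∀ y ∈ s, 1 / (x y) ^ 2 ≤
      ∑ i ∈ range n, if x y ≤ 2 ^ (i + 1) then (1 / 4 : ℝ) ^ i else 0 := by
    intro y hy
    obtain ⟨i, hi1, hi2⟩ := exists_nat_pow_near (hs y hy).le (one_lt_two : (1 : ℝ) < 2)
    have hin : i ∈ range n := by
      rw [mem_range]
      by_contra hcon
      have h3 : (2 : ℝ) ^ n ≤ 2 ^ i := pow_le_pow_right₀ one_le_two (not_lt.1 hcon)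
      linarith [hn y]
    have h3 : 1 / (x y) ^ 2 ≤ (1 / 4 : ℝ) ^ i := by
      have h4 : (1 / 4 : ℝ) ^ i = 1 / ((2 : ℝ) ^ i) ^ 2 := by
        rw [one_div_pow, ← pow_mul, mul_comm, pow_mul]
        norm_num
      rw [h4]
      exact one_div_le_one_div_of_le (by positivity) (pow_le_pow_left₀ (by positivity) hi1 2)
    refine h3.trans ?_
    have h5 := Finset.single_le_sum (f := fun i => if x y ≤ 2 ^ (i + 1) then (1 / 4 : ℝ) ^ i else 0)
      (fun i _ => by split_ifs <;> positivity) hin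
    simp only [if_pos hi2.le] at h5
    exact h5
  calc ∑ y ∈ s, 1 / (x y) ^ 2
      ≤ ∑ y ∈ s, ∑ i ∈ range n, (if x y ≤ 2 ^ (i + 1) then (1 / 4 : ℝ) ^ i else 0) :=
        Finset.sum_le_sum h2
    _ ≤ ∑ y, ∑ i ∈ range n, (if x y ≤ 2 ^ (i + 1) then (1 / 4 : ℝ) ^ i else 0) :=
        Finset.sum_le_univ_sum_of_nonneg fun y => Finset.sum_nonneg fun i _ => by
          split_ifs <;> positivity
    _ = ∑ i ∈ range n, ((univ.filter fun y => x y ≤ 2 ^ (i + 1)).card : ℝ) * (1 / 4 : ℝ) ^ i := by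
        rw [Finset.sum_comm]
        refine Finset.sum_congr rfl fun i _ => ?_
        rw [← Finset.sum_filter, Finset.sum_const, nsmul_eq_mul]
    _ ≤ ∑ i ∈ range n, (A * 2 ^ (i + 1)) * (1 / 4 : ℝ) ^ i := by
        refine Finset.sum_le_sum fun i _ => ?_
        exact mul_le_mul_of_nonneg_right (hc _ (one_le_pow₀ one_le_two)) (by positivity)
    _ = 2 * A * ∑ i ∈ range n, (1 / 2 : ℝ) ^ i := by
        rw [Finset.mul_sum]
        refine Finset.sum_congr rfl fun i _ => ?_
        have : (2 : ℝ) ^ (i + 1) * (1 / 4 : ℝ) ^ i = 2 * (1 / 2 : ℝ) ^ i := by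
          rw [pow_succ, mul_comm ((2 : ℝ) ^ i) 2, mul_assoc, ← mul_pow]
          norm_num
        rw [mul_assoc, this]
        ring
    _ ≤ 2 * A * 2 := by
        apply mul_le_mul_of_nonneg_left _ (by positivity)
        exact sum_geometric_two_le n
    _ = 4 * A := by ring

theorem t_VIS : P_VIS := by
  intro c C hFl
  obtain ⟨hc0, hc12, hC1, hF⟩ := hFl
  have hC0 : 0 < C := by linarith
  refine ⟨17 * (24 * (108 * C) ^ 4) * (4 * C), 1 / (108 * C), ?_, by positivity, ?_⟩
  · have h1 : (1 : ℝ) ≤ (108 * C) ^ 4 := one_le_pow₀ (by linarith)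
    nlinarith
  intro α _ _ M hStd R hR hH L hL hLR a
  obtain ⟨hT, hN⟩ := hF α M hStd R hR hH
  have hR1 : 1 ≤ R := by
    have : 1 ≤ 1 / c := by rw [le_div_iff₀ hc0]; linarith
    linarith
  have hLR0 : 0 < L * R := by positivity
  have h1 : ∀ y ∈ univ.filter (fun y : α => L * R < |hh M y - hh M a|),
      pr α M (fun f => |hh M y - hh M a| / 2 ≤ |dd M a y f - (hh M y - hh M a)|) ≤
      17 * (24 * (108 * C) ^ 4) * Real.exp (-(1 / (108 * C) * L)) *
        (1 / (|hh M y - hh M a| / (L * R)) ^ 2) := by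
    intro y hy
    rw [mem_filter] at hy
    have h2 := hStd.tail a y (hh M y - hh M a) (C * (R + √|hh M y - hh M a|))
      (|hh M y - hh M a| / 2) (hT a y)
    refine h2.trans ?_
    have h3 := num C R L _ hC1 hR1 hL hLR hy.2
    calc 17 * Real.exp (-(|hh M y - hh M a| / 2 / (9 * (C * (R + √|hh M y - hh M a|) + 1))))
        ≤ 17 * (24 * (108 * C) ^ 4 * Real.exp (-(1 / (108 * C) * L)) *
          (1 / (|hh M y - hh M a| / (L * R)) ^ 2)) := by gcongr
      _ = _ := by ring
  refine (Finset.sum_le_sum h1).trans ?_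
  rw [← Finset.mul_sum]
  have h2 : ∑ y ∈ univ.filter (fun y : α => L * R < |hh M y - hh M a|),
      1 / (|hh M y - hh M a| / (L * R)) ^ 2 ≤ 4 * (C * (L * R)) := by
    apply dya _ (fun y => |hh M y - hh M a| / (L * R)) (C * (L * R)) (by positivity)
    · intro y hy
      rw [mem_filter] at hy
      show 1 < |hh M y - hh M a| / (L * R)
      rw [one_lt_div hLR0]
      exact hy.2
    · intro r hr
      have h3 : R ≤ r * (L * R) := by
        have : 1 ≤ r * L := one_le_mul_of_one_le_of_one_le hr hL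
        nlinarith
      have h4 := hN a (r * (L * R)) h3
      have h5 : (univ.filter fun y : α => |hh M y - hh M a| / (L * R) ≤ r) =
          univ.filter fun y : α => |hh M y - hh M a| ≤ r * (L * R) := by
        ext y
        simp only [mem_filter, mem_univ, true_and]
        rw [div_le_iff₀ hLR0]
      rw [h5]
      refine h4.trans (le_of_eq ?_)
      ring
  calc 17 * (24 * (108 * C) ^ 4) * Real.exp (-(1 / (108 * C) * L)) *
      ∑ y ∈ univ.filter (fun y : α => L * R < |hh M y - hh M a|),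
        1 / (|hh M y - hh M a| / (L * R)) ^ 2
      ≤ 17 * (24 * (108 * C) ^ 4) * Real.exp (-(1 / (108 * C) * L)) * (4 * (C * (L * R))) := by
        gcongr
    _ = _ := by ring

end Pool.Agent.TH740.KS_VIS
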