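import Pool.Agent.TH740.DW.Lin

/-!
# Job 2113 (DW-15): moduli of a one-line trigonometric polynomial on the torus and on the circle
-/

set_option autoImplicit false

open MeasureTheory Complex Filter Topology Set
open scoped ENNReal Real
open Pool.Agent.TH281.DW Pool.Agent.TH740.DW

namespace Pool.Agent.TH740.J2113

theorem main : Pool.Agent.TH281.DW.TaskTr1 := by
  intro d hd m F hF
  refine ⟨fun x => ?_, fun c c' Φ hΦ => ?_⟩
  · obtain ⟨X, rfl⟩ := toT_surj x
    refine ⟨Int.fract ((d 0 : ℝ) * X 0 + (d 1 : ℝ) * X 1),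
      ⟨Int.fract_nonneg _, (Int.fract_lt_one _).le⟩, fun c => ?_⟩
    rw [norm_tr_toT hd hF]
    have h := (norm_yv_periodic hd hF c).sub_int_mul_eq
      ⌊(d 0 : ℝ) * X 0 + (d 1 : ℝ) * X 1⌋ (x := (d 0 : ℝ) * X 0 + (d 1 : ℝ) * X 1)
    rw [mul_one] at h
    exact h.symm
  · have hp := norm_yv_periodic hd hF c
    have hp' := norm_yv_periodic hd hF c'
    have hpp : Function.Periodic (fun s => (‖yv F c d s‖, ‖yv F c' d s‖)) 1 := fun s =>
      Prod.ext (hp s) (hp' s)
    set g : UnitAddCircle → ℝ × ℝ := hpp.lift with hg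
    have hgc : Continuous g := by
      refine continuous_quot_lift _ ?_
      exact ((continuous_yv F c d).norm).prodMk ((continuous_yv F c' d).norm)
    have h1 : ∀ x : Torus, Φ (‖tr F c x‖, ‖tr F c' x‖) = Φ (g (lin d x)) := by
      intro x
      obtain ⟨X, rfl⟩ := toT_surj x
      rw [lin_toT, norm_tr_toT hd hF, norm_tr_toT hd hF]
      rfl
    simp only [h1]
    rw [transfer hd (fun y => Φ (g y)) (hΦ.comp hgc.measurable).aestronglyMeasurable]
    rfl

end Pool.Agent.TH740.J2113
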