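import Pool.Agent.TH740.DW.Shift

/-!
# Job 2114 (DW-16): pairings on the torus and on the circle
-/

set_option autoImplicit false

open MeasureTheory Complex Filter Topology Set
open scoped ENNReal Real
open Pool.Agent.TH281.DW Pool.Agent.TH740.DW

namespace Pool.Agent.TH740.J2114

theorem main : Pool.Agent.TH281.DW.TaskTr2 := by
  intro d hd θ hθ hper
  have hP : Function.Periodic θ 1 := hper
  set Θ' : UnitAddCircle → ℝ := hP.lift with hΘ'
  have hΘc : Continuous Θ' := continuous_quot_lift _ hθ
  refine ⟨fun x => Θ' (lin d x), hΘc.comp (continuous_lin d), fun x => ?_, ?_⟩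
  · obtain ⟨X, rfl⟩ := toT_surj x
    refine ⟨Int.fract ((d 0 : ℝ) * X 0 + (d 1 : ℝ) * X 1),
      ⟨Int.fract_nonneg _, (Int.fract_lt_one _).le⟩, ?_⟩
    beta_reduce
    rw [lin_toT]
    have h := hP.sub_int_mul_eq
      ⌊(d 0 : ℝ) * X 0 + (d 1 : ℝ) * X 1⌋ (x := (d 0 : ℝ) * X 0 + (d 1 : ℝ) * X 1)
    rw [mul_one] at h
    exact h.symm
  · intro m F G c g hF
    have hct : Continuous fun x : Torus =>
        (starRingEnd ℂ) (((Θ' (lin d x) : ℝ) : ℂ) * tr F c x) :=
      Complex.continuous_conj.comp
        ((Complex.continuous_ofReal.comp (hΘc.comp (continuous_lin d))).mul (continuous_tr F c))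
    -- the frequencies off the line do not contribute
    have hoff : ∀ k : Z2, cr k d ≠ m →
        ∫ x, E k x * (starRingEnd ℂ) (((Θ' (lin d x) : ℝ) : ℂ) * tr F c x) ∂tmu = 0 := by
      intro k hk
      have hkm : ((cr k d : ℝ) - (m : ℝ)) ≠ 0 := by
        rw [sub_ne_zero]; exact_mod_cast hk
      set t : ℝ := 1 / (2 * ((cr k d : ℝ) - (m : ℝ))) with ht
      have h1 := Pool.Agent.TH281.DW.integral_add_right
        (fun x => E k x * (starRingEnd ℂ) (((Θ' (lin d x) : ℝ) : ℂ) * tr F c x)) (sh d t)
      have h2 : ∀ x, E k (x + sh d t) * (starRingEnd ℂ)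
          (((Θ' (lin d (x + sh d t)) : ℝ) : ℂ) * tr F c (x + sh d t)) =
          -(E k x * (starRingEnd ℂ) (((Θ' (lin d x) : ℝ) : ℂ) * tr F c x)) := by
        intro x
        rw [map_add, lin_sh, add_zero, E_add, E_sh, tr_sh hF]
        have h3 : cexp (2 * π * I * ((cr k d : ℝ) * t : ℝ)) *
            (starRingEnd ℂ) (cexp (2 * π * I * ((m : ℝ) * t : ℝ))) = -1 := by
          rw [← Complex.exp_conj, ← Complex.exp_add]
          rw [show (2 * π * I * (((cr k d : ℝ) * t : ℝ) : ℂ) +
            (starRingEnd ℂ) (2 * π * I * (((m : ℝ) * t : ℝ) : ℂ))) =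
              2 * π * I * ((((cr k d : ℝ) - m) * t : ℝ) : ℂ) by
              simp only [map_mul, Complex.conj_ofReal, Complex.conj_I]
              rw [show (starRingEnd ℂ) 2 = 2 from Complex.conj_ofNat 2]
              push_cast; ring]
          rw [show ((cr k d : ℝ) - m) * t = 1 / 2 by rw [ht]; field_simp]
          rw [show (2 * π * I * ((1 / 2 : ℝ) : ℂ)) = π * I by push_cast; ring]
          exact Complex.exp_pi_mul_I
        rw [map_mul, map_mul, map_mul]
        linear_combination (E k x * ((starRingEnd ℂ) ((Θ' (lin d x) : ℝ) : ℂ) *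
          (starRingEnd ℂ) (tr F c x))) * h3
      simp only [h2] at h1
      rw [MeasureTheory.integral_neg] at h1
      linear_combination (-1 / 2 : ℂ) * h1
    have hsplit : ∫ x, tr G g x * (starRingEnd ℂ) (((Θ' (lin d x) : ℝ) : ℂ) * tr F c x) ∂tmu =
        ∫ x, tr (G.filter (fun k => cr k d = m)) g x *
          (starRingEnd ℂ) (((Θ' (lin d x) : ℝ) : ℂ) * tr F c x) ∂tmu := by
      have hexp : ∀ H : Finset Z2,
          ∫ x, tr H g x * (starRingEnd ℂ) (((Θ' (lin d x) : ℝ) : ℂ) * tr F c x) ∂tmu =
          ∑ k ∈ H, g k *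
            ∫ x, E k x * (starRingEnd ℂ) (((Θ' (lin d x) : ℝ) : ℂ) * tr F c x) ∂tmu := by
        intro H
        unfold tr
        simp only [Finset.sum_mul, mul_assoc]
        rw [integral_finsetSum]
        · refine Finset.sum_congr rfl fun k _ => ?_
          rw [← integral_const_mul]
        · intro k _
          exact int_cont (continuous_const.mul ((continuous_E k).mul hct))
      rw [hexp, hexp, Finset.sum_filter]
      refine Finset.sum_congr rfl fun k _ => ?_
      split_ifs with hk
      · rfl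
      · rw [hoff k hk, mul_zero]
    rw [hsplit]
    set G' := G.filter (fun k => cr k d = m) with hG'
    have hG : ∀ k ∈ G', cr k d = m := fun k hk => (Finset.mem_filter.1 hk).2
    -- the product is a function on the circle
    have hQ : Function.Periodic (fun s : ℝ => yv G' g d s *
        (starRingEnd ℂ) ((θ s : ℂ) * yv F c d s)) 1 := by
      intro s
      have hFG : ∀ k ∈ G' ∪ F, cr k d = m := by
        intro k hk
        rcases Finset.mem_union.1 hk with h | h
        · exact hG k h
        · exact hF k h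
      obtain ⟨ω, hω, h⟩ := yv_add_one hd hFG
      have e1 : ∀ s, yv G' g d s = yv (G' ∪ F) (fun k => if k ∈ G' then g k else 0) d s := by
        intro s
        unfold yv
        rw [← Finset.sum_subset (Finset.subset_union_left : G' ⊆ G' ∪ F)]
        · refine Finset.sum_congr rfl fun k hk => by beta_reduce; rw [if_pos hk]
        · intro k _ hk; beta_reduce; rw [if_neg hk, zero_mul]
      have e2 : ∀ s, yv F c d s = yv (G' ∪ F) (fun k => if k ∈ F then c k else 0) d s := by
        intro s
        unfold yv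
        rw [← Finset.sum_subset (Finset.subset_union_right : F ⊆ G' ∪ F)]
        · refine Finset.sum_congr rfl fun k hk => by beta_reduce; rw [if_pos hk]
        · intro k _ hk; beta_reduce; rw [if_neg hk, zero_mul]
      have h3 : ω * (starRingEnd ℂ) ω = 1 := by
        rw [Complex.mul_conj, Complex.normSq_eq_norm_sq, hω]; simp
      simp only [e1, e2, h, hper, map_mul]
      linear_combination (yv (G' ∪ F) (fun k => if k ∈ G' then g k else 0) d s *
        ((starRingEnd ℂ) (θ s : ℂ) *
          (starRingEnd ℂ) (yv (G' ∪ F) (fun k => if k ∈ F then c k else 0) d s))) * h3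
    have hQc : Continuous hQ.lift := by
      refine continuous_quot_lift _ ?_
      exact (continuous_yv G' g d).mul (Complex.continuous_conj.comp
        ((Complex.continuous_ofReal.comp hθ).mul (continuous_yv F c d)))
    have h1 : ∀ x : Torus, tr G' g x * (starRingEnd ℂ) (((Θ' (lin d x) : ℝ) : ℂ) * tr F c x) =
        hQ.lift (lin d x) := by
      intro x
      obtain ⟨X, rfl⟩ := toT_surj x
      rw [lin_toT, tr_toT hd hG, tr_toT hd hF]
      change _ * (starRingEnd ℂ) (((θ ((d 0 : ℝ) * X 0 + (d 1 : ℝ) * X 1) : ℝ) : ℂ) * _) =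
        yv G' g d ((d 0 : ℝ) * X 0 + (d 1 : ℝ) * X 1) * (starRingEnd ℂ)
          ((θ ((d 0 : ℝ) * X 0 + (d 1 : ℝ) * X 1) : ℂ) *
            yv F c d ((d 0 : ℝ) * X 0 + (d 1 : ℝ) * X 1))
      set e := cexp (2 * π * I * ((m : ℝ) * (X 0 * d 1 - X 1 * d 0) / (fq d : ℝ) : ℝ)) with he
      have h3 : e * (starRingEnd ℂ) e = 1 := by
        rw [Complex.mul_conj, Complex.normSq_eq_norm_sq, he, norm_e]; simp
      simp only [map_mul]
      linear_combination (yv G' g d ((d 0 : ℝ) * X 0 + (d 1 : ℝ) * X 1) *
        ((starRingEnd ℂ) ((θ ((d 0 : ℝ) * X 0 + (d 1 : ℝ) * X 1) : ℝ) : ℂ) *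
          (starRingEnd ℂ) (yv F c d ((d 0 : ℝ) * X 0 + (d 1 : ℝ) * X 1)))) * h3
    simp only [h1]
    rw [transfer hd hQ.lift hQc.measurable.aestronglyMeasurable]
    rfl

end Pool.Agent.TH740.J2114
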