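import Pool.Agent.TH740.DW.Avg

/-!
# Job 2115 (DW-17): one-dimensional cut-offs controlled by `χ`
-/

set_option autoImplicit false

open MeasureTheory Complex Filter Topology Set
open scoped ENNReal Real ContDiff
open Pool.Agent.TH281.DW Pool.Agent.TH740.DW

namespace Pool.Agent.TH740.J2115

noncomputable section

theorem deriv_periodic {f : ℝ → ℝ} (hf : ∀ s, f (s + 1) = f s) (s : ℝ) :
    deriv f (s + 1) = deriv f s := by
  rw [← deriv_comp_add_const]
  congr 1
  funext t
  exact hf t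

/-- periodic bumps concentrated near `s₀` -/
theorem exists_bump (s0 r : ℝ) (hr : 0 < r) (hr2 : r < 1 / 2) :
    ∃ a θ θ1 θ2 : ℝ → ℝ, (∀ s, HasDerivAt a (1 - θ s) s) ∧
      (∀ s, HasDerivAt θ (θ1 s) s) ∧ (∀ s, HasDerivAt θ1 (θ2 s) s) ∧ Continuous θ2 ∧
      (∀ s, a (s + 1) = a s) ∧ (∀ s, θ (s + 1) = θ s) ∧ (∀ s, θ1 (s + 1) = θ1 s) ∧
      (∀ s, 0 ≤ θ s) ∧ ∫ s in (0 : ℝ)..1, θ s = 1 ∧ (∀ s, θ2 (s + 1) = θ2 s) ∧
      ∀ s, |s - s0| ≤ 1 / 2 → r < |s - s0| → θ s = 0 ∧ θ2 s = 0 := by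
  set u : ℝ → ℝ := fun s => Real.cos (2 * π * (s - s0)) - Real.cos (2 * π * r) with hu
  have hus : ContDiff ℝ ∞ u := by
    rw [hu]; fun_prop
  set h : ℝ → ℝ := fun s => expNegInvGlue (u s) with hh
  have hhs : ContDiff ℝ ∞ h := expNegInvGlue.contDiff.comp hus
  have hup : ∀ s, u (s + 1) = u s := by
    intro s
    simp only [hu]
    rw [show 2 * π * (s + 1 - s0) = 2 * π * (s - s0) + 2 * π by ring, Real.cos_add_two_pi]
  have hhp : ∀ s, h (s + 1) = h s := fun s => by simp only [hh, hup]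
  have hh0 : ∀ s, 0 ≤ h s := fun s => expNegInvGlue.nonneg _
  have hcos : Real.cos (2 * π * r) < 1 := by
    have := Real.cos_lt_cos_of_nonneg_of_le_pi (x := 0) (y := 2 * π * r) le_rfl
      (by nlinarith [Real.pi_pos]) (by positivity)
    rwa [Real.cos_zero] at this
  have hhs0 : 0 < h s0 := by
    refine expNegInvGlue.pos_of_pos ?_
    simp only [hu, sub_self, mul_zero, Real.cos_zero]
    linarith
  set Z : ℝ := ∫ s in (0 : ℝ)..1, h s with hZ
  have hZpos : 0 < Z := by
    have h1 : Z = ∫ s in s0..(s0 + 1), h s := by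
      have hp : Function.Periodic h 1 := hhp
      have := hp.intervalIntegral_add_eq 0 s0
      rw [zero_add] at this
      exact this
    rw [h1]
    exact intervalIntegral.integral_pos (by linarith) hhs.continuous.continuousOn
      (fun t _ => hh0 t) ⟨s0, by simp, hhs0⟩
  set θ : ℝ → ℝ := fun s => h s / Z with hθ
  have hθs : ContDiff ℝ ∞ θ := hhs.div_const Z
  have hθ1s : ContDiff ℝ ∞ (deriv θ) := (contDiff_infty_iff_deriv.1 hθs).2
  have hθ2s : ContDiff ℝ ∞ (deriv (deriv θ)) := (contDiff_infty_iff_deriv.1 hθ1s).2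
  have hθp : ∀ s, θ (s + 1) = θ s := fun s => by simp only [hθ, hhp]
  have hθ1p := deriv_periodic hθp
  have hθ2p := deriv_periodic hθ1p
  have hθi : ∫ s in (0 : ℝ)..1, θ s = 1 := by
    simp only [hθ]
    rw [intervalIntegral.integral_div, ← hZ, div_self hZpos.ne']
  refine ⟨fun s => s - ∫ t in (0 : ℝ)..s, θ t, θ, deriv θ, deriv (deriv θ), fun s => ?_,
    fun s => ((contDiff_infty_iff_deriv.1 hθs).1 s).hasDerivAt,
    fun s => ((contDiff_infty_iff_deriv.1 hθ1s).1 s).hasDerivAt, hθ2s.continuous,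
    fun s => ?_, hθp, hθ1p, fun s => div_nonneg (hh0 s) hZpos.le, hθi, hθ2p, ?_⟩
  · exact (hasDerivAt_id s).sub (hθs.continuous.integral_hasStrictDerivAt 0 s).hasDerivAt
  · have hc : ∀ a b : ℝ, IntervalIntegrable θ volume a b := fun a b =>
      hθs.continuous.intervalIntegrable a b
    have h1 := intervalIntegral.integral_add_adjacent_intervals (hc 0 s) (hc s (s + 1))
    have hp : Function.Periodic θ 1 := hθp
    have h2 := hp.intervalIntegral_add_eq s 0
    rw [zero_add] at h2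
    rw [h2, hθi] at h1
    beta_reduce
    rw [← h1]; ring
  · -- vanishing outside the arc
    intro s hs1 hs2
    have huneg : u s < 0 := by
      simp only [hu]
      have h1 : Real.cos (2 * π * (s - s0)) = Real.cos (2 * π * |s - s0|) := by
        rw [← Real.cos_abs, abs_mul, abs_of_pos (by positivity : (0 : ℝ) < 2 * π)]
      rw [h1, sub_neg]
      exact Real.cos_lt_cos_of_nonneg_of_le_pi (by positivity)
        (by nlinarith [Real.pi_pos]) (by
          exact mul_lt_mul_of_pos_left hs2 (by positivity))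
    have hev : ∀ᶠ t in 𝓝 s, u t < 0 :=
      (hus.continuous.continuousAt).eventually_lt continuousAt_const huneg
    have hθev : θ =ᶠ[𝓝 s] fun _ => 0 := by
      filter_upwards [hev] with t ht
      simp only [hθ, hh]
      rw [expNegInvGlue.zero_of_nonpos ht.le, zero_div]
    refine ⟨hθev.self_of_nhds, ?_⟩
    have h1 : deriv θ =ᶠ[𝓝 s] fun _ => 0 := by
      have := hθev.deriv
      simpa using this
    have h2 := h1.deriv_eq
    rw [h2]; simp

theorem main : Pool.Agent.TH281.DW.TaskBump := by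
  intro d hd χ hχ h0 hpos
  -- a point where `χ` is positive
  obtain ⟨x0, hx0⟩ : ∃ x0, 0 < χ x0 := by
    by_contra hcon
    push Not at hcon
    have : ∫ x, χ x ∂tmu = 0 := by
      have h1 : ∀ x, χ x = 0 := fun x => le_antisymm (hcon x) (h0 x)
      simp [h1]
    linarith
  obtain ⟨s0, hs0⟩ : ∃ s0 : ℝ, (s0 : UnitAddCircle) = lin d x0 :=
    QuotientAddGroup.mk_surjective _
  set sec : ℝ → Torus := fun s => toT (fun i => s * (d i : ℝ) / (fq d : ℝ)) with hsec
  have hsecc : Continuous sec := by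
    rw [hsec]
    refine continuous_toT.comp (continuous_pi fun i => ?_)
    fun_prop
  have hsecl : ∀ s : ℝ, lin d (sec s) = (s : UnitAddCircle) := fun s => lin_section hd s
  set X := av d χ with hX
  have hXc : Continuous X := continuous_av d hχ
  have hX0 : ∀ x, 0 ≤ X x := av_nonneg d h0
  have hXp : 0 < X (sec s0) := by
    rw [hX, av_lin hd χ (x' := x0) (by rw [hsecl, hs0])]
    exact av_pos d hχ h0 hx0
  set c : ℝ := X (sec s0) / 2 with hc
  have hcpos : 0 < c := by positivity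
  obtain ⟨r, hr, hr2, hrX⟩ : ∃ r : ℝ, 0 < r ∧ r < 1 / 2 ∧ ∀ s, |s - s0| ≤ r →
      c ≤ X (sec s) := by
    have hev : ∀ᶠ s in 𝓝 s0, c < X (sec s) :=
      continuousAt_const.eventually_lt (hXc.comp hsecc).continuousAt (by
        change c < X (sec s0); rw [hc]; linarith)
    obtain ⟨ε, hε, hball⟩ := Metric.eventually_nhds_iff.1 hev
    refine ⟨min (ε / 2) (1 / 4), by positivity, ?_, fun s hs => ?_⟩
    · exact (min_le_right _ _).trans_lt (by norm_num)
    · refine (hball ?_).le
      rw [Real.dist_eq]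
      exact (hs.trans (min_le_left _ _)).trans_lt (by linarith)
  obtain ⟨a, θ, θ1, θ2, ha, hθ, hθ1, hθ2c, hap, hθp, hθ1p, hθ0, hθi, hθ2p, hvan⟩ :=
    exists_bump s0 r hr hr2
  refine ⟨a, θ, θ1, θ2, ha, hθ, hθ1, hθ2c, hap, hθp, hθ1p, hθ0, hθi, ?_⟩
  have hθc : Continuous θ := continuous_iff_continuousAt.2 fun s => (hθ s).continuousAt
  set Ψ : ℝ → ℝ := fun s => θ s + |θ2 s| with hΨ
  have hΨc : Continuous Ψ := hθc.add hθ2c.abs
  have hΨp : ∀ s, Ψ (s + 1) = Ψ s := fun s => by simp only [hΨ, hθp, hθ2p]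
  have hΨp' : Function.Periodic Ψ 1 := hΨp
  have hΨ0 : ∀ s, 0 ≤ Ψ s := fun s => add_nonneg (hθ0 s) (abs_nonneg _)
  obtain ⟨C0, hC0⟩ := isCompact_Icc.exists_bound_of_continuousOn (f := Ψ)
    (s := Icc (s0 - 1 / 2) (s0 + 1 / 2)) hΨc.continuousOn
  have hC00 : 0 ≤ C0 := (norm_nonneg _).trans (hC0 s0 ⟨by linarith, by linarith⟩)
  set C : ℝ := C0 / c + 1 with hC
  have hCpos : 0 < C := by positivity
  -- the pointwise bound
  have hbd : ∀ (x : Torus) (s : ℝ), (s : UnitAddCircle) = lin d x → Ψ s ≤ C * X x := by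
    intro x s hs
    set n := round (s - s0) with hn
    have h1 : Ψ s = Ψ (s - n) := by
      have := hΨp'.sub_int_mul_eq n (x := s)
      rw [mul_one] at this
      exact this.symm
    have hs' : |s - n - s0| ≤ 1 / 2 := by
      rw [show s - n - s0 = (s - s0) - n by ring]
      exact abs_sub_round _
    have hl : lin d (sec (s - n)) = lin d x := by
      rw [hsecl, ← hs]
      rw [AddCircle.coe_sub, sub_eq_self, AddCircle.coe_eq_zero_iff]
      exact ⟨n, by simp⟩
    rw [h1]
    rcases le_or_gt |s - n - s0| r with hle | hgt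
    · have h2 : c ≤ X x := by
        rw [hX, ← av_lin hd χ hl]
        exact hrX _ hle
      have h3 : Ψ (s - n) ≤ C0 := by
        refine (le_abs_self _).trans ?_
        refine hC0 _ ?_
        rw [abs_le] at hs'
        exact ⟨by linarith [hs'.1], by linarith [hs'.2]⟩
      calc Ψ (s - n) ≤ C0 := h3
        _ = C0 / c * c := by field_simp
        _ ≤ C0 / c * X x := by gcongr
        _ ≤ C * X x := by
          rw [hC, add_mul, one_mul]; linarith [hX0 x]
    · obtain ⟨h2, h3⟩ := hvan (s - n) hs' hgt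
      have : Ψ (s - n) = 0 := by simp only [hΨ, h2, h3, abs_zero, add_zero]
      rw [this]
      exact mul_nonneg hCpos.le (hX0 x)
  refine ⟨C, hCpos, fun m F cc hF => ?_⟩
  have hyp := norm_yv_periodic hd hF cc
  have hper : Function.Periodic (fun s => Ψ s * ‖yv F cc d s‖ ^ 2) 1 := by
    intro s
    have h1 := hyp s
    simp only at h1
    simp only [hΨp, h1]
  have hlc : Continuous hper.lift := by
    refine continuous_quot_lift _ ?_
    exact hΨc.mul ((continuous_yv F cc d).norm.pow 2)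
  have h1 := transfer hd hper.lift hlc.aestronglyMeasurable
  have h2 : ∫ s in (0 : ℝ)..1, (θ s + |θ2 s|) * ‖yv F cc d s‖ ^ 2 =
      ∫ x, hper.lift (lin d x) ∂tmu := h1.symm
  rw [h2]
  have hft : Continuous fun x : Torus => ‖tr F cc x‖ ^ 2 := (continuous_tr F cc).norm.pow 2
  rw [← integral_av d hχ hft (fun x t => by rw [norm_tr_sh hF]), ← integral_const_mul]
  refine integral_mono (int_cont (hlc.comp (continuous_lin d)))
    (int_cont (continuous_const.mul ((continuous_av d hχ).mul hft))) ?_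
  intro x
  obtain ⟨Y, rfl⟩ := toT_surj x
  beta_reduce
  rw [norm_tr_toT hd hF]
  have hlin := lin_toT d Y
  rw [hlin]
  have h3 : hper.lift (((d 0 : ℝ) * Y 0 + (d 1 : ℝ) * Y 1 : ℝ) : UnitAddCircle) =
      Ψ ((d 0 : ℝ) * Y 0 + (d 1 : ℝ) * Y 1) * ‖yv F cc d ((d 0 : ℝ) * Y 0 + (d 1 : ℝ) * Y 1)‖ ^ 2 :=
    rfl
  rw [h3, ← mul_assoc]
  exact mul_le_mul_of_nonneg_right (hbd _ _ hlin.symm) (by positivity)

end

end Pool.Agent.TH740.J2115
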