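import Pool.Agent.TH317.CC.Arr

/-! Job 2753 (CC-R2): the ribbon graph of a generic arrangement. -/

set_option autoImplicit false

universe u v w

namespace Pool.Agent.TH317.CC

open Filter Topology

namespace H740R2

theorem det2_map (A : ℝ × ℝ →L[ℝ] ℝ × ℝ) (u v : ℝ × ℝ) :
    det2 (A u) (A v) = A.det * det2 u v := by
  have hA : ∀ w : ℝ × ℝ, A w = w.1 • A (1, 0) + w.2 • A (0, 1) := by
    intro w
    have hw : w = w.1 • ((1, 0) : ℝ × ℝ) + w.2 • ((0, 1) : ℝ × ℝ) := by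
      ext <;> simp
    conv_lhs => rw [hw]
    rw [map_add, map_smul, map_smul]
  have hdet : A.det = (A (1, 0)).1 * (A (0, 1)).2 - (A (0, 1)).1 * (A (1, 0)).2 := by
    show LinearMap.det (A : ℝ × ℝ →ₗ[ℝ] ℝ × ℝ) = _
    rw [← LinearMap.det_toMatrix (Module.Basis.finTwoProd ℝ), Matrix.det_fin_two]
    simp [LinearMap.toMatrix_apply]
  rw [hdet, hA u, hA v]
  unfold det2
  simp only [Prod.fst_add, Prod.snd_add, Prod.smul_fst, Prod.smul_snd, smul_eq_mul]
  ring

section Top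

variable {M : Type u} [TopologicalSpace M] {n : ℕ} (C : BoxCharts M n) (m : ℕ)
  (s : Fin n → Bool → ℝ)

theorem lineC_mem (hm : 1 ≤ m) (hoff : ∀ i o, 0 < s i o ∧ s i o < 1) (l : LineIx n m) :
    0 < lineC m s l ∧ lineC m s l < 1 := by
  have h1 := hoff l.1 l.2.1
  have hm' : (0 : ℝ) < m := by exact_mod_cast hm
  have h2 : ((l.2.2 : ℕ) : ℝ) + 1 ≤ m := by exact_mod_cast l.2.2.2
  have h3 : (0 : ℝ) ≤ ((l.2.2 : ℕ) : ℝ) := Nat.cast_nonneg _
  unfold lineC
  constructor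
  · apply div_pos _ hm'
    linarith
  · rw [div_lt_one hm']
    linarith

theorem lineP_mem (hm : 1 ≤ m) (hoff : ∀ i o, 0 < s i o ∧ s i o < 1) (l : LineIx n m) {t : ℝ}
    (ht : t ∈ Set.Icc (0 : ℝ) 1) : lineP m s l t ∈ (C.e l.1).target := by
  apply C.box
  have h := lineC_mem m s hm hoff l
  unfold lineP I2
  split_ifs
  · exact ⟨⟨h.1.le, ht.1⟩, ⟨h.2.le, ht.2⟩⟩
  · exact ⟨⟨ht.1, h.1.le⟩, ⟨ht.2, h.2.le⟩⟩

theorem line_mem (hm : 1 ≤ m) (hoff : ∀ i o, 0 < s i o ∧ s i o < 1) (l : LineIx n m) {t : ℝ}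
    (ht : t ∈ Set.Icc (0 : ℝ) 1) : line C m s l t ∈ (C.e l.1).source :=
  (C.e l.1).map_target (lineP_mem C m s hm hoff l ht)

theorem line_inj (hm : 1 ≤ m) (hoff : ∀ i o, 0 < s i o ∧ s i o < 1) (l : LineIx n m) {t t' : ℝ}
    (ht : t ∈ Set.Icc (0 : ℝ) 1) (ht' : t' ∈ Set.Icc (0 : ℝ) 1)
    (h : line C m s l t = line C m s l t') : t = t' := by
  have h1 := (C.e l.1).symm.injOn (lineP_mem C m s hm hoff l ht) (lineP_mem C m s hm hoff l ht') h
  unfold lineP at h1
  split_ifs at h1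
  · exact (Prod.ext_iff.1 h1).2
  · exact (Prod.ext_iff.1 h1).1

theorem diffAt (i j : Fin n) {p : ℝ × ℝ} (hp : p ∈ (C.e i).target)
    (hp' : (C.e i).symm p ∈ (C.e j).source) :
    DifferentiableAt ℝ (fun p => C.e j ((C.e i).symm p)) p := by
  have hmem : p ∈ ((C.e i).symm.trans (C.e j)).source := by
    rw [OpenPartialHomeomorph.trans_source]
    exact ⟨hp, hp'⟩
  exact ((C.smooth i j).differentiableOn one_ne_zero).differentiableAt
    (((C.e i).symm.trans (C.e j)).open_source.mem_nhds hmem)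

/-- change of chart for the tangent vectors -/
theorem tanv_chart (l : LineIx n m) {t : ℝ} (hl : lineP m s l t ∈ (C.e l.1).target)
    {i j : Fin n} (hi : line C m s l t ∈ (C.e i).source) (hj : line C m s l t ∈ (C.e j).source) :
    tanv C m s j l t =
      fderiv ℝ (fun p => C.e j ((C.e i).symm p)) (C.e i (line C m s l t)) (tanv C m s i l t) := by
  unfold tanv
  have h1 : (fun p => C.e j ((C.e l.1).symm p)) =ᶠ[𝓝 (lineP m s l t)]
      (fun q => C.e j ((C.e i).symm q)) ∘ (fun p => C.e i ((C.e l.1).symm p)) := by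
    have hopen : IsOpen ((C.e l.1).symm.trans (C.e i)).source :=
      ((C.e l.1).symm.trans (C.e i)).open_source
    have hmem : lineP m s l t ∈ ((C.e l.1).symm.trans (C.e i)).source := by
      rw [OpenPartialHomeomorph.trans_source]
      exact ⟨hl, hi⟩
    filter_upwards [hopen.mem_nhds hmem] with p hp
    rw [OpenPartialHomeomorph.trans_source] at hp
    show C.e j ((C.e l.1).symm p) = C.e j ((C.e i).symm (C.e i ((C.e l.1).symm p)))
    rw [(C.e i).left_inv hp.2]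
  rw [h1.fderiv_eq, fderiv_comp]
  · rfl
  · have h2 : C.e i (line C m s l t) ∈ (C.e i).target := (C.e i).map_source hi
    refine diffAt C i j h2 ?_
    show (C.e i).symm (C.e i (line C m s l t)) ∈ (C.e j).source
    rw [(C.e i).left_inv hi]
    exact hj
  · exact diffAt C l.1 i hl hi

theorem det_chart (l l' : LineIx n m) {t t' : ℝ} (hl : lineP m s l t ∈ (C.e l.1).target)
    (hl' : lineP m s l' t' ∈ (C.e l'.1).target) (h : line C m s l t = line C m s l' t')
    {i j : Fin n} (hi : line C m s l t ∈ (C.e i).source) (hj : line C m s l t ∈ (C.e j).source) :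
    ∃ c : ℝ, 0 < c ∧ det2 (tanv C m s j l t) (tanv C m s j l' t') =
      c * det2 (tanv C m s i l t) (tanv C m s i l' t') := by
  refine ⟨_, C.orient i j (C.e i (line C m s l t)) ?_, ?_⟩
  · rw [OpenPartialHomeomorph.trans_source]
    refine ⟨(C.e i).map_source hi, ?_⟩
    show (C.e i).symm (C.e i (line C m s l t)) ∈ (C.e j).source
    rw [(C.e i).left_inv hi]
    exact hj
  · rw [tanv_chart C m s l hl hi hj, tanv_chart C m s l' hl' (h ▸ hi) (h ▸ hj), ← h, det2_map]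

theorem det2_swap (u v : ℝ × ℝ) : det2 u v = - det2 v u := by
  unfold det2; ring

theorem code_aux (P Q P' Q' : Prop) [Decidable P] [Decidable Q] [Decidable P'] [Decidable Q']
    (h : (if P then 0 else 1) + (if Q then 0 else 2) =
      (if P' then 0 else 1) + (if Q' then 0 else 2)) : (P ↔ P') ∧ (Q ↔ Q') := by
  by_cases hP : P <;> by_cases hQ : Q <;> by_cases hP' : P' <;> by_cases hQ' : Q' <;>
    simp_all

open Classical in
theorem code_eq (d d' : ArrD C m s) (h : arrCode C m s d = arrCode C m s d') :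
    ((∃ l' ≠ d.1.1, ∃ t' ∈ Set.Icc (0 : ℝ) 1,
      line C m s d.1.1 d.1.2.1 = line C m s l' t' ∧
      0 < det2 (tanv C m s d.1.1.1 d.1.1 d.1.2.1) (tanv C m s d.1.1.1 l' t')) ↔
     (∃ l' ≠ d'.1.1, ∃ t' ∈ Set.Icc (0 : ℝ) 1,
      line C m s d'.1.1 d'.1.2.1 = line C m s l' t' ∧
      0 < det2 (tanv C m s d'.1.1.1 d'.1.1 d'.1.2.1) (tanv C m s d'.1.1.1 l' t'))) ∧
    (d.1.2.1 < d.1.2.2 ↔ d'.1.2.1 < d'.1.2.2) := by
  unfold arrCode at h
  exact code_aux _ _ _ _ h

theorem tail_line (hm : 1 ≤ m) (hs : Generic C m s) (d d' : ArrD C m s)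
    (htl : arrTl C m s d = arrTl C m s d') (hc : arrCode C m s d = arrCode C m s d') :
    d.1.1 = d'.1.1 := by
  by_contra hne
  obtain ⟨h1, -⟩ := code_eq C m s d d' hc
  have ht : d.1.2.1 ∈ Set.Icc (0 : ℝ) 1 := d.2.1.1
  have ht' : d'.1.2.1 ∈ Set.Icc (0 : ℝ) 1 := d'.2.1.1
  have hl := lineP_mem C m s hm hs.off d.1.1 ht
  have hl' := lineP_mem C m s hm hs.off d'.1.1 ht'
  have hi := line_mem C m s hm hs.off d.1.1 ht
  have hj := line_mem C m s hm hs.off d'.1.1 ht'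
  have htl' : line C m s d.1.1 d.1.2.1 = line C m s d'.1.1 d'.1.2.1 := htl
  have key1 : (∃ l' ≠ d.1.1, ∃ t' ∈ Set.Icc (0 : ℝ) 1,
      line C m s d.1.1 d.1.2.1 = line C m s l' t' ∧
      0 < det2 (tanv C m s d.1.1.1 d.1.1 d.1.2.1) (tanv C m s d.1.1.1 l' t')) ↔
      0 < det2 (tanv C m s d.1.1.1 d.1.1 d.1.2.1) (tanv C m s d.1.1.1 d'.1.1 d'.1.2.1) := by
    constructor
    · rintro ⟨l', hl1, t', ht1, h2, h3⟩
      by_cases h4 : l' = d'.1.1
      · subst h4
        have h5 : t' = d'.1.2.1 :=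
          line_inj C m s hm hs.off _ ht1 ht' (h2.symm.trans htl')
        rwa [h5] at h3
      · exact absurd ⟨htl', h2⟩ (hs.no3 d.1.1 d'.1.1 l' hne (Ne.symm h4) (Ne.symm hl1) _ ht _ ht' _ ht1)
    · intro h2
      exact ⟨d'.1.1, Ne.symm hne, _, ht', htl', h2⟩
  have key2 : (∃ l' ≠ d'.1.1, ∃ t' ∈ Set.Icc (0 : ℝ) 1,
      line C m s d'.1.1 d'.1.2.1 = line C m s l' t' ∧
      0 < det2 (tanv C m s d'.1.1.1 d'.1.1 d'.1.2.1) (tanv C m s d'.1.1.1 l' t')) ↔
      0 < det2 (tanv C m s d'.1.1.1 d'.1.1 d'.1.2.1) (tanv C m s d'.1.1.1 d.1.1 d.1.2.1) := by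
    constructor
    · rintro ⟨l', hl1, t', ht1, h2, h3⟩
      by_cases h4 : l' = d.1.1
      · subst h4
        have h5 : t' = d.1.2.1 :=
          line_inj C m s hm hs.off _ ht1 ht (h2.symm.trans htl'.symm)
        rwa [h5] at h3
      · exact absurd ⟨htl'.symm, h2⟩
          (hs.no3 d'.1.1 d.1.1 l' (Ne.symm hne) (Ne.symm h4) (Ne.symm hl1) _ ht' _ ht _ ht1)
    · intro h2
      exact ⟨d.1.1, hne, _, ht, htl'.symm, h2⟩
  rw [key1, key2] at h1
  obtain ⟨c, hc0, hc1⟩ := det_chart C m s d.1.1 d'.1.1 hl hl' htl' (i := d.1.1.1)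
    (j := d'.1.1.1) hi (htl' ▸ hj)
  have hne0 := hs.trans d.1.1 d'.1.1 hne _ ht _ ht' htl' d.1.1.1 hi
  rw [det2_swap (tanv C m s d'.1.1.1 d'.1.1 d'.1.2.1), hc1] at h1
  rcases lt_or_gt_of_ne hne0 with h2 | h2
  · have h3 := h1.2 (by nlinarith)
    linarith
  · have h3 := h1.1 h2
    nlinarith

theorem pos_inj' (hm : 1 ≤ m) (hs : Generic C m s) (d d' : ArrD C m s)
    (htl : arrTl C m s d = arrTl C m s d') (hc : arrCode C m s d = arrCode C m s d') :
    d = d' := by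
  have h1 := tail_line C m s hm hs d d' htl hc
  obtain ⟨-, h2⟩ := code_eq C m s d d' hc
  obtain ⟨⟨l, t, t₁⟩, hd⟩ := d
  obtain ⟨⟨l', t', t₁'⟩, hd'⟩ := d'
  change l = l' at h1
  subst h1
  change line C m s l t = line C m s l t' at htl
  change t < t₁ ↔ t' < t₁' at h2
  have h3 : t = t' := line_inj C m s hm hs.off l hd.1.1 hd'.1.1 htl
  subst h3
  have h4 : t₁ = t₁' := by
    obtain ⟨a1, a2, a3, a4⟩ := hd
    obtain ⟨b1, b2, b3, b4⟩ := hd'
    simp only at a1 a2 a3 a4 b1 b2 b3 b4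
    by_contra hne
    rcases lt_or_gt_of_ne a3 with h5 | h5
    · have h6 := h2.1 h5
      rcases lt_or_gt_of_ne hne with h7 | h7
      · exact b4 t₁ a2 ⟨by rw [min_eq_left h6.le]; exact h5, by rw [max_eq_right h6.le]; exact h7⟩
      · exact a4 t₁' b2 ⟨by rw [min_eq_left h5.le]; exact h6, by rw [max_eq_right h5.le]; exact h7⟩
    · have h6 : t₁' < t := lt_of_le_of_ne (not_lt.1 fun h => absurd (h2.2 h) (not_lt.2 h5.le))
        (Ne.symm b3)
      rcases lt_or_gt_of_ne hne with h7 | h7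
      · exact a4 t₁' b2 ⟨by rw [min_eq_right h5.le]; exact h7, by rw [max_eq_left h5.le]; exact h6⟩
      · exact b4 t₁ a2 ⟨by rw [min_eq_right h6.le]; exact h7, by rw [max_eq_left h6.le]; exact h5⟩
  subst h4
  rfl

end Top

end H740R2

open H740R2 in
theorem exists_arrRib {M : Type u} [MetricSpace M] {n : ℕ} (C : BoxCharts M n) (m : ℕ)
    (hm : 1 ≤ m) (s : Fin n → Bool → ℝ) (hs : Generic C m s) {N : Type u} [LinearOrder N]
    (ν : M → N) (hν : Function.Injective ν) :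
    ∃ G : Rib (ArrD C m s) M (N ×ₗ ℕ), IsArrRib C m s ν G := by
  refine ⟨{ inv := arrInv C m s
            pos := fun d => toLex (ν (arrTl C m s d), arrCode C m s d)
            tl := arrTl C m s
            inv_inv := fun d => rfl
            noloop := ?_
            pos_inj := ?_
            block := ?_ }, ⟨hν, rfl, rfl, fun d => rfl⟩⟩
  · intro d h
    have h1 : line C m s d.1.1 d.1.2.2 = line C m s d.1.1 d.1.2.1 := h
    exact d.2.2.2.1 (line_inj C m s hm hs.off _ d.2.2.1.1 d.2.1.1 h1).symm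
  · intro d d' h
    have h1 := toLex_inj.1 h
    rw [Prod.mk.injEq] at h1
    exact pos_inj' C m s hm hs d d' (hν h1.1) h1.2
  · intro a b c hab hca
    have h1 : ν (arrTl C m s c) ≠ ν (arrTl C m s a) := fun h => hca (hν h)
    rw [Prod.Lex.toLex_lt_toLex, Prod.Lex.toLex_lt_toLex]
    simp only
    rw [← hab]
    constructor
    · rintro (h | h)
      · exact Or.inl h
      · exact absurd h.1 h1
    · rintro (h | h)
      · exact Or.inl h
      · exact absurd h.1 h1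

end Pool.Agent.TH317.CC
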