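import Pool.Agent.TH317.CC.Riem

/-! Job 2803 (CC-M1): the metric tensor of a Riemannian manifold in a chart. -/

set_option autoImplicit false

universe u

namespace Pool.Agent.TH317.CC

open Set Manifold Bundle
open scoped ContDiff Topology

section Riemannian

variable {E : Type} [NormedAddCommGroup E] [NormedSpace ℝ E] [FiniteDimensional ℝ E]
  {M : Type u} [EMetricSpace M] [ChartedSpace E M] [IsManifold 𝓘(ℝ, E) ∞ M]

namespace H740M1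

/-- the sections `p ↦ D ψ_p v` are `C^2` -/
theorem sec_smooth (x : M) (s : Set E) (hs : IsOpen s)
    (hsub : s ⊆ (extChartAt 𝓘(ℝ, E) x).target) (v : E) :
    ContMDiffOn 𝓘(ℝ, E) 𝓘(ℝ, E).tangent 2
      (fun p : E => (⟨(extChartAt 𝓘(ℝ, E) x).symm p,
        mfderiv 𝓘(ℝ, E) 𝓘(ℝ, E) (extChartAt 𝓘(ℝ, E) x).symm p v⟩ :
          TangentBundle 𝓘(ℝ, E) M)) s := by
  have h1 : ContMDiffOn 𝓘(ℝ, E) 𝓘(ℝ, E) 3 (extChartAt 𝓘(ℝ, E) x).symm s :=
    (contMDiffOn_extChartAt_symm (n := 3) x).mono hsub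
  have h2 := h1.contMDiffOn_tangentMapWithin (m := 2) (by norm_num) hs.uniqueMDiffOn
  have h3 : ContMDiff 𝓘(ℝ, E) 𝓘(ℝ, E).tangent 2
      (fun p : E => (⟨p, v⟩ : TangentBundle 𝓘(ℝ, E) E)) :=
    contMDiff_vectorSpace_iff_contDiff.2 contDiff_const
  have h4 := h2.comp (h3.contMDiffOn (s := s)) (fun p hp => hp)
  refine h4.congr ?_
  intro p hp
  show _ = (⟨(extChartAt 𝓘(ℝ, E) x).symm p, mfderivWithin 𝓘(ℝ, E) 𝓘(ℝ, E)
    (extChartAt 𝓘(ℝ, E) x).symm s p v⟩ : TangentBundle 𝓘(ℝ, E) M)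
  rw [mfderivWithin_of_isOpen hs hp]

/-- `D ψ_p` is injective -/
theorem inj_der (x : M) {p : E} (hp : p ∈ (extChartAt 𝓘(ℝ, E) x).target) {v : E}
    (hv : v ≠ 0) : mfderiv 𝓘(ℝ, E) 𝓘(ℝ, E) (extChartAt 𝓘(ℝ, E) x).symm p v ≠ 0 := by
  intro h
  have h1 := mfderiv_extChartAt_comp_mfderivWithin_extChartAt_symm (I := 𝓘(ℝ, E)) (x := x) hp
  rw [modelWithCornersSelf_coe, range_id, mfderivWithin_univ] at h1
  have h2 := DFunLike.congr_fun h1 v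
  apply hv
  have h3 : (mfderiv 𝓘(ℝ, E) 𝓘(ℝ, E) (extChartAt 𝓘(ℝ, E) x)
      ((extChartAt 𝓘(ℝ, E) x).symm p)) (mfderiv 𝓘(ℝ, E) 𝓘(ℝ, E)
        (extChartAt 𝓘(ℝ, E) x).symm p v) = v := h2
  rw [h, map_zero] at h3
  exact h3.symm

/-- the derivative of the inverse of the chart -/
noncomputable def Dps (x : M) (p : E) :
    E →L[ℝ] TangentSpace 𝓘(ℝ, E) ((extChartAt 𝓘(ℝ, E) x).symm p) :=
  mfderiv 𝓘(ℝ, E) 𝓘(ℝ, E) (extChartAt 𝓘(ℝ, E) x).symm p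

variable [RiemannianBundle (fun x : M => TangentSpace 𝓘(ℝ, E) x)]
  [IsContMDiffRiemannianBundle 𝓘(ℝ, E) ∞ E (fun x : M => TangentSpace 𝓘(ℝ, E) x)]

/-- the metric tensor in the chart at `x` -/
noncomputable def ten (x : M) (p : E) : E →L[ℝ] E →L[ℝ] ℝ :=
  LinearMap.toContinuousLinearMap
    ((LinearMap.toContinuousLinearMap : (E →ₗ[ℝ] ℝ) ≃ₗ[ℝ] (E →L[ℝ] ℝ)).toLinearMap ∘ₗ
      (LinearMap.mk₂ ℝ (fun v w : E => inner ℝ (Dps x p v) (Dps x p w))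
        (fun v v' w => by rw [map_add, inner_add_left])
        (fun c v w => by rw [map_smul, real_inner_smul_left, smul_eq_mul])
        (fun v w w' => by rw [map_add, inner_add_right])
        (fun c v w => by rw [map_smul, real_inner_smul_right, smul_eq_mul])))

theorem ten_apply (x : M) (p v w : E) : ten x p v w = inner ℝ (Dps x p v) (Dps x p w) := rfl

theorem ten_smooth (x : M) (s : Set E) (hs : IsOpen s)
    (hsub : s ⊆ (extChartAt 𝓘(ℝ, E) x).target) : ContDiffOn ℝ 2 (ten x) s := by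
  rw [contDiffOn_clm_apply]
  intro v
  rw [contDiffOn_clm_apply]
  intro w
  have h := ContMDiffOn.inner_bundle (IB := 𝓘(ℝ, E)) (F := E) (n := 2)
    (E := fun y : M => TangentSpace 𝓘(ℝ, E) y) (b := (extChartAt 𝓘(ℝ, E) x).symm)
    (v := fun p => Dps x p v) (w := fun p => Dps x p w)
    (sec_smooth x s hs hsub v) (sec_smooth x s hs hsub w)
  exact contMDiffOn_iff_contDiffOn.1 h

end H740M1

variable [RiemannianBundle (fun x : M => TangentSpace 𝓘(ℝ, E) x)]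
  [IsContMDiffRiemannianBundle 𝓘(ℝ, E) ∞ E (fun x : M => TangentSpace 𝓘(ℝ, E) x)]
  [IsRiemannianManifold 𝓘(ℝ, E) M]

open H740M1 in
theorem riem_tensor (x : M) :
    ∃ R₀ > 0, Metric.ball (extChartAt 𝓘(ℝ, E) x x) R₀ ⊆ (extChartAt 𝓘(ℝ, E) x).target ∧
      ∃ G : E → E →L[ℝ] E →L[ℝ] ℝ,
        ContDiffOn ℝ 2 G (Metric.ball (extChartAt 𝓘(ℝ, E) x x) R₀) ∧
        (∀ p ∈ Metric.ball (extChartAt 𝓘(ℝ, E) x x) R₀, ∀ v w, G p v w = G p w v) ∧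
        (∀ p ∈ Metric.ball (extChartAt 𝓘(ℝ, E) x x) R₀, ∀ v : E,
          ‖mfderiv 𝓘(ℝ, E) 𝓘(ℝ, E) (extChartAt 𝓘(ℝ, E) x).symm p v‖ ^ 2 = G p v v) ∧
        ∀ p ∈ Metric.ball (extChartAt 𝓘(ℝ, E) x x) R₀, ∀ v ≠ 0, 0 < G p v v := by
  obtain ⟨R₀, hR₀, hsub⟩ := Metric.mem_nhds_iff.1 (extChartAt_target_mem_nhds (I := 𝓘(ℝ, E)) x)
  refine ⟨R₀, hR₀, hsub, ten x, ten_smooth x _ Metric.isOpen_ball hsub, ?_, ?_, ?_⟩
  · intro p _ v w
    rw [ten_apply, ten_apply, real_inner_comm]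
  · intro p _ v
    rw [ten_apply, real_inner_self_eq_norm_sq]
    rfl
  · intro p hp v hv
    rw [ten_apply, real_inner_self_eq_norm_sq]
    have h : Dps x p v ≠ 0 := inj_der x (hsub hp) hv
    positivity

end Riemannian

end Pool.Agent.TH317.CC
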