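import Pool.Agent.TH740.CCM1

/-! Job 2804 (CC-M2): infinitesimal form of the Riemannian distance in a chart. -/

set_option autoImplicit false

universe u

namespace Pool.Agent.TH317.CC

open Set Manifold Bundle MeasureTheory
open scoped ContDiff Topology ENNReal

namespace H740M2

section Tensor

variable {E : Type} [NormedAddCommGroup E] [NormedSpace ℝ E] [FiniteDimensional ℝ E]

theorem tensor_bounds (K : Set E) (hK : IsCompact K) (G : E → E →L[ℝ] E →L[ℝ] ℝ)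
    (hG : ContinuousOn G K) (hpos : ∀ p ∈ K, ∀ v ≠ 0, 0 < G p v v) :
    ∃ lam > 0, ∃ Lam > 0, ∀ p ∈ K, ∀ v,
      lam * ‖v‖ ≤ Real.sqrt (G p v v) ∧ Real.sqrt (G p v v) ≤ Lam * ‖v‖ := by
  -- upper bound
  obtain ⟨C, hC⟩ := hK.exists_bound_of_continuousOn (f := G) hG
  -- lower bound
  have hcomp : IsCompact (K ×ˢ Metric.sphere (0 : E) 1) := hK.prod (isCompact_sphere 0 1)
  have hcont : ContinuousOn (fun z : E × E => G z.1 z.2 z.2) (K ×ˢ Metric.sphere (0 : E) 1) := by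
    have h1 : ContinuousOn (fun z : E × E => G z.1) (K ×ˢ Metric.sphere (0 : E) 1) :=
      hG.comp continuousOn_fst (fun z hz => hz.1)
    exact (h1.clm_apply continuousOn_snd).clm_apply continuousOn_snd
  obtain ⟨c, hc0, hc⟩ := hcomp.exists_forall_le' hcont (a := 0) (by
    rintro ⟨p, v⟩ ⟨hp, hv⟩
    refine hpos p hp v ?_
    rintro rfl
    simp at hv)
  refine ⟨Real.sqrt c, Real.sqrt_pos.2 hc0, Real.sqrt (|C| + 1), Real.sqrt_pos.2 (by positivity),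
    fun p hp v => ⟨?_, ?_⟩⟩
  · rcases eq_or_ne v 0 with rfl | hv
    · simp
    · have hv' : 0 < ‖v‖ := norm_pos_iff.2 hv
      have h1 := hc (p, ‖v‖⁻¹ • v) ⟨hp, by
        simp [norm_smul, hv'.ne']⟩
      simp only [map_smul, smul_apply, smul_eq_mul] at h1
      have h2 : c * ‖v‖ ^ 2 ≤ G p v v := by
        have h3 : ‖v‖⁻¹ * (‖v‖⁻¹ * G p v v) * ‖v‖ ^ 2 = G p v v := by
          field_simp
        calc c * ‖v‖ ^ 2 ≤ ‖v‖⁻¹ * (‖v‖⁻¹ * G p v v) * ‖v‖ ^ 2 := by gcongr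
          _ = G p v v := h3
      calc Real.sqrt c * ‖v‖ = Real.sqrt (c * ‖v‖ ^ 2) := by
            rw [Real.sqrt_mul hc0.le, Real.sqrt_sq hv'.le]
        _ ≤ Real.sqrt (G p v v) := Real.sqrt_le_sqrt h2
  · have h1 : G p v v ≤ (|C| + 1) * ‖v‖ ^ 2 := by
      have h2 : G p v v ≤ ‖G p‖ * ‖v‖ * ‖v‖ :=
        (le_abs_self _).trans ((G p).le_opNorm₂ v v)
      have h3 : ‖G p‖ ≤ |C| + 1 := (hC p hp).trans ((le_abs_self C).trans (by linarith))
      calc G p v v ≤ ‖G p‖ * ‖v‖ * ‖v‖ := h2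
        _ ≤ (|C| + 1) * ‖v‖ * ‖v‖ := by gcongr
        _ = (|C| + 1) * ‖v‖ ^ 2 := by ring
    calc Real.sqrt (G p v v) ≤ Real.sqrt ((|C| + 1) * ‖v‖ ^ 2) := Real.sqrt_le_sqrt h1
      _ = Real.sqrt (|C| + 1) * ‖v‖ := by
        rw [Real.sqrt_mul (by positivity), Real.sqrt_sq (norm_nonneg _)]

theorem tensor_unif (K : Set E) (hK : IsCompact K) (G : E → E →L[ℝ] E →L[ℝ] ℝ)
    (hG : ContinuousOn G K) (ε : ℝ) (hε : 0 < ε) :
    ∃ δ > 0, ∀ p ∈ K, ∀ p' ∈ K, ‖p - p'‖ < δ → ∀ v,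
      Real.sqrt (G p v v) ≤ Real.sqrt (G p' v v) + ε * ‖v‖ := by
  have h1 : UniformContinuousOn G K := hK.uniformContinuousOn_of_continuous (f := G) hG
  obtain ⟨δ, hδ, h2⟩ := (Metric.uniformContinuousOn_iff (β := E →L[ℝ] E →L[ℝ] ℝ) (f := G)).1 h1
    (ε ^ 2) (by positivity)
  refine ⟨δ, hδ, fun p hp p' hp' hpp v => ?_⟩
  have h3 : ‖G p - G p'‖ < ε ^ 2 := by
    calc ‖G p - G p'‖ = dist (G p) (G p') := (dist_eq_norm (G p) (G p')).symm
      _ < ε ^ 2 := h2 p hp p' hp' (by rwa [dist_eq_norm])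
  have h4 : G p v v - G p' v v ≤ ε ^ 2 * ‖v‖ ^ 2 := by
    have h5 : (G p - G p') v v ≤ ‖G p - G p'‖ * ‖v‖ * ‖v‖ :=
      (le_abs_self _).trans ((G p - G p').le_opNorm₂ v v)
    have h6 : (G p - G p') v v = G p v v - G p' v v := by
      simp only [sub_apply]
    calc G p v v - G p' v v = (G p - G p') v v := h6.symm
      _ ≤ ‖G p - G p'‖ * ‖v‖ * ‖v‖ := h5
      _ ≤ ε ^ 2 * ‖v‖ * ‖v‖ := by gcongr
      _ = ε ^ 2 * ‖v‖ ^ 2 := by ring
  rw [Real.sqrt_le_left (by positivity)]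
  rcases le_or_gt (G p' v v) 0 with h7 | h7
  · rw [Real.sqrt_eq_zero_of_nonpos h7]
    nlinarith
  · nlinarith [Real.sq_sqrt h7.le, Real.sqrt_nonneg (G p' v v), norm_nonneg v,
      mul_nonneg (mul_nonneg hε.le (norm_nonneg v)) (Real.sqrt_nonneg (G p' v v))]

end Tensor

section Riem

variable {E : Type} [NormedAddCommGroup E] [NormedSpace ℝ E] [FiniteDimensional ℝ E]
  {M : Type u} [EMetricSpace M] [ChartedSpace E M] [IsManifold 𝓘(ℝ, E) ∞ M]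
  [RiemannianBundle (fun x : M => TangentSpace 𝓘(ℝ, E) x)]
  [IsContMDiffRiemannianBundle 𝓘(ℝ, E) ∞ E (fun x : M => TangentSpace 𝓘(ℝ, E) x)]
  [IsRiemannianManifold 𝓘(ℝ, E) M]

open H740M1

/-- the length of a path in the chart -/
theorem len_chart (x : M) (c : ℝ → E) (γ : ℝ → M)
    (hγ : ∀ t ∈ Ioo (0 : ℝ) 1, γ =ᶠ[𝓝 t] (extChartAt 𝓘(ℝ, E) x).symm ∘ c)
    (hc : ∀ t ∈ Ioo (0 : ℝ) 1, DifferentiableAt ℝ c t)
    (ht : ∀ t ∈ Ioo (0 : ℝ) 1, c t ∈ (extChartAt 𝓘(ℝ, E) x).target) :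
    pathELength 𝓘(ℝ, E) γ 0 1 = ∫⁻ t in Ioo (0 : ℝ) 1, ‖Dps x (c t) (deriv c t)‖ₑ := by
  rw [pathELength_eq_lintegral_mfderiv_Ioo]
  apply setLIntegral_congr_fun measurableSet_Ioo
  intro t h
  have h1 : mfderiv 𝓘(ℝ, ℝ) 𝓘(ℝ, E) γ t = mfderiv 𝓘(ℝ, ℝ) 𝓘(ℝ, E)
      ((extChartAt 𝓘(ℝ, E) x).symm ∘ c) t := (hγ t h).mfderiv_eq
  have h2 : MDifferentiableAt 𝓘(ℝ, E) 𝓘(ℝ, E) (extChartAt 𝓘(ℝ, E) x).symm (c t) := by
    have h3 := mdifferentiableWithinAt_extChartAt_symm (I := 𝓘(ℝ, E)) (x := x) (ht t h)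
    rw [modelWithCornersSelf_coe, range_id, mdifferentiableWithinAt_univ] at h3
    exact h3
  have h3 : MDifferentiableAt 𝓘(ℝ, ℝ) 𝓘(ℝ, E) c t := (hc t h).mdifferentiableAt
  have h4 := mfderiv_comp t h2 h3
  have e : fderiv ℝ c t 1 = deriv c t := fderiv_apply_one_eq_deriv
  have h6 : γ t = ((extChartAt 𝓘(ℝ, E) x).symm ∘ c) t := (hγ t h).self_of_nhds
  have h7 : ‖mfderiv 𝓘(ℝ, ℝ) 𝓘(ℝ, E) γ t 1‖ₑ =
      ‖mfderiv 𝓘(ℝ, ℝ) 𝓘(ℝ, E) ((extChartAt 𝓘(ℝ, E) x).symm ∘ c) t 1‖ₑ := by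
    have key : ∀ (y y' : M) (v v' : E), y = y' → v = v' →
        @enorm (TangentSpace 𝓘(ℝ, E) y) _ v = @enorm (TangentSpace 𝓘(ℝ, E) y') _ v' := by
      rintro y _ v _ rfl rfl
      rfl
    exact key _ _ _ _ h6 (congrArg (fun L : ℝ →L[ℝ] E => L 1) h1)
  have h5 : ‖mfderiv 𝓘(ℝ, ℝ) 𝓘(ℝ, E) ((extChartAt 𝓘(ℝ, E) x).symm ∘ c) t 1‖ₑ =
      ‖Dps x (c t) (fderiv ℝ c t 1)‖ₑ := by
    rw [h4, mfderiv_eq_fderiv]
    rfl
  rw [e] at h5
  exact h7.trans h5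

theorem upper (x : M) (p q : E)
    (hseg : ∀ t ∈ Icc (0 : ℝ) 1, p + t • (q - p) ∈ (extChartAt 𝓘(ℝ, E) x).target) (B : ℝ)
    (hB : ∀ t ∈ Icc (0 : ℝ) 1, ‖Dps x (p + t • (q - p)) (q - p)‖ ≤ B) :
    edist ((extChartAt 𝓘(ℝ, E) x).symm p) ((extChartAt 𝓘(ℝ, E) x).symm q) ≤
      ENNReal.ofReal B := by
  rw [IsRiemannianManifold.out (I := 𝓘(ℝ, E))]
  have hder : ∀ t : ℝ, HasDerivAt (fun t : ℝ => p + t • (q - p)) (q - p) t := by
    intro t
    have h1 := ((hasDerivAt_id t).smul_const (q - p)).const_add p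
    simpa using h1
  have hc : ContMDiffOn 𝓘(ℝ, ℝ) 𝓘(ℝ, E) 1 (fun t : ℝ => p + t • (q - p)) (Icc 0 1) := by
    rw [contMDiffOn_iff_contDiffOn]
    exact (contDiff_const.add (contDiff_id.smul contDiff_const)).contDiffOn
  have h1 : riemannianEDist 𝓘(ℝ, E) ((extChartAt 𝓘(ℝ, E) x).symm p)
      ((extChartAt 𝓘(ℝ, E) x).symm q) ≤ pathELength 𝓘(ℝ, E)
        ((extChartAt 𝓘(ℝ, E) x).symm ∘ fun t : ℝ => p + t • (q - p)) 0 1 := by
    apply riemannianEDist_le_pathELength _ _ _ zero_le_one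
    · exact (contMDiffOn_extChartAt_symm x).comp hc hseg
    · simp
    · simp
  refine h1.trans ?_
  rw [len_chart x (fun t : ℝ => p + t • (q - p)) _ (fun t _ => Filter.EventuallyEq.rfl)
    (fun t _ => (hder t).differentiableAt) (fun t ht => hseg t ⟨ht.1.le, ht.2.le⟩)]
  calc ∫⁻ t in Ioo (0 : ℝ) 1, ‖Dps x (p + t • (q - p))
        (deriv (fun t : ℝ => p + t • (q - p)) t)‖ₑ
      ≤ ∫⁻ _ in Ioo (0 : ℝ) 1, ENNReal.ofReal B := by
        apply setLIntegral_mono' measurableSet_Ioo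
        intro t ht
        rw [(hder t).deriv, ← ofReal_norm_eq_enorm]
        exact ENNReal.ofReal_le_ofReal (hB t ⟨ht.1.le, ht.2.le⟩)
    _ = ENNReal.ofReal B := by
        rw [setLIntegral_const]
        simp

theorem lin_bound {F : Type*} [NormedAddCommGroup F] [NormedSpace ℝ F] (x : M) (γ : ℝ → M)
    (hγ : ContMDiff 𝓘(ℝ, ℝ) 𝓘(ℝ, E) 1 γ)
    (hsrc : ∀ t ∈ Icc (0 : ℝ) 1, γ t ∈ (extChartAt 𝓘(ℝ, E) x).source) (A : E →L[ℝ] F) (κ : ℝ)
    (hκ : 0 ≤ κ)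
    (hA : ∀ t ∈ Icc (0 : ℝ) 1, ∀ v, ‖A v‖ ≤ κ * ‖Dps x (extChartAt 𝓘(ℝ, E) x (γ t)) v‖)
    {s : ℝ} (hs : s ∈ Icc (0 : ℝ) 1) :
    ‖A (extChartAt 𝓘(ℝ, E) x (γ s)) - A (extChartAt 𝓘(ℝ, E) x (γ 0))‖ₑ ≤
      ENNReal.ofReal κ * pathELength 𝓘(ℝ, E) γ 0 1 := by
  have hc : ContDiffOn ℝ 1 (fun t => extChartAt 𝓘(ℝ, E) x (γ t)) (Icc 0 1) := by
    rw [← contMDiffOn_iff_contDiffOn]
    exact contMDiffOn_extChartAt.comp (t := (chartAt E x).source) hγ.contMDiffOn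
      (fun t ht => by simpa using hsrc t ht)
  have hdiff : ∀ t ∈ Ioo (0 : ℝ) 1,
      DifferentiableAt ℝ (fun t => extChartAt 𝓘(ℝ, E) x (γ t)) t := fun t ht =>
    ((hc t ⟨ht.1.le, ht.2.le⟩).differentiableWithinAt one_ne_zero).differentiableAt
      (Icc_mem_nhds ht.1 ht.2)
  have hev : ∀ t ∈ Ioo (0 : ℝ) 1, γ =ᶠ[𝓝 t]
      (extChartAt 𝓘(ℝ, E) x).symm ∘ (fun t => extChartAt 𝓘(ℝ, E) x (γ t)) := by
    intro t ht
    filter_upwards [Ioo_mem_nhds ht.1 ht.2] with t' ht'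
    exact ((extChartAt 𝓘(ℝ, E) x).left_inv (hsrc t' ⟨ht'.1.le, ht'.2.le⟩)).symm
  have hlen := len_chart x (fun t => extChartAt 𝓘(ℝ, E) x (γ t)) γ hev hdiff
    (fun t ht => (extChartAt 𝓘(ℝ, E) x).map_source (hsrc t ⟨ht.1.le, ht.2.le⟩))
  have hAc : ContDiffOn ℝ 1 (fun t => A (extChartAt 𝓘(ℝ, E) x (γ t))) (Icc 0 1) :=
    A.contDiff.comp_contDiffOn hc
  have h1 := enorm_sub_le_lintegral_deriv_of_contDiffOn_Icc
    (hAc.mono (Icc_subset_Icc_right hs.2)) hs.1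
  refine h1.trans ?_
  calc ∫⁻ t in Icc 0 s, ‖deriv (fun t => A (extChartAt 𝓘(ℝ, E) x (γ t))) t‖ₑ
      ≤ ∫⁻ t in Icc 0 1, ‖deriv (fun t => A (extChartAt 𝓘(ℝ, E) x (γ t))) t‖ₑ :=
        lintegral_mono_set (Icc_subset_Icc_right hs.2)
    _ = ∫⁻ t in Ioo 0 1, ‖deriv (fun t => A (extChartAt 𝓘(ℝ, E) x (γ t))) t‖ₑ := by
        rw [restrict_Ioo_eq_restrict_Icc]
    _ ≤ ∫⁻ t in Ioo 0 1, ENNReal.ofReal κ * ‖Dps x (extChartAt 𝓘(ℝ, E) x (γ t))
          (deriv (fun t => extChartAt 𝓘(ℝ, E) x (γ t)) t)‖ₑ := by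
        apply setLIntegral_mono' measurableSet_Ioo
        intro t ht
        have h2 : deriv (fun t => A (extChartAt 𝓘(ℝ, E) x (γ t))) t =
            A (deriv (fun t => extChartAt 𝓘(ℝ, E) x (γ t)) t) :=
          (A.hasFDerivAt.comp_hasDerivAt t (hdiff t ht).hasDerivAt).deriv
        rw [h2, ← ofReal_norm_eq_enorm, ← ofReal_norm_eq_enorm, ← ENNReal.ofReal_mul hκ]
        exact ENNReal.ofReal_le_ofReal (hA t ⟨ht.1.le, ht.2.le⟩ _)
    _ = ENNReal.ofReal κ * pathELength 𝓘(ℝ, E) γ 0 1 := by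
        rw [hlen, lintegral_const_mul' _ _ ENNReal.ofReal_ne_top]

theorem Dps_norm (x : M) (G : E → E →L[ℝ] E →L[ℝ] ℝ) (p : E)
    (hGn : ∀ v : E, ‖mfderiv 𝓘(ℝ, E) 𝓘(ℝ, E) (extChartAt 𝓘(ℝ, E) x).symm p v‖ ^ 2 = G p v v)
    (v : E) : ‖Dps x p v‖ = Real.sqrt (G p v v) := by
  rw [← hGn v]
  exact (Real.sqrt_sq (norm_nonneg (Dps x p v))).symm

theorem nbhd_of_src (x : M) (R₁ : ℝ) (hR₁ : 0 < R₁) : ∃ c : ℝ, 0 < c ∧ ∀ y : M,
    edist y x < ENNReal.ofReal c → y ∈ (extChartAt 𝓘(ℝ, E) x).source ∧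
      extChartAt 𝓘(ℝ, E) x y ∈ Metric.ball (extChartAt 𝓘(ℝ, E) x x) R₁ := by
  have h1 : (extChartAt 𝓘(ℝ, E) x).source ∩ (extChartAt 𝓘(ℝ, E) x) ⁻¹'
      Metric.ball (extChartAt 𝓘(ℝ, E) x x) R₁ ∈ 𝓝 x :=
    Filter.inter_mem (extChartAt_source_mem_nhds x)
      ((continuousAt_extChartAt x).preimage_mem_nhds (Metric.ball_mem_nhds _ hR₁))
  obtain ⟨c₁, hc₁, h2⟩ := EMetric.mem_nhds_iff.1 h1
  refine ⟨(min c₁ 1).toReal, ENNReal.toReal_pos (by
      simp [hc₁.ne']) (by simp), fun y hy => h2 ?_⟩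
  rw [ENNReal.ofReal_toReal (by simp)] at hy
  exact lt_of_lt_of_le hy (min_le_left _ _)

theorem psi_small (x : M) (c : ℝ) (hc : 0 < c) (R₁ : ℝ) (hR₁ : 0 < R₁) :
    ∃ R > 0, R ≤ R₁ ∧ ∀ p ∈ Metric.ball (extChartAt 𝓘(ℝ, E) x x) R,
      edist ((extChartAt 𝓘(ℝ, E) x).symm p) x < ENNReal.ofReal c := by
  have h1 : ContinuousAt (extChartAt 𝓘(ℝ, E) x).symm (extChartAt 𝓘(ℝ, E) x x) :=
    continuousAt_extChartAt_symm x
  have h2 : EMetric.ball x (ENNReal.ofReal c) ∈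
      𝓝 ((extChartAt 𝓘(ℝ, E) x).symm (extChartAt 𝓘(ℝ, E) x x)) := by
    rw [extChartAt_to_inv]
    exact EMetric.ball_mem_nhds x (ENNReal.ofReal_pos.2 hc)
  obtain ⟨R, hR, h3⟩ := Metric.mem_nhds_iff.1 (h1.preimage_mem_nhds h2)
  refine ⟨min R R₁, lt_min hR hR₁, min_le_right _ _, fun p hp => ?_⟩
  exact h3 (Metric.ball_subset_ball (min_le_left _ _) hp)

end Riem

end H740M2

section Riemannian

variable {E : Type} [NormedAddCommGroup E] [NormedSpace ℝ E] [FiniteDimensional ℝ E]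
  {M : Type u} [EMetricSpace M] [ChartedSpace E M] [IsManifold 𝓘(ℝ, E) ∞ M]
  [RiemannianBundle (fun x : M => TangentSpace 𝓘(ℝ, E) x)]
  [IsContMDiffRiemannianBundle 𝓘(ℝ, E) ∞ E (fun x : M => TangentSpace 𝓘(ℝ, E) x)]
  [IsRiemannianManifold 𝓘(ℝ, E) M]

open H740M1 H740M2 in
theorem riem_dist (x : M) (R₀ : ℝ) (hR₀ : 0 < R₀)
    (hball : Metric.ball (extChartAt 𝓘(ℝ, E) x x) R₀ ⊆ (extChartAt 𝓘(ℝ, E) x).target)
    (G : E → E →L[ℝ] E →L[ℝ] ℝ)
    (hG : ContDiffOn ℝ 2 G (Metric.ball (extChartAt 𝓘(ℝ, E) x x) R₀))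
    (hGn : ∀ p ∈ Metric.ball (extChartAt 𝓘(ℝ, E) x x) R₀, ∀ v : E,
      ‖mfderiv 𝓘(ℝ, E) 𝓘(ℝ, E) (extChartAt 𝓘(ℝ, E) x).symm p v‖ ^ 2 = G p v v)
    (hpos : ∀ p ∈ Metric.ball (extChartAt 𝓘(ℝ, E) x x) R₀, ∀ v ≠ 0, 0 < G p v v) :
    ∃ R > 0, R ≤ R₀ ∧ ∀ ε > 0, ∃ δ > 0, ∀ p ∈ Metric.ball (extChartAt 𝓘(ℝ, E) x x) R,
      ∀ q ∈ Metric.ball (extChartAt 𝓘(ℝ, E) x x) R, ‖p - q‖ < δ →
        edist ((extChartAt 𝓘(ℝ, E) x).symm p) ((extChartAt 𝓘(ℝ, E) x).symm q) ≤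
          ENNReal.ofReal (Real.sqrt (G p (q - p) (q - p)) + ε * ‖q - p‖) ∧
        ENNReal.ofReal (Real.sqrt (G p (q - p) (q - p)) - ε * ‖q - p‖) ≤
          edist ((extChartAt 𝓘(ℝ, E) x).symm p) ((extChartAt 𝓘(ℝ, E) x).symm q) := by
  have hK : IsCompact (Metric.closedBall (extChartAt 𝓘(ℝ, E) x x) (R₀ / 2)) :=
    isCompact_closedBall _ _
  have hKs : Metric.closedBall (extChartAt 𝓘(ℝ, E) x x) (R₀ / 2) ⊆
      Metric.ball (extChartAt 𝓘(ℝ, E) x x) R₀ := Metric.closedBall_subset_ball (by linarith)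
  have hGK : ContinuousOn G (Metric.closedBall (extChartAt 𝓘(ℝ, E) x x) (R₀ / 2)) :=
    hG.continuousOn.mono hKs
  obtain ⟨lam, hlam, Lam, hLam, hbd⟩ := tensor_bounds _ hK G hGK
    (fun p hp => hpos p (hKs hp))
  have hn : ∀ p ∈ Metric.closedBall (extChartAt 𝓘(ℝ, E) x x) (R₀ / 2), ∀ v : E,
      ‖Dps x p v‖ = Real.sqrt (G p v v) := fun p hp v => Dps_norm x G p (hGn p (hKs hp)) v
  obtain ⟨c, hc, hsrc⟩ := nbhd_of_src (E := E) x (R₀ / 2) (by positivity)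
  obtain ⟨R, hR, hRR, hpsi⟩ := psi_small (E := E) x (c / 2) (by positivity) (R₀ / 2)
    (by positivity)
  have hBK : Metric.ball (extChartAt 𝓘(ℝ, E) x x) R ⊆
      Metric.closedBall (extChartAt 𝓘(ℝ, E) x x) (R₀ / 2) :=
    (Metric.ball_subset_ball hRR).trans Metric.ball_subset_closedBall
  refine ⟨R, hR, by linarith, fun ε hε => ?_⟩
  obtain ⟨δ', hδ', hunif⟩ := tensor_unif _ hK G hGK (min ε (ε * lam / (Lam + 1)))
    (lt_min hε (by positivity))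
  refine ⟨min δ' (min (c / (4 * Lam)) (lam * δ' / (2 * Lam))), by positivity, ?_⟩
  intro p hp q hq hpq
  have hpq1 : ‖q - p‖ < δ' := by
    rw [norm_sub_rev]; exact lt_of_lt_of_le hpq (min_le_left _ _)
  have hpq2 : Lam * ‖q - p‖ < c / 2 := by
    have h1 : ‖q - p‖ < c / (4 * Lam) := by
      rw [norm_sub_rev]
      exact lt_of_lt_of_le hpq ((min_le_right _ _).trans (min_le_left _ _))
    calc Lam * ‖q - p‖ < Lam * (c / (4 * Lam)) := by gcongr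
      _ = c / 4 := by field_simp
      _ < c / 2 := by linarith
  have hpq3 : lam⁻¹ * (Lam * ‖q - p‖) < δ' := by
    have h1 : ‖q - p‖ < lam * δ' / (2 * Lam) := by
      rw [norm_sub_rev]
      exact lt_of_lt_of_le hpq ((min_le_right _ _).trans (min_le_right _ _))
    calc lam⁻¹ * (Lam * ‖q - p‖) < lam⁻¹ * (Lam * (lam * δ' / (2 * Lam))) := by gcongr
      _ = δ' / 2 := by field_simp
      _ < δ' := by linarith
  constructor
  · apply upper x p q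
    · intro t ht
      refine hball (hKs (hBK ?_))
      have := (convex_ball (extChartAt 𝓘(ℝ, E) x x) R).add_smul_sub_mem hp hq ht
      exact this
    · intro t ht
      have h1 : p + t • (q - p) ∈ Metric.ball (extChartAt 𝓘(ℝ, E) x x) R :=
        (convex_ball (extChartAt 𝓘(ℝ, E) x x) R).add_smul_sub_mem hp hq ht
      rw [hn _ (hBK h1)]
      have h2 : ‖p + t • (q - p) - p‖ < δ' := by
        rw [add_sub_cancel_left, norm_smul, Real.norm_of_nonneg ht.1]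
        calc t * ‖q - p‖ ≤ 1 * ‖q - p‖ := by gcongr; exact ht.2
          _ = ‖q - p‖ := one_mul _
          _ < δ' := hpq1
      refine (hunif _ (hBK h1) p (hBK hp) h2 (q - p)).trans ?_
      gcongr
      exact min_le_left _ _
  · by_contra hcon
    rw [not_le, IsRiemannianManifold.out (I := 𝓘(ℝ, E))] at hcon
    obtain ⟨γ, hγ0, hγ1, hγ, hγL, -, -⟩ :=
      exists_lt_locally_constant_of_riemannianEDist_lt hcon zero_lt_one
    set a : ℝ := Real.sqrt (G p (q - p) (q - p)) with ha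
    set b : ℝ := ‖q - p‖ with hb
    have hb0 : 0 ≤ b := norm_nonneg _
    have hab : a ≤ Lam * b := (hbd p (hBK hp) (q - p)).2
    have hpos' : 0 < a - ε * b := by
      by_contra h
      rw [ENNReal.ofReal_of_nonpos (not_lt.1 h)] at hγL
      exact absurd hγL (by simp)
    have hle : a - ε * b ≤ Lam * b := by
      have : 0 ≤ ε * b := by positivity
      linarith
    -- the path stays in the chart
    have hin : ∀ t ∈ Icc (0 : ℝ) 1, γ t ∈ (extChartAt 𝓘(ℝ, E) x).source ∧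
        extChartAt 𝓘(ℝ, E) x (γ t) ∈ Metric.ball (extChartAt 𝓘(ℝ, E) x x) (R₀ / 2) := by
      intro t ht
      apply hsrc
      have h1 : edist ((extChartAt 𝓘(ℝ, E) x).symm p) (γ t) < ENNReal.ofReal (c / 2) := by
        rw [IsRiemannianManifold.out (I := 𝓘(ℝ, E))]
        calc riemannianEDist 𝓘(ℝ, E) ((extChartAt 𝓘(ℝ, E) x).symm p) (γ t)
            ≤ pathELength 𝓘(ℝ, E) γ 0 t :=
              riemannianEDist_le_pathELength hγ.contMDiffOn hγ0 rfl ht.1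
          _ ≤ pathELength 𝓘(ℝ, E) γ 0 1 := pathELength_mono le_rfl ht.2
          _ < ENNReal.ofReal (a - ε * b) := hγL
          _ ≤ ENNReal.ofReal (c / 2) := ENNReal.ofReal_le_ofReal (hle.trans hpq2.le)
      calc edist (γ t) x ≤ edist (γ t) ((extChartAt 𝓘(ℝ, E) x).symm p) +
            edist ((extChartAt 𝓘(ℝ, E) x).symm p) x := edist_triangle _ _ _
        _ < ENNReal.ofReal (c / 2) + ENNReal.ofReal (c / 2) := by
            rw [edist_comm (γ t)]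
            exact ENNReal.add_lt_add h1 (hpsi p hp)
        _ = ENNReal.ofReal c := by
            rw [← ENNReal.ofReal_add (by positivity) (by positivity)]
            congr 1
            ring
    have hinK : ∀ t ∈ Icc (0 : ℝ) 1, extChartAt 𝓘(ℝ, E) x (γ t) ∈
        Metric.closedBall (extChartAt 𝓘(ℝ, E) x x) (R₀ / 2) :=
      fun t ht => Metric.ball_subset_closedBall (hin t ht).2
    have hp0 : extChartAt 𝓘(ℝ, E) x (γ 0) = p := by
      rw [hγ0]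
      exact (extChartAt 𝓘(ℝ, E) x).right_inv (hball (hKs (hBK hp)))
    have hq1 : extChartAt 𝓘(ℝ, E) x (γ 1) = q := by
      rw [hγ1]
      exact (extChartAt 𝓘(ℝ, E) x).right_inv (hball (hKs (hBK hq)))
    -- closeness
    have hclose : ∀ s ∈ Icc (0 : ℝ) 1, ‖p - extChartAt 𝓘(ℝ, E) x (γ s)‖ < δ' := by
      intro s hs
      have h1 := lin_bound x γ hγ (fun t ht => (hin t ht).1) (ContinuousLinearMap.id ℝ E)
        lam⁻¹ (by positivity) (by
          intro t ht v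
          rw [hn _ (hinK t ht)]
          have := (hbd _ (hinK t ht) v).1
          rw [inv_mul_eq_div, le_div_iff₀ hlam, mul_comm]
          exact this) hs
      rw [hp0] at h1
      have h2 : ‖extChartAt 𝓘(ℝ, E) x (γ s) - p‖ₑ ≤ ENNReal.ofReal (lam⁻¹ * (Lam * b)) := by
        refine h1.trans ?_
        rw [ENNReal.ofReal_mul (by positivity)]
        gcongr
        exact hγL.le.trans (ENNReal.ofReal_le_ofReal hle)
      rw [← ofReal_norm_eq_enorm, ENNReal.ofReal_le_ofReal_iff (by positivity)] at h2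
      rw [norm_sub_rev]
      exact lt_of_le_of_lt h2 hpq3
    have hmain := lin_bound x γ hγ (fun t ht => (hin t ht).1) (Dps x p)
      (1 + ε / (Lam + 1)) (by positivity) (by
        intro t ht v
        rw [hn _ (hinK t ht), hn _ (hBK hp)]
        have h1 := hunif p (hBK hp) _ (hinK t ht) (hclose t ht) v
        have h2 := (hbd _ (hinK t ht) v).1
        have h3 : min ε (ε * lam / (Lam + 1)) * ‖v‖ ≤ ε / (Lam + 1) *
            Real.sqrt (G (extChartAt 𝓘(ℝ, E) x (γ t)) v v) := by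
          calc min ε (ε * lam / (Lam + 1)) * ‖v‖ ≤ ε * lam / (Lam + 1) * ‖v‖ := by
                gcongr
                exact min_le_right _ _
            _ = ε / (Lam + 1) * (lam * ‖v‖) := by ring
            _ ≤ _ := by gcongr
        linarith) (right_mem_Icc.2 zero_le_one)
    rw [hp0, hq1, ← map_sub] at hmain
    have h5 : ‖Dps x p (q - p)‖ₑ ≤ ENNReal.ofReal ((1 + ε / (Lam + 1)) * (a - ε * b)) := by
      refine hmain.trans ?_
      rw [ENNReal.ofReal_mul (by positivity)]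
      gcongr
    rw [← ofReal_norm_eq_enorm, ENNReal.ofReal_le_ofReal_iff (by positivity),
      hn _ (hBK hp), ← ha] at h5
    have hbpos : 0 < b := by
      rcases hb0.lt_or_eq with h | h
      · exact h
      · rw [← h] at hab hpos'
        linarith
    have h6 : (1 + ε / (Lam + 1)) * (a - ε * b) < a := by
      have h7 : ε / (Lam + 1) * (a - ε * b) ≤ ε / (Lam + 1) * (Lam * b) := by gcongr
      have h8 : ε / (Lam + 1) * (Lam * b) < ε * b := by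
        calc ε / (Lam + 1) * (Lam * b) = ε * b * (Lam / (Lam + 1)) := by ring
          _ < ε * b * 1 := by
            gcongr
            rw [div_lt_one (by positivity)]
            linarith
          _ = ε * b := mul_one _
      linarith
    linarith

end Riemannian

end Pool.Agent.TH317.CC
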