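import Pool.Agent.TH32.H.Lim

/-! Job 2204 (TZH-FIN): final assembly. -/

set_option autoImplicit false

namespace Pool.Agent.TH740.TZH

open Polynomial Pool.Agent.H260TZ Pool.Agent.TH32

theorem getD_addF : ∀ (f g : Fm) (j : ℕ), (addF f g).getD j 0 = f.getD j 0 + g.getD j 0
  | [], g, j => by simp [addF]
  | a :: f, [], j => by simp [addF]
  | a :: f, b :: g, 0 => by simp [addF]
  | a :: f, b :: g, j + 1 => by
    simp only [addF, List.getD_cons_succ]
    exact getD_addF f g j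

theorem pval_eq (Λ : ℤ) (s : ℚ) (l : List ℤ) (n : ℕ) (hn : l.length ≤ n) :
    pval Λ s l = ∑ j ∈ Finset.range n, (l.getD j 0 : ℚ) / (Λ * s ^ (j + 1)) := by
  unfold pval
  refine Finset.sum_subset (Finset.range_mono hn) fun j _ hj => ?_
  rw [Finset.mem_range, not_lt] at hj
  rw [List.getD_eq_default _ _ hj]
  simp

theorem pval_addF (Λ : ℤ) (s : ℚ) (f g : List ℤ) :
    pval Λ s (addF f g) = pval Λ s f + pval Λ s g := by
  set n := max (addF f g).length (max f.length g.length) with hn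
  rw [pval_eq Λ s (addF f g) n (by omega), pval_eq Λ s f n (by omega),
    pval_eq Λ s g n (by omega), ← Finset.sum_add_distrib]
  refine Finset.sum_congr rfl fun j _ => ?_
  rw [getD_addF]
  push_cast
  ring

theorem pval_smul (Λ : ℤ) (s : ℚ) (c : ℤ) (f : List ℤ) :
    pval Λ s (f.map (fun a => c * a)) = c * pval Λ s f := by
  unfold pval
  rw [List.length_map, Finset.mul_sum]
  refine Finset.sum_congr rfl fun j _ => ?_
  have : (f.map (fun a => c * a)).getD j 0 = c * f.getD j 0 := by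
    rcases lt_or_ge j f.length with h | h
    · rw [List.getD_eq_getElem _ _ (by simpa using h), List.getD_eq_getElem _ _ h,
        List.getElem_map]
    · rw [List.getD_eq_default _ _ (by simpa using h), List.getD_eq_default _ _ h, mul_zero]
  rw [this]
  push_cast
  ring

theorem pval_zero (Λ : ℤ) (s : ℚ) (l : List ℤ) (h : ∀ a ∈ l, a = 0) : pval Λ s l = 0 := by
  unfold pval
  refine Finset.sum_eq_zero fun j hj => ?_
  have hj' : j < l.length := Finset.mem_range.1 hj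
  rw [List.getD_eq_getElem _ _ hj', h _ (List.getElem_mem _)]
  simp

theorem finite_fac (d : ℤ × ℤ) (hd : okd d = true) :
    {s : ℤ | (d.2 : ℚ) * (s : ℚ) - d.1 = 0}.Finite := by
  unfold okd at hd
  simp only [Bool.or_eq_true, Bool.and_eq_true, decide_eq_true_eq] at hd
  refine Set.Subsingleton.finite ?_
  intro s hs s' hs'
  simp only [Set.mem_ofPred_eq] at hs hs'
  rcases hd with ⟨h1, h2⟩ | ⟨h1, h2⟩
  · exfalso
    rw [h1] at hs
    simp only [Int.cast_zero, zero_mul, zero_sub, neg_eq_zero, Int.cast_eq_zero] at hs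
    omega
  · have h3 : (d.2 : ℚ) * ((s : ℚ) - s') = 0 := by linear_combination hs - hs'
    have h4 : (d.2 : ℚ) ≠ 0 := by
      have : d.2 ≠ 0 := by omega
      exact_mod_cast this
    have h5 := (mul_eq_zero.1 h3).resolve_left h4
    rw [sub_eq_zero] at h5
    exact_mod_cast h5

theorem finite_tm (t : Tm) (ht : t.ds.all okd = true) : {s : ℤ | ¬ t.reg s}.Finite := by
  have h1 : {s : ℤ | ¬ t.reg s} ⊆ ⋃ d ∈ {d | d ∈ t.ds}, {s : ℤ | (d.2 : ℚ) * (s : ℚ) - d.1 = 0} := by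
    intro s hs
    simp only [Set.mem_ofPred_eq, Tm.reg] at hs
    push Not at hs
    obtain ⟨d, hd, h⟩ := hs
    simp only [Set.mem_iUnion]
    exact ⟨d, hd, h⟩
  refine Set.Finite.subset (Set.Finite.biUnion (List.finite_toSet t.ds) fun d hd => ?_) h1
  exact finite_fac d (List.all_eq_true.1 ht d hd)

theorem finite_list (L : List Tm) (hL : ∀ t ∈ L, t.ds.all okd = true) :
    {s : ℤ | ¬ ∀ t ∈ L, t.reg s}.Finite := by
  have h1 : {s : ℤ | ¬ ∀ t ∈ L, t.reg s} ⊆ ⋃ t ∈ {t | t ∈ L}, {s : ℤ | ¬ t.reg s} := by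
    intro s hs
    simp only [Set.mem_ofPred_eq] at hs
    push Not at hs
    obtain ⟨t, ht, h⟩ := hs
    simp only [Set.mem_iUnion]
    exact ⟨t, ht, h⟩
  refine Set.Finite.subset (Set.Finite.biUnion (List.finite_toSet L) fun t ht => ?_) h1
  exact finite_tm t (hL t ht)

theorem kap_nonneg {q : ℝ} (hq : 3 ≤ q) (m u u2 u3 : ℕ) : 0 ≤ kap q m u u2 u3 := by
  have h0 : 0 < q := by linarith
  have h1 : 3 * q⁻¹ ≤ 1 := by rw [← div_eq_mul_inv, div_le_one h0]; exact hq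
  have h2 : 0 ≤ q⁻¹ := inv_nonneg.2 h0.le
  unfold kap
  have a1 : 0 ≤ 1 - q⁻¹ := by linarith
  have a2 : 0 ≤ 1 - 2 * q⁻¹ := by linarith
  have a3 : 0 ≤ 1 - 3 * q⁻¹ := by linarith
  positivity

/-- the data extracted from a list of blocks -/
structure Ext (Λ : ℤ) (bs : List Blk) (P : List (List ℤ × List ℤ)) (L : List PB) : Prop where
  ok : ∀ p ∈ L, p.ok
  val : ∀ (q : ℕ) (x : ℝ), 3 ≤ q → 0 < x → x ≤ ((q : ℝ)⁻¹) ^ 5 →
    0 ≤ (L.map (fun p => p.val q x)).sum ∧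
      bsum q x bs = ENNReal.ofReal ((L.map (fun p => p.val q x)).sum)
  lim : ∃ (N Dn : ℚ[X]) (H : Set ℤ), Dn.eval 0 ≠ 0 ∧ H.Finite ∧ ∀ s : ℤ, s ∉ H →
    Dn.eval (s : ℚ) ≠ 0 ∧
      (L.map (PB.lim s)).sum = pval Λ s (polSum bs P) + N.eval (s : ℚ) / Dn.eval (s : ℚ)

theorem top_ok {u : ℕ} {L : List Tm} (h : okL L) : ∀ t ∈ top u L, t.ds.all okd = true := by
  intro t ht
  unfold top at ht
  exact (h t (List.mem_of_mem_filter ht)).2

theorem ext_exists (hPol : PolStmt) (Λ : ℤ) (hΛ : Λ ≠ 0) :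
    ∀ (bs : List Blk) (P : List (List ℤ × List ℤ)),
      List.Forall₂ (fun (B : Blk) (p : List ℤ × List ℤ) =>
        Good B.K B.u Λ B.A p.1 ∧ Good B.K (B.u + 1) Λ B.B p.2) bs P →
      ∃ L, Ext Λ bs P L := by
  intro bs P hF
  induction hF with
  | nil =>
    refine ⟨[], ⟨by simp, ?_, ?_⟩⟩
    · intro q x _ _ _
      simp [bsum]
    · refine ⟨0, 1, ∅, by simp, Set.finite_empty, fun s _ => ?_⟩
      simp [pval, polSum]
  | @cons B p bs P hB _ ih =>
    obtain ⟨L, hL⟩ := ih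
    obtain ⟨⟨LA, okA, lenA, polA, serA⟩, ⟨LB, okB, lenB, polB, serB⟩⟩ := hB
    refine ⟨⟨B.m, B.u, B.u2, B.u3, LA⟩ :: ⟨B.m, B.u + 1, B.u2, B.u3, LB⟩ :: L, ?_⟩
    refine ⟨?_, ?_, ?_⟩
    · intro r hr
      rw [List.mem_cons, List.mem_cons] at hr
      rcases hr with rfl | rfl | hr
      · exact ⟨okA, lenA⟩
      · exact ⟨okB, lenB⟩
      · exact hL.ok r hr
    · intro q x hq hx hx5
      have hqR : (3 : ℝ) ≤ q := by exact_mod_cast hq
      obtain ⟨hv0, hv⟩ := hL.val q x hq hx hx5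
      obtain ⟨hA0, hA⟩ := serA q x (by linarith) hx hx5
      obtain ⟨hB0, hB'⟩ := serB q x (by linarith) hx hx5
      have hk := kap_nonneg hqR B.m B.u B.u2 B.u3
      have hq1 : (0 : ℝ) ≤ 1 - (q : ℝ)⁻¹ := by
        have : (q : ℝ)⁻¹ ≤ 1 := inv_le_one_of_one_le₀ (by linarith)
        linarith
      have e1 : kap q B.m (B.u + 1) B.u2 B.u3 = kap q B.m B.u B.u2 B.u3 * (1 - (q : ℝ)⁻¹) := by
        unfold kap; ring
      have e2 : (PB.val q x ⟨B.m, B.u, B.u2, B.u3, LA⟩ + PB.val q x ⟨B.m, B.u + 1, B.u2, B.u3, LB⟩) =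
          kap q B.m B.u B.u2 B.u3 * (sv q x LA + (1 - (q : ℝ)⁻¹) * sv q x LB) := by
        simp only [PB.val, e1]; ring
      have e3 : 0 ≤ sv q x LA + (1 - (q : ℝ)⁻¹) * sv q x LB :=
        add_nonneg hA0 (mul_nonneg hq1 hB0)
      have e4 : 0 ≤ PB.val q x ⟨B.m, B.u, B.u2, B.u3, LA⟩ +
          PB.val q x ⟨B.m, B.u + 1, B.u2, B.u3, LB⟩ := by
        rw [e2]; exact mul_nonneg hk e3
      have e5 : ((⟨B.m, B.u, B.u2, B.u3, LA⟩ :: ⟨B.m, B.u + 1, B.u2, B.u3, LB⟩ :: L).map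
          (fun p : PB => p.val q x)).sum =
          (PB.val q x ⟨B.m, B.u, B.u2, B.u3, LA⟩ + PB.val q x ⟨B.m, B.u + 1, B.u2, B.u3, LB⟩) +
            (L.map (fun p => p.val q x)).sum := by
        simp only [List.map_cons, List.sum_cons]; ring
      rw [e5]
      refine ⟨add_nonneg e4 hv0, ?_⟩
      have e6 : bsum q x (B :: bs) = B.sum q x + bsum q x bs := by
        simp [bsum]
      rw [e6, hv, ENNReal.ofReal_add e4 hv0]
      congr 1
      unfold Blk.sum
      rw [hA, hB', e2, ← ENNReal.ofReal_mul hq1, ← ENNReal.ofReal_add hA0 (mul_nonneg hq1 hB0),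
        ← ENNReal.ofReal_mul hk]
    · obtain ⟨N0, D0, H0, hD0, hH0, h0⟩ := hL.lim
      obtain ⟨NA, DA, hDA, hA⟩ := hPol Λ (top B.u LA) p.1 hΛ (top_ok okA) polA
      obtain ⟨NB, DB, hDB, hB⟩ := hPol Λ (top (B.u + 1) LB) p.2 hΛ (top_ok okB) polB
      set κ : ℚ := (B.m : ℚ) * (-1) ^ B.u2 * (-2) ^ B.u3 with hκ
      refine ⟨C κ * (NA * DB + NB * DA) * D0 + N0 * (DA * DB), DA * DB * D0,
        H0 ∪ ({0} ∪ ({s : ℤ | ¬ ∀ t ∈ top B.u LA, t.reg s} ∪
          {s : ℤ | ¬ ∀ t ∈ top (B.u + 1) LB, t.reg s})), ?_, ?_, ?_⟩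
      · simp only [eval_mul]
        exact mul_ne_zero (mul_ne_zero hDA hDB) hD0
      · exact hH0.union ((Set.finite_singleton 0).union
          ((finite_list _ (top_ok okA)).union (finite_list _ (top_ok okB))))
      · intro s hs
        simp only [Set.mem_union, Set.mem_singleton_iff, Set.mem_ofPred_eq, not_or, not_not] at hs
        obtain ⟨hs0, hs1, hs2, hs3⟩ := hs
        have hsq : (s : ℚ) ≠ 0 := by exact_mod_cast hs1
        obtain ⟨hD0s, e0⟩ := h0 s hs0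
        obtain ⟨hDAs, eA⟩ := hA s hsq hs2
        obtain ⟨hDBs, eB⟩ := hB s hsq hs3
        refine ⟨by simp only [eval_mul]; exact mul_ne_zero (mul_ne_zero hDAs hDBs) hD0s, ?_⟩
        simp only [List.map_cons, List.sum_cons, PB.lim]
        rw [eA, eB, e0]
        have e1 : polSum (B :: bs) (p :: P) =
          addF ((addF p.1 p.2).map (fun a => (B.m : ℤ) * (-1) ^ B.u2 * (-2) ^ B.u3 * a))
            (polSum bs P) := rfl
        rw [e1, pval_addF, pval_smul, pval_addF]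
        simp only [eval_mul, eval_add, eval_C]
        push_cast
        rw [← hκ]
        field_simp
        ring

theorem fin : FinalAsm := by
  intro hS2 hS3 hTop hPol Λ P hΛ hF hz
  obtain ⟨L, hL⟩ := ext_exists hPol Λ hΛ blks P hF
  obtain ⟨N, Dn, H, hD0, hH, hlim⟩ := hL.lim
  refine ⟨N, Dn, ?_, hD0⟩
  have hDn : Dn ≠ 0 := by
    rintro rfl
    exact hD0 (by simp)
  refine hTop L hL.ok ?_ N Dn H hDn hH fun s hs => ?_
  · intro R _ _ D x hq hx hx5
    obtain ⟨hv0, hv⟩ := hL.val D.q x hq hx hx5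
    have h1 := hS2 R D x hx hq
    rw [hS3 D.q x hq hx, hv] at h1
    have h2 : (∑' U : FinSub cH R,
        ENNReal.ofReal (x ^ Nat.log D.q (Nat.card ((Fin 4 → R) ⧸ U.1)))) ≠ ⊤ := by
      rw [h1]; exact ENNReal.ofReal_ne_top
    have h3 := ENNReal.hasSum_toReal h2
    rw [← ENNReal.tsum_toReal_eq (fun _ => ENNReal.ofReal_ne_top), h1,
      ENNReal.toReal_ofReal hv0] at h3
    refine h3.congr_fun ?_
    intro U
    rw [ENNReal.toReal_ofReal (by positivity)]
  · obtain ⟨h1, h2⟩ := hlim s hs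
    refine ⟨h1, ?_⟩
    rw [h2, pval_zero Λ s _ hz, zero_add]

end Pool.Agent.TH740.TZH
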