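import Pool.Agent.TH32.H.Fast

/-! Job 2979 (TZH-FQa): packed columns. -/

set_option autoImplicit false

namespace Pool.Agent.TH740.FQA

open Polynomial Pool.Agent.H260TZ Pool.Agent.TH32 Finset

/-- number with digits `d` in base `2 ^ w` -/
def B (w : ℕ) (d : ℕ → ℕ) (n : ℕ) : ℕ := ∑ a ∈ range n, d a * 2 ^ (w * a)

theorem B_zero (w : ℕ) (d : ℕ → ℕ) : B w d 0 = 0 := by simp [B]

theorem B_succ (w : ℕ) (d : ℕ → ℕ) (n : ℕ) :
    B w d (n + 1) = d 0 + 2 ^ w * B w (fun a => d (a + 1)) n := by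
  unfold B
  rw [sum_range_succ', mul_sum, add_comm]
  simp only [mul_zero, pow_zero, mul_one]
  congr 1
  refine sum_congr rfl fun a _ => ?_
  rw [mul_add, pow_add, mul_one]
  ring

theorem B_lt (w : ℕ) : ∀ (n : ℕ) (d : ℕ → ℕ) (_ : ∀ a < n, d a < 2 ^ w), B w d n < 2 ^ (w * n)
  | 0, d, _ => by simp [B_zero]
  | n + 1, d, h => by
    rw [B_succ]
    have h1 := B_lt w n (fun a => d (a + 1)) (fun a ha => h (a + 1) (by omega))
    have h2 := h 0 (by omega)
    rw [mul_add, pow_add, mul_one]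
    have h3 : B w (fun a => d (a + 1)) n + 1 ≤ 2 ^ (w * n) := h1
    calc d 0 + 2 ^ w * B w (fun a => d (a + 1)) n
        < 2 ^ w + 2 ^ w * B w (fun a => d (a + 1)) n := by omega
      _ = 2 ^ w * (B w (fun a => d (a + 1)) n + 1) := by ring
      _ ≤ 2 ^ w * 2 ^ (w * n) := Nat.mul_le_mul_left _ h3
      _ = 2 ^ (w * n) * 2 ^ w := mul_comm _ _

theorem B_div (w : ℕ) : ∀ (i n : ℕ) (d : ℕ → ℕ) (_ : ∀ a < n, d a < 2 ^ w) (_ : i ≤ n),
    B w d n / 2 ^ (w * i) = B w (fun a => d (a + i)) (n - i)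
  | 0, n, d, _, _ => by simp
  | i + 1, 0, d, _, h => by omega
  | i + 1, n + 1, d, hd, h => by
    have h1 := B_div w i n (fun a => d (a + 1)) (fun a ha => hd (a + 1) (by omega)) (by omega)
    have h2 : w * (i + 1) = w + w * i := by ring
    rw [B_succ, h2, pow_add, ← Nat.div_div_eq_div_mul, Nat.add_mul_div_left _ _ (by positivity),
      Nat.div_eq_of_lt (hd 0 (by omega)), zero_add, h1]
    have h3 : n + 1 - (i + 1) = n - i := by omega
    rw [h3]
    rfl

theorem B_digit (w n : ℕ) (d : ℕ → ℕ) (hd : ∀ a < n, d a < 2 ^ w) (i : ℕ) (hi : i < n) :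
    B w d n / 2 ^ (w * i) % 2 ^ w = d i := by
  rw [B_div w i n d hd hi.le]
  obtain ⟨k, hk⟩ : ∃ k, n - i = k + 1 := ⟨n - i - 1, by omega⟩
  rw [hk, B_succ, Nat.add_mul_mod_self_left]
  simp only [zero_add]
  exact Nat.mod_eq_of_lt (hd i hi)

theorem B_testBit (w n : ℕ) (d : ℕ → ℕ) (hd : ∀ a < n, d a < 2 ^ w) (i : ℕ) (hi : i < n)
    (b : ℕ) (hb : b < w) : (B w d n).testBit (w * i + b) = (d i).testBit b := by
  rw [← B_digit w n d hd i hi, Nat.testBit_mod_two_pow, Nat.testBit_div_two_pow]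
  simp only [hb, decide_true, Bool.true_and]
  rw [add_comm]

/-- the columns -/
def cq (fs : List Fm) (i k : ℕ) : ℕ := (enq fs k i + 549755813888).toNat

theorem pkQ_eq : ∀ (l : List ℤ),
    pkQ l = B 40 (fun k => (l.getD k 0 + 549755813888).toNat) l.length
  | [] => by simp [pkQ, B_zero]
  | a :: l => by
    rw [pkQ, List.length_cons, B_succ, pkQ_eq l]
    simp only [List.getD_cons_zero, List.getD_cons_succ]
    norm_num

theorem map_getD (fs : List Fm) (i k : ℕ) :
    (fs.map (fun f => f.getD i 0)).getD k 0 = enq fs k i := by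
  unfold enq
  rcases lt_or_ge k fs.length with h | h
  · rw [List.getD_eq_getElem _ _ (by simpa using h), List.getD_eq_getElem _ _ h, List.getElem_map]
  · rw [List.getD_eq_default _ _ (by simpa using h), List.getD_eq_default _ _ h]
    simp

/-- column `i` -/
def CQ (fs : List Fm) (i : ℕ) : ℕ := B 40 (cq fs i) fs.length

theorem col_eq (fs : List Fm) (i : ℕ) : pkQ (fs.map (fun f => f.getD i 0)) = CQ fs i := by
  rw [pkQ_eq, List.length_map]
  unfold CQ
  congr 1
  funext k
  rw [map_getD]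
  rfl

theorem stQ_eq (fs : List Fm) (S : ℕ) : ∀ (n i : ℕ), stQ fs S i n = B S (fun a => CQ fs (i + a)) n
  | 0, i => by simp [stQ, B_zero]
  | n + 1, i => by
    rw [stQ, col_eq, stQ_eq fs S n (i + 1), B_succ]
    have h : Nat.shiftLeft (B S (fun a => CQ fs (i + 1 + a)) n) S =
        (B S (fun a => CQ fs (i + 1 + a)) n) <<< S := rfl
    rw [h, Nat.shiftLeft_eq, mul_comm]
    simp only [add_zero]
    congr 2
    congr 1
    funext a
    congr 1
    ring

theorem stP_eq (fs : List Fm) : stP fs = B (40 * fs.length) (CQ fs) 8 := by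
  unfold stP
  rw [stQ_eq]
  congr 1
  funext a
  rw [zero_add]

theorem zQ_eq : ∀ n : ℕ, zQ n = B 40 (fun _ => 549755813888) n
  | 0 => by simp [zQ, B_zero]
  | n + 1 => by
    rw [zQ, B_succ, zQ_eq n]
    norm_num

theorem oQ_eq : ∀ n : ℕ, oQ n = B 40 (fun _ => 1) n
  | 0 => by simp [oQ, B_zero]
  | n + 1 => by
    rw [oQ, B_succ, oQ_eq n]
    norm_num

theorem repQ_eq (Z S : ℕ) : ∀ n : ℕ, repQ Z S n = B S (fun _ => Z) n
  | 0 => by simp [repQ, B_zero]
  | n + 1 => by
    rw [repQ, B_succ, repQ_eq Z S n]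
    have h : Nat.shiftLeft (B S (fun _ => Z) n) S = (B S (fun _ => Z) n) <<< S := rfl
    rw [h, Nat.shiftLeft_eq, mul_comm]

theorem enq_bd (fs : List Fm) (b : ℤ) (hb : 0 < b) (h : Bd b fs) (k i : ℕ) : |enq fs k i| < b := by
  unfold enq
  rcases lt_or_ge k fs.length with hk | hk
  · rw [List.getD_eq_getElem _ _ hk]
    have h1 := h _ (List.getElem_mem hk)
    rcases lt_or_ge i (fs[k]).length with hi | hi
    · rw [List.getD_eq_getElem _ _ hi]
      exact h1 _ (List.getElem_mem hi)
    · rw [List.getD_eq_default _ _ hi]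
      simpa using hb
  · rw [List.getD_eq_default _ _ hk]
    simpa using hb

theorem cq_cast (fs : List Fm) (h : Bd 274877906944 fs) (i k : ℕ) :
    ((cq fs i k : ℕ) : ℤ) = enq fs k i + 549755813888 := by
  have := abs_lt.1 (enq_bd fs _ (by norm_num) h k i)
  unfold cq
  rw [Int.toNat_of_nonneg (by omega)]

theorem cq_lt (fs : List Fm) (h : Bd 274877906944 fs) (i k : ℕ) : cq fs i k < 2 ^ 40 := by
  have h1 := abs_lt.1 (enq_bd fs _ (by norm_num) h k i)
  have h2 := cq_cast fs h i k
  have : ((2 ^ 40 : ℕ) : ℤ) = 1099511627776 := by norm_num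
  zify
  rw [h2]
  norm_num
  omega

theorem CQ_lt (fs : List Fm) (h : Bd 274877906944 fs) (i : ℕ) : CQ fs i < 2 ^ (40 * fs.length) :=
  B_lt 40 _ _ (fun k _ => cq_lt fs h i k)

theorem colQ_eq (fs : List Fm) (h : Bd 274877906944 fs) (i : ℕ) (hi : i < 8) :
    colQ (40 * fs.length) (stP fs) i = CQ fs i := by
  have h1 : colQ (40 * fs.length) (stP fs) i =
      (stP fs >>> (40 * fs.length * i)) % (1 <<< (40 * fs.length)) := rfl
  rw [h1, Nat.shiftRight_eq_div_pow, Nat.shiftLeft_eq, one_mul, stP_eq]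
  exact B_digit _ 8 _ (fun a _ => CQ_lt fs h a) i hi

/-- digitwise linear identity -/
theorem B_add (w : ℕ) (d e : ℕ → ℕ) (n : ℕ) : B w d n + B w e n = B w (fun a => d a + e a) n := by
  unfold B
  rw [← sum_add_distrib]
  exact sum_congr rfl fun a _ => by ring

theorem B_congr (w : ℕ) (d e : ℕ → ℕ) (n : ℕ) (h : ∀ a < n, d a = e a) : B w d n = B w e n := by
  unfold B
  exact sum_congr rfl fun a ha => by rw [h a (mem_range.1 ha)]

theorem B_single (w : ℕ) (x i n : ℕ) (hi : i < n) :
    B w (fun a => if a = i then x else 0) n = x * 2 ^ (w * i) := by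
  unfold B
  rw [sum_eq_single i]
  · simp
  · intro b _ hb
    simp [hb]
  · intro h
    exact absurd (mem_range.2 hi) h

theorem getD_set (f : Fm) (i j : ℕ) : (f.set i 0).getD j 0 = if j = i then 0 else f.getD j 0 := by
  by_cases h : j = i
  · subst h
    rw [if_pos rfl]
    rcases lt_or_ge j f.length with hj | hj
    · rw [List.getD_eq_getElem _ _ (by simpa using hj)]
      simp
    · rw [List.getD_eq_default _ _ (by simpa using hj)]
  · rw [if_neg h]
    simp only [List.getD_eq_getElem?_getD]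
    rw [List.getElem?_set_ne (fun h' => h h'.symm)]

theorem getD_putF : ∀ (f : Fm) (i : ℕ) (a : ℤ) (j : ℕ),
    (putF f i a).getD j 0 = f.getD j 0 + if j = i then a else 0
  | [], 0, a, 0 => by simp [putF]
  | [], 0, a, j + 1 => by simp [putF]
  | [], i + 1, a, 0 => by simp [putF]
  | [], i + 1, a, j + 1 => by
    rw [putF, List.getD_cons_succ, getD_putF [] i a j]
    simp
  | b :: f, 0, a, 0 => by simp [putF]
  | b :: f, 0, a, j + 1 => by simp [putF]
  | b :: f, i + 1, a, 0 => by simp [putF]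
  | b :: f, i + 1, a, j + 1 => by
    rw [putF, List.getD_cons_succ, getD_putF f i a j, List.getD_cons_succ]
    simp

theorem enq_map (fs : List Fm) (g : Fm → Fm) (k i : ℕ) (hk : k < fs.length) :
    enq (fs.map g) k i = (g (fs.getD k [])).getD i 0 := by
  unfold enq
  have h1 : (fs.map g).getD k [] = g (fs.getD k []) := by
    rw [List.getD_eq_getElem (fs.map g) [] (by simpa using hk), List.getElem_map,
      List.getD_eq_getElem fs [] hk]
  rw [h1]

theorem part1 (fs : List Fm) (h : Bd 274877906944 fs) (i j : ℕ) (hi : i < 8) (hj : j < 8) :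
    bumpQ (40 * fs.length) (zQ fs.length) (stP fs) i j = stP (fs.map (fun f => bump f i j)) := by
  have h1 : bumpQ (40 * fs.length) (zQ fs.length) (stP fs) i j =
      stP fs + CQ fs j <<< (40 * fs.length * i) - zQ fs.length <<< (40 * fs.length * i) := by
    rw [← colQ_eq fs h j hj]
    rfl
  rw [h1, Nat.shiftLeft_eq, Nat.shiftLeft_eq]
  apply Nat.sub_eq_of_eq_add
  rw [stP_eq, stP_eq, List.length_map, ← B_single _ _ i 8 hi, ← B_single _ (zQ fs.length) i 8 hi,
    B_add, B_add]
  apply B_congr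
  intro a _
  -- column a
  unfold CQ
  rw [List.length_map]
  have hc : ∀ k < fs.length, (cq (fs.map (fun f => bump f i j)) a k : ℤ) =
      enq fs k a + (if a = i then enq fs k j else 0) + 549755813888 := by
    intro k hk
    have e1 : enq (fs.map (fun f => bump f i j)) k a =
        enq fs k a + if a = i then enq fs k j else 0 := by
      rw [enq_map _ _ _ _ hk]
      simp only [bump]
      rw [getD_putF]
      rfl
    unfold cq
    rw [e1]
    have h2 := abs_lt.1 (enq_bd fs _ (by norm_num) h k a)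
    have h3 := abs_lt.1 (enq_bd fs _ (by norm_num) h k j)
    rw [Int.toNat_of_nonneg]
    split_ifs <;> omega
  by_cases ha : a = i
  · rw [if_pos ha, if_pos ha, zQ_eq, B_add, B_add]
    apply B_congr
    intro k hk
    have h2 := hc k hk
    rw [if_pos ha] at h2
    have h3 := cq_cast fs h a k
    have h4 := cq_cast fs h j k
    omega
  · rw [if_neg ha, if_neg ha, add_zero, add_zero]
    apply B_congr
    intro k hk
    have h2 := hc k hk
    rw [if_neg ha] at h2
    have h3 := cq_cast fs h a k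
    omega

theorem part2 (fs : List Fm) (h : Bd 274877906944 fs) (i : ℕ) (hi : i < 8) :
    zeroQ (40 * fs.length) (zQ fs.length) (stP fs) i = stP (fs.map (fun f => f.set i 0)) := by
  have h1 : zeroQ (40 * fs.length) (zQ fs.length) (stP fs) i =
      stP fs + zQ fs.length <<< (40 * fs.length * i) - CQ fs i <<< (40 * fs.length * i) := by
    rw [← colQ_eq fs h i hi]
    rfl
  rw [h1, Nat.shiftLeft_eq, Nat.shiftLeft_eq]
  apply Nat.sub_eq_of_eq_add
  rw [stP_eq, stP_eq, List.length_map, ← B_single _ _ i 8 hi, ← B_single _ (CQ fs i) i 8 hi,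
    B_add, B_add]
  apply B_congr
  intro a _
  have hc : ∀ k < fs.length, (cq (fs.map (fun f => f.set i 0)) a k : ℤ) =
      (if a = i then 0 else enq fs k a) + 549755813888 := by
    intro k hk
    have e1 : enq (fs.map (fun f => f.set i 0)) k a = if a = i then 0 else enq fs k a := by
      rw [enq_map _ _ _ _ hk, getD_set]
      rfl
    unfold cq
    rw [e1]
    have h2 := abs_lt.1 (enq_bd fs _ (by norm_num) h k a)
    rw [Int.toNat_of_nonneg]
    split_ifs <;> omega
  by_cases ha : a = i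
  · rw [if_pos ha, if_pos ha, zQ_eq]
    unfold CQ
    rw [List.length_map, B_add, B_add]
    apply B_congr
    intro k hk
    have h2 := hc k hk
    rw [if_pos ha] at h2
    have h3 := cq_cast fs h a k
    have h4 := cq_cast fs h i k
    subst ha
    omega
  · rw [if_neg ha, if_neg ha, add_zero, add_zero]
    unfold CQ
    rw [List.length_map]
    apply B_congr
    intro k hk
    have h2 := hc k hk
    rw [if_neg ha] at h2
    have h3 := cq_cast fs h a k
    omega

theorem fold_bit (S x p : ℕ) : (foldQ S x).testBit p = true ↔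
    ∀ i < 8, x.testBit (S * i + p) = true := by
  have h1 : foldQ S x = (x &&& (x >>> S)) &&& ((x &&& (x >>> S)) >>> (2 * S)) &&&
      (((x &&& (x >>> S)) &&& ((x &&& (x >>> S)) >>> (2 * S))) >>> (4 * S)) := rfl
  rw [h1]
  simp only [Nat.testBit_land, Nat.testBit_shiftRight, Bool.and_eq_true]
  constructor
  · rintro ⟨⟨⟨a0, a1⟩, a2, a3⟩, ⟨a4, a5⟩, a6, a7⟩ i hi
    interval_cases i
    · simpa using a0
    · simpa using a1
    · rw [show S * 2 + p = 2 * S + p by ring]; exact a2
    · rw [show S * 3 + p = S + (2 * S + p) by ring]; exact a3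
    · rw [show S * 4 + p = 4 * S + p by ring]; exact a4
    · rw [show S * 5 + p = S + (4 * S + p) by ring]; exact a5
    · rw [show S * 6 + p = 2 * S + (4 * S + p) by ring]; exact a6
    · rw [show S * 7 + p = S + (2 * S + (4 * S + p)) by ring]; exact a7
  · intro h
    refine ⟨⟨⟨?_, ?_⟩, ?_, ?_⟩, ⟨?_, ?_⟩, ?_, ?_⟩
    · simpa using h 0 (by norm_num)
    · simpa using h 1 (by norm_num)
    · rw [show 2 * S + p = S * 2 + p by ring]; exact h 2 (by norm_num)
    · rw [show S + (2 * S + p) = S * 3 + p by ring]; exact h 3 (by norm_num)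
    · rw [show 4 * S + p = S * 4 + p by ring]; exact h 4 (by norm_num)
    · rw [show S + (4 * S + p) = S * 5 + p by ring]; exact h 5 (by norm_num)
    · rw [show 2 * S + (4 * S + p) = S * 6 + p by ring]; exact h 6 (by norm_num)
    · rw [show S + (2 * S + (4 * S + p)) = S * 7 + p by ring]; exact h 7 (by norm_num)

theorem bit39 (x : ℕ) (hx : x < 2 ^ 40) : x.testBit 39 = true ↔ 549755813888 ≤ x := by
  rw [Nat.testBit_eq_decide_div_mod_eq]
  simp only [decide_eq_true_eq]
  norm_num at hx ⊢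
  omega

theorem zQ_bit (n k : ℕ) (hk : k < n) : (zQ n).testBit (40 * k + 39) = true := by
  rw [zQ_eq, B_testBit 40 n _ (fun _ _ => by norm_num) k hk 39 (by norm_num), bit39 _ (by norm_num)]

theorem zQ_bit' (n p : ℕ) (h : (zQ n).testBit p = true) : ∃ k < n, p = 40 * k + 39 := by
  have hlt : zQ n < 2 ^ (40 * n) := by
    rw [zQ_eq]
    exact B_lt 40 n _ (fun _ _ => by norm_num)
  have hk : p / 40 < n := by
    by_contra hc
    rw [not_lt] at hc
    have h1 : 40 * n ≤ p := by omega
    rw [Nat.testBit_lt_two_pow (lt_of_lt_of_le hlt (Nat.pow_le_pow_right (by norm_num) h1))] at h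
    exact absurd h (by simp)
  refine ⟨p / 40, hk, ?_⟩
  have hb : p % 40 < 40 := Nat.mod_lt _ (by norm_num)
  have h2 : p = 40 * (p / 40) + p % 40 := (Nat.div_add_mod p 40).symm
  rw [h2, zQ_eq, B_testBit 40 n _ (fun _ _ => by norm_num) (p / 40) hk (p % 40) hb] at h
  have h3 : (549755813888 : ℕ) = 2 ^ 39 := by norm_num
  rw [h3, Nat.testBit_two_pow] at h
  have h4 : 39 = p % 40 := by simpa using h
  omega

theorem part3 (fs : List Fm) (h : Bd 274877906944 fs) (nc : ℕ) (hnc : nc ≤ fs.length)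
    (hl : Nat.land (foldQ (40 * fs.length) (stP fs)) (zQ nc) = zQ nc) (k : ℕ) (hk : k < nc)
    (i : ℕ) (hi : i < 8) : 0 ≤ enq fs k i := by
  have h1 : (foldQ (40 * fs.length) (stP fs)).testBit (40 * k + 39) = true := by
    have h2 := zQ_bit nc k hk
    rw [← hl] at h2
    have h3 : Nat.land (foldQ (40 * fs.length) (stP fs)) (zQ nc) =
      (foldQ (40 * fs.length) (stP fs)) &&& (zQ nc) := rfl
    rw [h3, Nat.testBit_land, Bool.and_eq_true] at h2
    exact h2.1
  rw [fold_bit] at h1
  have h2 := h1 i hi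
  rw [stP_eq, B_testBit _ 8 _ (fun a _ => CQ_lt fs h a) i hi _ (by omega)] at h2
  unfold CQ at h2
  rw [B_testBit 40 _ _ (fun k _ => cq_lt fs h i k) k (by omega) 39 (by norm_num),
    bit39 _ (cq_lt fs h i k)] at h2
  have h3 := cq_cast fs h i k
  omega

/-- the digits of the complement -/
def dq (fs : List Fm) (i k : ℕ) : ℕ :=
  (549755813888 - enq fs k i - if i = 0 then 1 else 0).toNat

theorem dq_cast (fs : List Fm) (h : Bd 274877906944 fs) (i k : ℕ) :
    ((dq fs i k : ℕ) : ℤ) = 549755813888 - enq fs k i - if i = 0 then 1 else 0 := by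
  have := abs_lt.1 (enq_bd fs _ (by norm_num) h k i)
  unfold dq
  rw [Int.toNat_of_nonneg]
  split_ifs <;> omega

theorem dq_lt (fs : List Fm) (h : Bd 274877906944 fs) (i k : ℕ) : dq fs i k < 2 ^ 40 := by
  have h1 := abs_lt.1 (enq_bd fs _ (by norm_num) h k i)
  have h2 := dq_cast fs h i k
  zify
  rw [h2]
  norm_num
  split_ifs <;> omega

theorem part4 (fs : List Fm) (h : Bd 274877906944 fs) (nc : ℕ) (hnc : nc ≤ fs.length)
    (hl : Nat.land (foldQ (40 * fs.length) (repQ (2 * zQ fs.length) (40 * fs.length) 8 -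
      oQ fs.length - stP fs)) (zQ nc) ≠ 0) :
    ∃ k < nc, enq fs k 0 < 0 ∧ ∀ i, 1 ≤ i → i < 8 → enq fs k i ≤ 0 := by
  have hD : repQ (2 * zQ fs.length) (40 * fs.length) 8 - oQ fs.length - stP fs =
      B (40 * fs.length) (fun i => B 40 (dq fs i) fs.length) 8 := by
    rw [Nat.sub_sub]
    apply Nat.sub_eq_of_eq_add
    have e1 : oQ fs.length =
        B (40 * fs.length) (fun a => if a = 0 then oQ fs.length else 0) 8 := by
      rw [B_single _ _ 0 8 (by norm_num)]
      simp
    rw [e1, stP_eq, repQ_eq, B_add, B_add]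
    apply B_congr
    intro a _
    rw [zQ_eq, oQ_eq]
    unfold CQ
    by_cases ha : a = 0
    · rw [if_pos ha, B_add, B_add, two_mul, B_add]
      apply B_congr
      intro k _
      have h2 := dq_cast fs h a k
      have h3 := cq_cast fs h a k
      rw [if_pos ha] at h2
      omega
    · rw [if_neg ha, zero_add, B_add, two_mul, B_add]
      apply B_congr
      intro k _
      have h2 := dq_cast fs h a k
      have h3 := cq_cast fs h a k
      rw [if_neg ha] at h2
      omega
  rw [hD] at hl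
  obtain ⟨p, hp⟩ := Nat.exists_testBit_of_ne_zero hl
  have h3 : Nat.land (foldQ (40 * fs.length)
      (B (40 * fs.length) (fun i => B 40 (dq fs i) fs.length) 8)) (zQ nc) =
      (foldQ (40 * fs.length) (B (40 * fs.length) (fun i => B 40 (dq fs i) fs.length) 8)) &&&
        (zQ nc) := rfl
  rw [h3, Nat.testBit_land, Bool.and_eq_true] at hp
  obtain ⟨k, hk, rfl⟩ := zQ_bit' nc p hp.2
  have h4 := (fold_bit _ _ _).1 hp.1
  have h5 : ∀ i < 8, 549755813888 ≤ dq fs i k := by
    intro i hi
    have h6 := h4 i hi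
    rw [B_testBit _ 8 _ (fun a _ => B_lt 40 _ _ (fun k _ => dq_lt fs h a k)) i hi _ (by omega),
      B_testBit 40 _ _ (fun k _ => dq_lt fs h i k) k (by omega) 39 (by norm_num),
      bit39 _ (dq_lt fs h i k)] at h6
    exact h6
  refine ⟨k, hk, ?_, fun i hi1 hi8 => ?_⟩
  · have h6 := h5 0 (by norm_num)
    have h7 := dq_cast fs h 0 k
    rw [if_pos rfl] at h7
    omega
  · have h6 := h5 i hi8
    have h7 := dq_cast fs h i k
    rw [if_neg (by omega)] at h7
    omega

theorem part5 (fs : List Fm) (h : Bd 274877906944 fs) (nc : ℕ) (hnc : fs.length = nc + 3)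
    (i : ℕ) (hi : i < 8) :
    (entW (ent (40 * fs.length) (40 * nc) (stP fs) i) : ℤ) = 549755813888 + enq fs nc i ∧
      (entE (ent (40 * fs.length) (40 * nc) (stP fs) i) : ℤ) =
        549755813888 + enq fs (nc + 1) i ∧
      (entF (ent (40 * fs.length) (40 * nc) (stP fs) i) : ℤ) =
        549755813888 + enq fs (nc + 2) i := by
  -- the column
  have hent : ent (40 * fs.length) (40 * nc) (stP fs) i =
      CQ fs i / 2 ^ (40 * nc) % 2 ^ 120 := by
    have h1 : ent (40 * fs.length) (40 * nc) (stP fs) i =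
      (stP fs >>> (40 * fs.length * i + 40 * nc)) % 1329227995784915872903807060280344576 := rfl
    have h2 : (1329227995784915872903807060280344576 : ℕ) = 2 ^ 120 := by norm_num
    rw [h1, h2, Nat.shiftRight_eq_div_pow, pow_add, ← Nat.div_div_eq_div_mul]
    have h3 := B_digit (40 * fs.length) 8 (CQ fs) (fun a _ => CQ_lt fs h a) i hi
    rw [← stP_eq] at h3
    conv_rhs => rw [← h3]
    have h4 : 2 ^ (40 * fs.length) = 2 ^ (40 * nc) * 2 ^ 120 := by
      rw [← pow_add, hnc]
      congr 1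
    rw [h4, Nat.mod_mul_right_div_self, Nat.mod_mod]
  rw [hent]
  have hd : ∀ k < fs.length, CQ fs i / 2 ^ (40 * k) % 2 ^ 40 = cq fs i k := fun k hk =>
    B_digit 40 _ _ (fun k _ => cq_lt fs h i k) k hk
  have h40 : (1099511627776 : ℕ) = 2 ^ 40 := by norm_num
  have h80 : (1208925819614629174706176 : ℕ) = 2 ^ 80 := by norm_num
  refine ⟨?_, ?_, ?_⟩
  · have h1 : entW (CQ fs i / 2 ^ (40 * nc) % 2 ^ 120) =
        CQ fs i / 2 ^ (40 * nc) % 2 ^ 120 % 1099511627776 := rfl
    rw [h1, h40, Nat.mod_mod_of_dvd _ (pow_dvd_pow 2 (by norm_num)), hd nc (by omega),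
      cq_cast fs h i nc]
    ring
  · have h1 : entE (CQ fs i / 2 ^ (40 * nc) % 2 ^ 120) =
        CQ fs i / 2 ^ (40 * nc) % 2 ^ 120 / 1099511627776 % 1099511627776 := rfl
    have h2 : (2 : ℕ) ^ 120 = 2 ^ 40 * 2 ^ 80 := by norm_num
    rw [h1, h40, h2, Nat.mod_mul_right_div_self, Nat.mod_mod_of_dvd _ (pow_dvd_pow 2 (by norm_num)),
      Nat.div_div_eq_div_mul, ← pow_add, show 40 * nc + 40 = 40 * (nc + 1) by ring,
      hd (nc + 1) (by omega), cq_cast fs h i (nc + 1)]
    ring
  · have h1 : entF (CQ fs i / 2 ^ (40 * nc) % 2 ^ 120) =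
        CQ fs i / 2 ^ (40 * nc) % 2 ^ 120 / 1208925819614629174706176 := rfl
    have h2 : (2 : ℕ) ^ 120 = 2 ^ 80 * 2 ^ 40 := by norm_num
    rw [h1, h80, h2, Nat.mod_mul_right_div_self,
      Nat.div_div_eq_div_mul, ← pow_add, show 40 * nc + 80 = 40 * (nc + 2) by ring,
      hd (nc + 2) (by omega), cq_cast fs h i (nc + 2)]
    ring

theorem fqa : FQaStmt := by
  intro fs m S hm hS hB
  subst hm
  subst hS
  exact ⟨fun i j hi hj => part1 fs hB i j hi hj, fun i hi => part2 fs hB i hi,
    fun nc hnc hl k hk i hi => part3 fs hB nc hnc hl k hk i hi,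
    fun nc hnc hl => part4 fs hB nc hnc hl,
    fun nc hnc i hi => part5 fs hB nc hnc i hi⟩

end Pool.Agent.TH740.FQA
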