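import Pool.Agent.TH32.H.Fast

/-! Job 2980 (TZH-FQb): fast leaf. -/

set_option autoImplicit false

namespace Pool.Agent.TH740.FQB

open Polynomial Pool.Agent.H260TZ Pool.Agent.TH32

/-! ### Residues -/

/-- the product of the nonzero constants -/
def R0 (ds : List (ℤ × ℤ)) : ℚ :=
  (ds.map (fun d => if d.1 = 0 then (d.2 : ℚ) else -(d.1 : ℚ))).prod

noncomputable def GP (ds : List (ℤ × ℤ)) : ℚ[X] :=
  (ds.map (fun d => if d.1 = 0 then C (d.2 : ℚ) else C (d.2 : ℚ) * X - C (d.1 : ℚ))).prod

theorem GP_zero : ∀ ds : List (ℤ × ℤ), (GP ds).eval 0 = R0 ds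
  | [] => by simp [GP, R0]
  | d :: ds => by
    have h := GP_zero ds
    simp only [GP, R0, List.map_cons, List.prod_cons, eval_mul] at h ⊢
    rw [h]
    congr 1
    split_ifs <;> simp

theorem GP_prod (s : ℚ) : ∀ ds : List (ℤ × ℤ),
    (ds.map (fun d => (d.2 : ℚ) * s - d.1)).prod = s ^ nz ds * (GP ds).eval s
  | [] => by simp [GP, nz]
  | d :: ds => by
    have h := GP_prod s ds
    simp only [GP, List.map_cons, List.prod_cons, eval_mul] at h ⊢
    rw [h]
    by_cases hd : d.1 = 0
    · have e : nz (d :: ds) = nz ds + 1 := by simp [nz, hd]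
      rw [e, if_pos hd, hd]
      simp only [Int.cast_zero, sub_zero, eval_C]
      ring
    · have e : nz (d :: ds) = nz ds := by simp [nz, hd]
      rw [e, if_neg hd]
      simp only [eval_sub, eval_mul, eval_C, eval_X]
      ring

theorem lim_eq (s : ℚ) (t : Tm) :
    t.lim s = (t.c : ℚ) / (t.ds.map (fun d => (d.2 : ℚ) * s - d.1)).prod := by
  unfold Tm.lim
  have h : ∀ ds : List (ℤ × ℤ), (ds.map (fun d => ((d.2 : ℚ) * s - d.1)⁻¹)).prod =
      ((ds.map (fun d => (d.2 : ℚ) * s - d.1)).prod)⁻¹ := by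
    intro ds
    induction ds with
    | nil => simp
    | cons d ds ih => simp only [List.map_cons, List.prod_cons, ih, mul_inv]
  rw [h, div_eq_mul_inv]

/-- a simple pole with residue `r` -/
def PR (L : List Tm) (r : ℚ) : Prop :=
  ∃ N D : ℚ[X], D.eval 0 ≠ 0 ∧ ∀ s : ℚ, s ≠ 0 → (∀ t ∈ L, t.reg s) →
    D.eval s ≠ 0 ∧ (L.map (Tm.lim s)).sum = r / s + N.eval s / D.eval s

theorem PR_nil : PR [] 0 := ⟨0, 1, by simp, fun s _ _ => by simp⟩

theorem PR_cons {t : Tm} {L : List Tm} {r r' : ℚ} (h : PR [t] r) (h' : PR L r') :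
    PR (t :: L) (r + r') := by
  obtain ⟨N, D, hD, hs⟩ := h
  obtain ⟨N', D', hD', hs'⟩ := h'
  refine ⟨N * D' + N' * D, D * D', by simp [hD, hD'], fun s hs0 hreg => ?_⟩
  obtain ⟨h1, h2⟩ := hs s hs0 (fun t' ht' => hreg t' (by
    rw [List.mem_singleton] at ht'
    rw [ht']
    exact List.mem_cons_self))
  obtain ⟨h3, h4⟩ := hs' s hs0 (fun t' ht' => hreg t' (List.mem_cons_of_mem _ ht'))
  refine ⟨by rw [eval_mul]; exact mul_ne_zero h1 h3, ?_⟩
  simp only [List.map_cons, List.map_nil, List.sum_cons, List.sum_nil, add_zero] at h2 ⊢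
  rw [h2, h4]
  simp only [eval_add, eval_mul]
  field_simp
  ring

theorem PR_one (t : Tm) (hz : nz t.ds = 1) (hR : R0 t.ds ≠ 0) : PR [t] ((t.c : ℚ) / R0 t.ds) := by
  refine ⟨-(C ((t.c : ℚ) / R0 t.ds) * (GP t.ds).divX), GP t.ds, by rwa [GP_zero],
    fun s hs hreg => ?_⟩
  have hne : (t.ds.map (fun d => (d.2 : ℚ) * s - d.1)).prod ≠ 0 := by
    intro h0
    rw [List.prod_eq_zero_iff, List.mem_map] at h0
    obtain ⟨d, hd, hd0⟩ := h0
    exact hreg t (List.mem_singleton.2 rfl) d hd hd0
  have hG := GP_prod s t.ds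
  rw [hz, pow_one] at hG
  have hG0 : (GP t.ds).eval s ≠ 0 := by
    intro h
    rw [h, mul_zero] at hG
    exact hne hG
  refine ⟨hG0, ?_⟩
  simp only [List.map_cons, List.map_nil, List.sum_cons, List.sum_nil, add_zero]
  rw [lim_eq, hG]
  have hdiv : (GP t.ds).eval s = s * (GP t.ds).divX.eval s + R0 t.ds := by
    have h1 := congrArg (fun p : ℚ[X] => p.eval s) (Polynomial.divX_mul_X_add (GP t.ds))
    simp only [eval_add, eval_mul, eval_X, eval_C] at h1
    rw [← GP_zero, ← Polynomial.coeff_zero_eq_eval_zero, ← h1]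
    ring
  simp only [eval_neg, eval_mul, eval_C]
  have hdiv' : (GP t.ds).divX.eval s = ((GP t.ds).eval s - R0 t.ds) / s := by
    rw [hdiv]
    field_simp
    ring
  rw [hdiv']
  field_simp
  ring

theorem PolOK_of_PR {Λ : ℤ} {L : List Tm} {c : ℤ} (h : PR L ((c : ℚ) / Λ)) :
    PolOK Λ L [c] := by
  obtain ⟨N, D, hD, hs⟩ := h
  refine ⟨N, D, hD, fun s hs0 hreg => ?_⟩
  obtain ⟨h1, h2⟩ := hs s hs0 hreg
  refine ⟨h1, ?_⟩
  rw [h2]
  congr 1
  unfold pval
  simp [div_div]

theorem PolOK_nil (Λ : ℤ) : PolOK Λ [] [] :=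
  ⟨0, 1, by simp, fun s _ _ => by simp [pval]⟩

/-! ### The lists -/

section Lists

variable (S sh P A : ℕ)

def wi (i : ℕ) : ℤ := (entW (ent S sh P i) : ℕ) - 549755813888
def ei (i : ℕ) : ℤ := (entE (ent S sh P i) : ℕ) - 549755813888
def fi (i : ℕ) : ℤ := (entF (ent S sh P i) : ℕ) - 549755813888

/-- factors -/
def DS : ℕ → ℕ → List (ℤ × ℤ)
  | _, 0 => []
  | i, n + 1 => bif Nat.testBit A i then (ei S sh P i, fi S sh P i) :: DS (i + 1) n
    else DS (i + 1) n

/-- linear terms -/
def WS (ds : List (ℤ × ℤ)) : ℕ → ℕ → List Tm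
  | _, 0 => []
  | i, n + 1 => if Nat.testBit A i = true ∧ wi S sh P i ≠ 0 then
      ⟨wi S sh P i, ei S sh P 0 + ei S sh P i, fi S sh P 0 + fi S sh P i,
        (ei S sh P i, fi S sh P i) :: ds⟩ :: WS ds (i + 1) n
    else WS ds (i + 1) n

theorem getD_unW : ∀ (n i j : ℕ), j < n → (unW S sh P i n).getD j 0 = wi S sh P (i + j)
  | 0, _, _, h => absurd h (Nat.not_lt_zero _)
  | n + 1, i, 0, _ => by simp [unW, wi]
  | n + 1, i, j + 1, h => by
    rw [unW, List.getD_cons_succ, getD_unW n (i + 1) j (by omega)]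
    congr 1
    omega

theorem getD_unE : ∀ (n i j : ℕ), j < n → (unE S sh P i n).getD j 0 = ei S sh P (i + j)
  | 0, _, _, h => absurd h (Nat.not_lt_zero _)
  | n + 1, i, 0, _ => by simp [unE, ei]
  | n + 1, i, j + 1, h => by
    rw [unE, List.getD_cons_succ, getD_unE n (i + 1) j (by omega)]
    congr 1
    omega

theorem getD_unF : ∀ (n i j : ℕ), j < n → (unF S sh P i n).getD j 0 = fi S sh P (i + j)
  | 0, _, _, h => absurd h (Nat.not_lt_zero _)
  | n + 1, i, 0, _ => by simp [unF, fi]
  | n + 1, i, j + 1, h => by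
    rw [unF, List.getD_cons_succ, getD_unF n (i + 1) j (by omega)]
    congr 1
    omega

theorem allNN_unW : ∀ (n i : ℕ), (∀ j, i ≤ j → j < i + n → 549755813888 ≤ entW (ent S sh P j)) →
    allNN (unW S sh P i n) = true
  | 0, _, _ => rfl
  | n + 1, i, h => by
    rw [unW, allNN, Bool.and_eq_true]
    refine ⟨?_, allNN_unW n (i + 1) (fun j h1 h2 => h j (by omega) (by omega))⟩
    have := h i le_rfl (by omega)
    simp only [decide_eq_true_eq]
    omega

theorem mem_mQ : ∀ (n i k : ℕ), k ∈ mQ A i n ↔ i ≤ k ∧ k < i + n ∧ Nat.testBit A k = false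
  | 0, i, k => by
    simp only [mQ, List.not_mem_nil, false_iff]
    omega
  | n + 1, i, k => by
    rw [mQ]
    rcases h : Nat.testBit A i with _ | _
    · simp only [cond_false, List.mem_cons, mem_mQ n (i + 1) k]
      constructor
      · rintro (rfl | ⟨h1, h2, h3⟩)
        · exact ⟨le_rfl, by omega, h⟩
        · exact ⟨by omega, by omega, h3⟩
      · rintro ⟨h1, h2, h3⟩
        rcases h1.eq_or_lt with h4 | h4
        · exact Or.inl h4.symm
        · exact Or.inr ⟨by omega, by omega, h3⟩
    · simp only [cond_true, mem_mQ n (i + 1) k]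
      constructor
      · rintro ⟨h1, h2, h3⟩
        exact ⟨by omega, by omega, h3⟩
      · rintro ⟨h1, h2, h3⟩
        rcases h1.eq_or_lt with h4 | h4
        · rw [← h4, h] at h3
          exact absurd h3 (by simp)
        · exact ⟨by omega, by omega, h3⟩

theorem mQ_contains (K k : ℕ) (h1 : 1 ≤ k) (h2 : k ≤ K) :
    (mQ A 1 K).contains k = !(Nat.testBit A k) := by
  rcases h : Nat.testBit A k with _ | _
  · rw [Bool.not_false, List.contains_iff_mem, mem_mQ]
    exact ⟨h1, by omega, h⟩
  · rw [Bool.not_true, ← Bool.not_eq_true, List.contains_iff_mem, mem_mQ]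
    rintro ⟨-, -, h3⟩
    rw [h] at h3
    exact absurd h3 (by simp)

theorem dss_eq (K : ℕ) : ∀ (n k : ℕ), 1 ≤ k → k + n = K + 1 →
    dss (mQ A 1 K) (unE S sh P 0 (K + 1)) (unF S sh P 0 (K + 1)) k n = DS S sh P A k n
  | 0, _, _, _ => rfl
  | n + 1, k, h1, h2 => by
    rw [dss, DS, mQ_contains A K k h1 (by omega), dss_eq K n (k + 1) (by omega) (by omega),
      getD_unE S sh P (K + 1) 0 k (by omega), getD_unF S sh P (K + 1) 0 k (by omega), zero_add]
    rcases Nat.testBit A k with _ | _
    · simp
    · simp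

theorem wts_eq (K : ℕ) (ds : List (ℤ × ℤ)) : ∀ (n k : ℕ), 1 ≤ k → k + n = K + 1 →
    wts (mQ A 1 K) (unW S sh P 0 (K + 1)) (unE S sh P 0 (K + 1)) (unF S sh P 0 (K + 1)) ds k n =
      WS S sh P A ds k n
  | 0, _, _, _ => rfl
  | n + 1, k, h1, h2 => by
    rw [wts, WS, mQ_contains A K k h1 (by omega), wts_eq K ds n (k + 1) (by omega) (by omega),
      getD_unW S sh P (K + 1) 0 k (by omega), getD_unE S sh P (K + 1) 0 k (by omega),
      getD_unF S sh P (K + 1) 0 k (by omega), getD_unE S sh P (K + 1) 0 0 (by omega),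
      getD_unF S sh P (K + 1) 0 0 (by omega), zero_add, zero_add]
    rcases Nat.testBit A k with _ | _
    · simp
    · by_cases hw : wi S sh P k = 0
      · simp [hw]
      · simp [hw]

theorem leafT_eq (K : ℕ) (hnn : allNN (unW S sh P 0 (K + 1)) = true)
    (hok : (DS S sh P A 1 K).all okd = true) :
    leafT K (mQ A 1 K) (unW S sh P 0 (K + 1)) (unE S sh P 0 (K + 1)) (unF S sh P 0 (K + 1)) =
      some ((if wi S sh P 0 = 0 then [] else
        [⟨wi S sh P 0, ei S sh P 0, fi S sh P 0, DS S sh P A 1 K⟩]) ++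
          WS S sh P A (DS S sh P A 1 K) 1 K) := by
  unfold leafT
  simp only []
  rw [dss_eq S sh P A K K 1 le_rfl (by omega), wts_eq S sh P A K _ K 1 le_rfl (by omega), hnn, hok,
    getD_unW S sh P (K + 1) 0 0 (by omega), getD_unE S sh P (K + 1) 0 0 (by omega),
    getD_unF S sh P (K + 1) 0 0 (by omega), add_zero]
  simp

theorem DS_length : ∀ n i : ℕ, (DS S sh P A i n).length = cntA A i n
  | 0, _ => rfl
  | n + 1, i => by
    rw [DS, cntA]
    rcases Nat.testBit A i with _ | _
    · simp only [cond_false, DS_length n (i + 1)]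
    · simp only [cond_true, List.length_cons, DS_length n (i + 1)]

theorem cntA_le : ∀ n i : ℕ, cntA A i n ≤ n
  | 0, _ => le_rfl
  | n + 1, i => by
    rw [cntA]
    have := cntA_le n (i + 1)
    rcases Nat.testBit A i with _ | _
    · simp only [cond_false]
      omega
    · simp only [cond_true]
      omega

theorem ei_zero (i : ℕ) : Nat.beq (entE (ent S sh P i)) 549755813888 = true ↔ ei S sh P i = 0 := by
  rw [Nat.beq_eq]
  unfold ei
  omega

theorem DS_nz : ∀ n i : ℕ, nz (DS S sh P A i n) = cntZ S sh P A i n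
  | 0, _ => rfl
  | n + 1, i => by
    rw [DS, cntZ]
    have ih := DS_nz n (i + 1)
    rcases Nat.testBit A i with _ | _
    · simp only [cond_false, Bool.false_and, ih]
    · by_cases h : ei S sh P i = 0
      · have h1 := (ei_zero S sh P i).2 h
        rw [h1]
        simp only [cond_true, Bool.and_self, nz, List.filter_cons, h, decide_true, if_true,
          List.length_cons]
        rw [← ih]
        rfl
      · have h1 : Nat.beq (entE (ent S sh P i)) 549755813888 = false := by
          rw [← Bool.not_eq_true, ei_zero]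
          exact h
        rw [h1]
        simp only [cond_true, Bool.and_false, cond_false, nz, List.filter_cons, h, decide_false]
        rw [← ih]
        rfl

theorem okE_spec (lin : Bool) (i : ℕ) (h : okE lin (ent S sh P i) = true) :
    okd (ei S sh P i, fi S sh P i) = true ∧ 549755813888 ≤ entW (ent S sh P i) ∧
      (lin = false → wi S sh P i = 0) := by
  unfold okE at h
  rw [Bool.and_eq_true] at h
  obtain ⟨h1, h2⟩ := h
  refine ⟨?_, ?_, ?_⟩
  · unfold okd
    simp only [Bool.or_eq_true, Bool.and_eq_true, decide_eq_true_eq]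
    rcases h3 : Nat.beq (entF (ent S sh P i)) 549755813888 with _ | _
    · rw [h3, cond_false, Bool.and_eq_true, Nat.ble_eq, Nat.ble_eq] at h2
      right
      unfold ei fi
      omega
    · rw [h3, cond_true, Nat.ble_eq] at h2
      rw [Nat.beq_eq] at h3
      left
      unfold ei fi
      omega
  · rcases lin with _ | _
    · rw [cond_false, Nat.beq_eq] at h1
      omega
    · rw [cond_true, Nat.ble_eq] at h1
      exact h1
  · rintro rfl
    rw [cond_false, Nat.beq_eq] at h1
    unfold wi
    omega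

theorem okA_spec (lin : Bool) : ∀ n i : ℕ, okA lin S sh P A i n = true →
    ∀ j, i ≤ j → j < i + n → Nat.testBit A j = true → okE lin (ent S sh P j) = true
  | 0, i, _, j, h1, h2, _ => by omega
  | n + 1, i, h, j, h1, h2, h3 => by
    rw [okA] at h
    rcases h4 : Nat.testBit A i with _ | _
    · rw [h4, cond_false] at h
      rcases h1.eq_or_lt with h5 | h5
      · rw [h5, h3] at h4
        exact absurd h4 (by simp)
      · exact okA_spec lin n (i + 1) h j (by omega) (by omega) h3
    · rw [h4, cond_true, Bool.and_eq_true] at h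
      rcases h1.eq_or_lt with h5 | h5
      · rw [← h5]
        exact h.1
      · exact okA_spec lin n (i + 1) h.2 j (by omega) (by omega) h3

theorem DS_mem : ∀ (n i : ℕ) (d : ℤ × ℤ), d ∈ DS S sh P A i n →
    ∃ j, i ≤ j ∧ j < i + n ∧ Nat.testBit A j = true ∧ d = (ei S sh P j, fi S sh P j)
  | 0, i, d, h => by simp [DS] at h
  | n + 1, i, d, h => by
    rw [DS] at h
    rcases h4 : Nat.testBit A i with _ | _
    · rw [h4, cond_false] at h
      obtain ⟨j, h1, h2, h3⟩ := DS_mem n (i + 1) d h
      exact ⟨j, by omega, by omega, h3⟩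
    · rw [h4, cond_true, List.mem_cons] at h
      rcases h with rfl | h
      · exact ⟨i, le_rfl, by omega, h4, rfl⟩
      · obtain ⟨j, h1, h2, h3⟩ := DS_mem n (i + 1) d h
        exact ⟨j, by omega, by omega, h3⟩

theorem mem_DS : ∀ (n i j : ℕ), i ≤ j → j < i + n → Nat.testBit A j = true →
    (ei S sh P j, fi S sh P j) ∈ DS S sh P A i n
  | 0, i, j, h1, h2, _ => by omega
  | n + 1, i, j, h1, h2, h3 => by
    rw [DS]
    rcases h1.eq_or_lt with h5 | h5
    · rw [h5, h3, cond_true]
      exact List.mem_cons_self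
    · have h6 := mem_DS n (i + 1) j (by omega) (by omega) h3
      rcases Nat.testBit A i with _ | _
      · exact h6
      · exact List.mem_cons_of_mem _ h6

theorem WS_mem (ds : List (ℤ × ℤ)) : ∀ (n i : ℕ) (t : Tm), t ∈ WS S sh P A ds i n →
    ∃ j, i ≤ j ∧ j < i + n ∧ Nat.testBit A j = true ∧ wi S sh P j ≠ 0 ∧
      t.ds = (ei S sh P j, fi S sh P j) :: ds
  | 0, i, t, h => by simp [WS] at h
  | n + 1, i, t, h => by
    rw [WS] at h
    split_ifs at h with h4
    · rw [List.mem_cons] at h
      rcases h with rfl | h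
      · exact ⟨i, le_rfl, by omega, h4.1, h4.2, rfl⟩
      · obtain ⟨j, h1, h2, h3⟩ := WS_mem ds n (i + 1) t h
        exact ⟨j, by omega, by omega, h3⟩
    · obtain ⟨j, h1, h2, h3⟩ := WS_mem ds n (i + 1) t h
      exact ⟨j, by omega, by omega, h3⟩

/-- sign -/
def sg (b : Bool) : ℚ := if b then -1 else 1

theorem absE_eq (i : ℕ) : ((absE (ent S sh P i) : ℕ) : ℤ) = |ei S sh P i| := by
  unfold absE ei
  rcases le_total (entE (ent S sh P i)) 549755813888 with h | h
  · rw [abs_of_nonpos (by omega)]
    omega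
  · rw [abs_of_nonneg (by omega)]
    omega

theorem ble_iff (i : ℕ) : Nat.ble 549755813889 (entE (ent S sh P i)) = true ↔ 0 < ei S sh P i := by
  rw [Nat.ble_eq]
  unfold ei
  omega

theorem fi_cast (lin : Bool) (i : ℕ) (h : okE lin (ent S sh P i) = true) (h5 : ei S sh P i = 0) :
    (((entF (ent S sh P i) - 549755813888 : ℕ) : ℕ) : ℤ) = fi S sh P i ∧ 0 < fi S sh P i := by
  have hok := (okE_spec S sh P lin i h).1
  unfold okd at hok
  simp only [Bool.or_eq_true, Bool.and_eq_true, decide_eq_true_eq] at hok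
  rw [h5] at hok
  unfold fi at hok ⊢
  omega

/-- the factor of `prA` -/
def fac (x : ℕ) : ℕ :=
  bif Nat.beq (entE x) 549755813888 then entF x - 549755813888 else absE x

theorem fac_spec (lin : Bool) (i : ℕ) (h : okE lin (ent S sh P i) = true) :
    (if ei S sh P i = 0 then (fi S sh P i : ℚ) else -(ei S sh P i : ℚ)) =
      sg (Nat.ble 549755813889 (entE (ent S sh P i))) * (fac (ent S sh P i) : ℕ) ∧
      fac (ent S sh P i) ≠ 0 := by
  unfold fac
  by_cases h5 : ei S sh P i = 0
  · have h6 := (ei_zero S sh P i).2 h5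
    have h7 : Nat.ble 549755813889 (entE (ent S sh P i)) = false := by
      rw [← Bool.not_eq_true, ble_iff, h5]
      exact lt_irrefl 0
    obtain ⟨h8, h9⟩ := fi_cast S sh P lin i h h5
    rw [h6, h7, if_pos h5, cond_true]
    constructor
    · rw [← h8]
      simp only [sg, Bool.false_eq_true, if_false, one_mul]
      exact Int.cast_natCast _
    · intro h0
      rw [h0, Nat.cast_zero] at h8
      exact h9.ne h8
  · have h6 : Nat.beq (entE (ent S sh P i)) 549755813888 = false := by
      rw [← Bool.not_eq_true, ei_zero]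
      exact h5
    rw [h6, if_neg h5, cond_false]
    have h9 := absE_eq S sh P i
    have h10 : ((absE (ent S sh P i) : ℕ) : ℚ) = |(ei S sh P i : ℚ)| := by
      rw [← Int.cast_abs, ← h9, Int.cast_natCast]
    refine ⟨?_, ?_⟩
    · rw [h10]
      rcases h7 : Nat.ble 549755813889 (entE (ent S sh P i)) with _ | _
      · have h8 : ei S sh P i ≤ 0 := by
          rw [← Bool.not_eq_true, ble_iff] at h7
          exact not_lt.1 h7
        rw [abs_of_nonpos (by exact_mod_cast h8)]
        simp [sg]
      · have h8 : 0 < ei S sh P i := (ble_iff S sh P i).1 h7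
        rw [abs_of_pos (by exact_mod_cast h8)]
        simp [sg]
    · intro h0
      rw [h0, Nat.cast_zero] at h9
      exact h5 (abs_eq_zero.1 h9.symm)

theorem prA_succ (n i : ℕ) : prA S sh P A i (n + 1) =
    bif Nat.testBit A i then fac (ent S sh P i) * prA S sh P A (i + 1) n
    else prA S sh P A (i + 1) n := rfl

theorem sg_not (b : Bool) : sg (!b) = -sg b := by
  rcases b with _ | _
  · simp [sg]
  · simp [sg]

theorem sg_true : sg true = -1 := by simp [sg]
theorem sg_false : sg false = 1 := by simp [sg]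

theorem DS_R0 (lin : Bool) : ∀ n i : ℕ,
    (∀ j, i ≤ j → j < i + n → Nat.testBit A j = true → okE lin (ent S sh P j) = true) →
    R0 (DS S sh P A i n) = sg (sgA S sh P A i n) * (prA S sh P A i n : ℕ) ∧
      prA S sh P A i n ≠ 0
  | 0, _, _ => by simp [DS, R0, sgA, prA, sg]
  | n + 1, i, h => by
    have ih := DS_R0 lin n (i + 1) (fun j h1 h2 h3 => h j (by omega) (by omega) h3)
    rw [DS, sgA, prA_succ]
    rcases h4 : Nat.testBit A i with _ | _
    · simp only [cond_false, Bool.false_and]
      exact ih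
    · obtain ⟨h5, h6⟩ := fac_spec S sh P lin i (h i le_rfl (by omega) h4)
      simp only [cond_true, Bool.true_and]
      have hR : R0 ((ei S sh P i, fi S sh P i) :: DS S sh P A (i + 1) n) =
          (if ei S sh P i = 0 then (fi S sh P i : ℚ) else -(ei S sh P i : ℚ)) *
            R0 (DS S sh P A (i + 1) n) := by
        unfold R0
        rw [List.map_cons, List.prod_cons]
      rw [hR, ih.1, h5]
      refine ⟨?_, Nat.mul_ne_zero h6 ih.2⟩
      rw [Nat.cast_mul]
      rcases Nat.ble 549755813889 (entE (ent S sh P i)) with _ | _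
      · rw [cond_false, sg_false]
        ring
      · rw [cond_true, sg_not, sg_true]
        ring

theorem sg_xor (a b : Bool) : sg (Bool.xor a b) = sg a * sg b := by
  rcases a with _ | _ <;> rcases b with _ | _ <;> simp [sg]

theorem wi_cast (i : ℕ) (hw : 549755813888 ≤ entW (ent S sh P i)) :
    wi S sh P i = ((entW (ent S sh P i) - 549755813888 : ℕ) : ℤ) := by
  unfold wi
  omega

theorem wi_zero (i : ℕ) : Nat.beq (entW (ent S sh P i)) 549755813888 = true ↔ wi S sh P i = 0 := by
  rw [Nat.beq_eq]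
  unfold wi
  omega

/-- one step of `linA` with abstract data -/
def stp (Λ M : ℕ) (b al wz ez ep : Bool) (W ab : ℕ) (cont : ℕ → ℕ → Option (List ℤ)) (p m : ℕ) :
    Option (List ℤ) :=
  bif al && !wz then
    bif ez then none else
    bif Nat.beq (Nat.mod (Λ * W) (M * ab)) 0 then
      bif Bool.xor b ep then cont p (m + Nat.div (Λ * W) (M * ab))
      else cont (p + Nat.div (Λ * W) (M * ab)) m
    else none
  else cont p m

theorem linA_succ (Λ M : ℕ) (b : Bool) (i n p m : ℕ) :
    linA Λ S sh P A M b i (n + 1) p m =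
      stp Λ M b (Nat.testBit A i) (Nat.beq (entW (ent S sh P i)) 549755813888)
        (Nat.beq (entE (ent S sh P i)) 549755813888) (Nat.ble 549755813889 (entE (ent S sh P i)))
        (entW (ent S sh P i) - 549755813888) (absE (ent S sh P i))
        (fun p m => linA Λ S sh P A M b (i + 1) n p m) p m := by
  unfold stp
  rw [linA]

theorem stp_spec {Λ M : ℕ} {b al wz ez ep : Bool} {W ab : ℕ}
    {cont : ℕ → ℕ → Option (List ℤ)} {p m : ℕ} {l : List ℤ}
    (h : stp Λ M b al wz ez ep W ab cont p m = some l) :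
    (al = true → wz = true) ∧ cont p m = some l ∨
    al = true ∧ wz = false ∧ ez = false ∧ ∃ q : ℕ, (M * ab) * q = Λ * W ∧
      ((Bool.xor b ep = true ∧ cont p (m + q) = some l) ∨
        (Bool.xor b ep = false ∧ cont (p + q) m = some l)) := by
  unfold stp at h
  rcases al with _ | _
  · left
    exact ⟨by simp, h⟩
  · rcases wz with _ | _
    · right
      refine ⟨rfl, rfl, ?_⟩
      rcases ez with _ | _
      · refine ⟨rfl, ?_⟩
        rcases hd : Nat.beq (Nat.mod (Λ * W) (M * ab)) 0 with _ | _
        · rw [hd] at h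
          exact absurd h (by simp)
        · rw [hd] at h
          rw [Nat.beq_eq] at hd
          refine ⟨Nat.div (Λ * W) (M * ab),
            Nat.mul_div_cancel' (Nat.dvd_of_mod_eq_zero hd), ?_⟩
          rcases hx : Bool.xor b ep with _ | _
          · rw [hx] at h
            right
            exact ⟨rfl, h⟩
          · rw [hx] at h
            left
            exact ⟨rfl, h⟩
      · exact absurd h (by simp)
    · left
      exact ⟨fun _ => rfl, h⟩

theorem WS_pos (ds : List (ℤ × ℤ)) (i n : ℕ) (h1 : Nat.testBit A i = true)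
    (h2 : wi S sh P i ≠ 0) : WS S sh P A ds i (n + 1) =
      ⟨wi S sh P i, ei S sh P 0 + ei S sh P i, fi S sh P 0 + fi S sh P i,
        (ei S sh P i, fi S sh P i) :: ds⟩ :: WS S sh P A ds (i + 1) n := by
  rw [WS, if_pos ⟨h1, h2⟩]

theorem WS_neg (ds : List (ℤ × ℤ)) (i n : ℕ)
    (h : Nat.testBit A i = true → wi S sh P i = 0) : WS S sh P A ds i (n + 1) =
      WS S sh P A ds (i + 1) n := by
  rw [WS, if_neg (fun hc => hc.2 (h hc.1))]

/-- the residue of one linear term -/
theorem term_spec (lin : Bool) (Λ M : ℕ) (b : Bool) (ds : List (ℤ × ℤ)) (hM : M ≠ 0)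
    (hR : R0 ds = sg b * (M : ℕ)) (hz : nz ds = 1) (i : ℕ)
    (hok : okE lin (ent S sh P i) = true) (he0 : ei S sh P i ≠ 0) (w' q : ℕ)
    (hwi : wi S sh P i = (w' : ℤ)) (hdiv : (M * absE (ent S sh P i)) * q = Λ * w') :
    ∃ r : ℚ, PR [⟨wi S sh P i, ei S sh P 0 + ei S sh P i, fi S sh P 0 + fi S sh P i,
        (ei S sh P i, fi S sh P i) :: ds⟩] r ∧
      (Λ : ℚ) * r = sg (Bool.xor b (Nat.ble 549755813889 (entE (ent S sh P i)))) * q := by
  have hz' : nz ((ei S sh P i, fi S sh P i) :: ds) = 1 := by
    unfold nz at hz ⊢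
    simp only [List.filter_cons, he0, decide_false]
    exact hz
  obtain ⟨hf1, hf2⟩ := fac_spec S sh P lin i hok
  have he : Nat.beq (entE (ent S sh P i)) 549755813888 = false := by
    rw [← Bool.not_eq_true, ei_zero]
    exact he0
  have hfac : fac (ent S sh P i) = absE (ent S sh P i) := by
    unfold fac
    rw [he, cond_false]
  rw [if_neg he0, hfac] at hf1
  rw [hfac] at hf2
  obtain ⟨a, ha⟩ : ∃ a : ℕ, a = absE (ent S sh P i) := ⟨_, rfl⟩
  obtain ⟨ep, hep⟩ : ∃ ep : Bool, ep = Nat.ble 549755813889 (entE (ent S sh P i)) := ⟨_, rfl⟩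
  rw [← ha] at hf1 hf2 hdiv
  rw [← hep] at hf1 ⊢
  have hR' : R0 ((ei S sh P i, fi S sh P i) :: ds) = sg (Bool.xor b ep) * ((M * a : ℕ) : ℚ) := by
    have e1 : R0 ((ei S sh P i, fi S sh P i) :: ds) =
      (if ei S sh P i = 0 then (fi S sh P i : ℚ) else -(ei S sh P i : ℚ)) * R0 ds := by
      unfold R0
      rw [List.map_cons, List.prod_cons]
    rw [e1, if_neg he0, hf1, hR, sg_xor, Nat.cast_mul]
    ring
  have hMa : ((M * a : ℕ) : ℚ) ≠ 0 := Nat.cast_ne_zero.2 (Nat.mul_ne_zero hM hf2)
  have hdivQ : ((M * a : ℕ) : ℚ) * q = Λ * w' := by exact_mod_cast hdiv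
  have hsg : sg (Bool.xor b ep) ≠ 0 := by
    unfold sg
    split_ifs <;> norm_num
  have hne : R0 ((ei S sh P i, fi S sh P i) :: ds) ≠ 0 := by
    rw [hR']
    exact mul_ne_zero hsg hMa
  refine ⟨_, PR_one ⟨wi S sh P i, ei S sh P 0 + ei S sh P i,
    fi S sh P 0 + fi S sh P i, (ei S sh P i, fi S sh P i) :: ds⟩ hz' hne, ?_⟩
  simp only [hR', hwi, Int.cast_natCast]
  rw [← mul_div_assoc, ← hdivQ]
  have hsq : sg (Bool.xor b ep) * sg (Bool.xor b ep) = 1 := by
    unfold sg
    split_ifs <;> norm_num
  rw [div_eq_iff (mul_ne_zero hsg hMa)]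
  calc ((M * a : ℕ) : ℚ) * q = (sg (Bool.xor b ep) * sg (Bool.xor b ep)) * (((M * a : ℕ) : ℚ) * q) := by
        rw [hsq, one_mul]
    _ = _ := by ring

theorem linA_spec (lin : Bool) (Λ M : ℕ) (b : Bool) (ds : List (ℤ × ℤ)) (hM : M ≠ 0)
    (hR : R0 ds = sg b * (M : ℕ)) (hz : nz ds = 1) :
    ∀ (n i p m : ℕ) (l : List ℤ), linA Λ S sh P A M b i n p m = some l →
    (∀ j, i ≤ j → j < i + n → Nat.testBit A j = true → okE lin (ent S sh P j) = true) →
    ∃ (c : ℤ) (r : ℚ), l = [c] ∧ PR (WS S sh P A ds i n) r ∧ (c : ℚ) = p - m + Λ * r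
  | 0, i, p, m, l, h, _ => by
    rw [linA, Option.some.injEq] at h
    exact ⟨(p : ℤ) - m, 0, h.symm, PR_nil, by push_cast; ring⟩
  | n + 1, i, p, m, l, h, hA => by
    have hA' : ∀ j, i + 1 ≤ j → j < i + 1 + n → Nat.testBit A j = true →
        okE lin (ent S sh P j) = true := fun j h1 h2 h3 => hA j (by omega) (by omega) h3
    rw [linA_succ] at h
    rcases stp_spec h with ⟨h1, h2⟩ | ⟨h1, h2, h3, q, h4, h5⟩
    · rw [WS_neg S sh P A ds i n (fun ht => (wi_zero S sh P i).1 (h1 ht))]
      exact linA_spec lin Λ M b ds hM hR hz n (i + 1) p m l h2 hA'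
    · have hw : wi S sh P i ≠ 0 := by
        intro h0
        rw [(wi_zero S sh P i).2 h0] at h2
        exact absurd h2 (by simp)
      have he : ei S sh P i ≠ 0 := by
        intro h0
        rw [(ei_zero S sh P i).2 h0] at h3
        exact absurd h3 (by simp)
      have hok := hA i le_rfl (by omega) h1
      obtain ⟨-, hw1, -⟩ := okE_spec S sh P lin i hok
      obtain ⟨r0, hr0, hr1⟩ := term_spec S sh P lin Λ M b ds hM hR hz i hok he _ q
        (wi_cast S sh P i hw1) h4
      rw [WS_pos S sh P A ds i n h1 hw]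
      rcases h5 with ⟨h5, h6⟩ | ⟨h5, h6⟩
      · obtain ⟨c, r, h7, h8, h9⟩ := linA_spec lin Λ M b ds hM hR hz n (i + 1) _ _ l h6 hA'
        refine ⟨c, r0 + r, h7, PR_cons hr0 h8, ?_⟩
        rw [h5, sg_true] at hr1
        rw [h9, mul_add, hr1]
        push_cast
        ring
      · obtain ⟨c, r, h7, h8, h9⟩ := linA_spec lin Λ M b ds hM hR hz n (i + 1) _ _ l h6 hA'
        refine ⟨c, r0 + r, h7, PR_cons hr0 h8, ?_⟩
        rw [h5, sg_false] at hr1
        rw [h9, mul_add, hr1]
        push_cast
        ring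

theorem polL_nil (Λ : ℤ) : ∀ L : List Tm, (∀ t ∈ L, nz t.ds = 0) → polL Λ L = some []
  | [], _ => rfl
  | t :: L, h => by
    rw [polL, polL_nil Λ L (fun t' ht' => h t' (List.mem_cons_of_mem _ ht'))]
    have h1 : polT Λ t = some [] := by
      unfold polT
      rw [h t List.mem_cons_self]
    rw [h1]
    rfl

theorem WS_nil (ds : List (ℤ × ℤ)) : ∀ n i : ℕ,
    (∀ j, i ≤ j → j < i + n → Nat.testBit A j = true → wi S sh P j = 0) →
    WS S sh P A ds i n = []
  | 0, _, _ => rfl
  | n + 1, i, h => by
    rw [WS, if_neg (fun hc => hc.2 (h i le_rfl (by omega) hc.1))]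
    exact WS_nil ds n (i + 1) (fun j h1 h2 h3 => h j (by omega) (by omega) h3)

end Lists

theorem top_append (u : ℕ) (L L' : List Tm) : top u (L ++ L') = top u L ++ top u L' := by
  unfold top
  rw [List.filter_append]

theorem top_all (u : ℕ) (L : List Tm) (h : ∀ t ∈ L, t.ds.length = 4 + u) : top u L = L := by
  unfold top
  rw [List.filter_eq_self]
  intro t ht
  rw [h t ht]
  simp

theorem top_none (u : ℕ) (L : List Tm) (h : ∀ t ∈ L, t.ds.length ≠ 4 + u) : top u L = [] := by
  unfold top
  rw [List.filter_eq_nil_iff]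
  intro t ht h1
  exact h t ht (by simpa using h1)

theorem fqb : FQbAsm := by
  intro hpol _ K u Λ S sh P A l hΛ hK hdead hQ
  unfold leafQ at hQ
  rcases hc : (okA (Nat.ble (K + 1) (4 + u)) S sh P A 1 K &&
    Nat.ble 549755813888 (entW (ent S sh P 0))) with _ | _
  · rw [hc, cond_false] at hQ
    exact absurd hQ (by simp)
  rw [hc, cond_true] at hQ
  rw [Bool.and_eq_true, Nat.ble_eq] at hc
  obtain ⟨hokA, hw0⟩ := hc
  have hE : ∀ j, 1 ≤ j → j < 1 + K → Nat.testBit A j = true →
      okE (Nat.ble (K + 1) (4 + u)) (ent S sh P j) = true :=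
    okA_spec S sh P A _ K 1 hokA
  have hnn : allNN (unW S sh P 0 (K + 1)) = true := by
    apply allNN_unW
    intro j _ hj
    rcases Nat.eq_zero_or_pos j with rfl | hj0
    · exact hw0
    · rcases ht : Nat.testBit A j with _ | _
      · exact hdead j hj0 (by omega) ht
      · exact (okE_spec S sh P _ j (hE j hj0 (by omega) ht)).2.1
  have hok : (DS S sh P A 1 K).all okd = true := by
    rw [List.all_eq_true]
    intro d hd
    obtain ⟨j, h1, h2, h3, rfl⟩ := DS_mem S sh P A K 1 d hd
    exact (okE_spec S sh P _ j (hE j h1 h2 h3)).1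
  have hT := leafT_eq S sh P A K hnn hok
  set ds := DS S sh P A 1 K with hds
  set C0 : List Tm := (if wi S sh P 0 = 0 then [] else
    [⟨wi S sh P 0, ei S sh P 0, fi S sh P 0, ds⟩]) with hC0
  have hC0m : ∀ t ∈ C0, t.ds = ds := by
    intro t ht
    rw [hC0] at ht
    split_ifs at ht
    · simp at ht
    · rw [List.mem_singleton] at ht
      rw [ht]
  have hlen : ds.length = cntA A 1 K := DS_length S sh P A K 1
  have hcnt : cntA A 1 K ≤ K := cntA_le A K 1
  have hWm := WS_mem S sh P A ds K 1
  have hlin : ∀ j, 1 ≤ j → j < 1 + K → Nat.testBit A j = true → wi S sh P j ≠ 0 →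
      K + 1 ≤ 4 + u := by
    intro j h1 h2 h3 h4
    rcases hl : Nat.ble (K + 1) (4 + u) with _ | _
    · exact absurd ((okE_spec S sh P _ j (hE j h1 h2 h3)).2.2 hl) h4
    · rwa [Nat.ble_eq] at hl
  have hall : ∀ t ∈ C0 ++ WS S sh P A ds 1 K, t.ds.all okd = true := by
    intro t ht
    rw [List.mem_append] at ht
    rcases ht with ht | ht
    · rw [hC0m t ht]
      exact hok
    · obtain ⟨j, h1, h2, h3, h4, h5⟩ := hWm t ht
      rw [h5, List.all_cons, hok, Bool.and_true]
      exact (okE_spec S sh P _ j (hE j h1 h2 h3)).1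
  have htopall : ∀ t ∈ top u (C0 ++ WS S sh P A ds 1 K), t.ds.all okd = true := fun t ht =>
    hall t (List.mem_of_mem_filter ht)
  refine ⟨_, hT, ?_, ?_⟩
  · intro t ht
    rw [List.mem_append] at ht
    rcases ht with ht | ht
    · rw [hC0m t ht, hlen]
      omega
    · obtain ⟨j, h1, h2, h3, h4, h5⟩ := hWm t ht
      have h6 := hlin j h1 h2 h3 h4
      rw [h5, List.length_cons, hlen]
      omega
  · have hS : leafS K u Λ S sh P A = some l →
        PolOK Λ (top u (C0 ++ WS S sh P A ds 1 K)) l := by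
      intro h
      unfold leafS at h
      rw [hT] at h
      exact hpol Λ _ l (by exact_mod_cast hΛ) htopall h
    have hnz : nz ds = cntZ S sh P A 1 K := DS_nz S sh P A K 1
    rcases hz : cntZ S sh P A 1 K with _ | _ | z
    · -- no zero factor
      rw [hz] at hQ
      rw [polQ, Option.some.injEq] at hQ
      rw [← hQ]
      apply hpol Λ _ _ (by exact_mod_cast hΛ) htopall
      apply polL_nil
      intro t ht
      have ht' := List.mem_of_mem_filter ht
      rw [List.mem_append] at ht'
      rw [hz] at hnz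
      rcases ht' with ht' | ht'
      · rw [hC0m t ht', hnz]
      · obtain ⟨j, h1, h2, h3, h4, h5⟩ := hWm t ht'
        have h6 : (ei S sh P j, fi S sh P j) ∈ ds := mem_DS S sh P A K 1 j h1 h2 h3
        have h7 : ei S sh P j ≠ 0 := by
          intro h0
          unfold nz at hnz
          rw [List.length_eq_zero_iff, List.filter_eq_nil_iff] at hnz
          exact hnz _ h6 (by simpa using h0)
        rw [h5]
        unfold nz at hnz ⊢
        simp only [List.filter_cons, h7, decide_false]
        exact hnz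
    · -- one zero factor
      rw [zero_add] at hz
      rw [hz] at hQ
      rw [polQ] at hQ
      simp only [] at hQ
      rw [hz] at hnz
      rcases hr : pol1 K u Λ S sh P A with _ | r
      · rw [hr] at hQ
        exact hS hQ
      · rw [hr] at hQ
        simp only [isN, cond_false, Option.some.injEq] at hQ
        subst hQ
        obtain ⟨hR, hM⟩ := DS_R0 S sh P A _ K 1 hE
        rw [← hds] at hR
        unfold pol1 at hr
        rcases hb1 : Nat.beq (cntA A 1 K) (4 + u) with _ | _
        · rw [hb1, cond_false] at hr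
          have hb1' : cntA A 1 K ≠ 4 + u := by
            intro h0
            rw [h0] at hb1
            simp at hb1
          have htC : top u C0 = [] := top_none u C0 (fun t ht => by
            rw [hC0m t ht, hlen]
            exact hb1')
          rw [top_append, htC, List.nil_append]
          rcases hb2 : Nat.beq (cntA A 1 K + 1) (4 + u) with _ | _
          · rw [hb2, cond_false, Option.some.injEq] at hr
            have hb2' : cntA A 1 K + 1 ≠ 4 + u := by
              intro h0
              rw [h0] at hb2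
              simp at hb2
            rw [← hr, top_none u _ (fun t ht => by
              obtain ⟨j, h1, h2, h3, h4, h5⟩ := hWm t ht
              rw [h5, List.length_cons, hlen]
              exact hb2')]
            exact PolOK_nil _
          · rw [hb2, cond_true] at hr
            rw [Nat.beq_eq] at hb2
            rw [top_all u _ (fun t ht => by
              obtain ⟨j, h1, h2, h3, h4, h5⟩ := hWm t ht
              rw [h5, List.length_cons, hlen]
              exact hb2)]
            obtain ⟨c, r', h1, h2, h3⟩ := linA_spec S sh P A _ Λ _ _ ds hM hR hnz K 1 0 0 r hr hE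
            rw [h1]
            apply PolOK_of_PR
            have hΛ' : (Λ : ℚ) ≠ 0 := Nat.cast_ne_zero.2 hΛ
            have h4 : (c : ℚ) / ((Λ : ℤ) : ℚ) = r' := by
              rw [h3, Int.cast_natCast]
              simp only [Nat.cast_zero, sub_zero, zero_add]
              field_simp
            rw [h4]
            exact h2
        · rw [hb1, cond_true] at hr
          rw [Nat.beq_eq] at hb1
          have hKu : K = 4 + u := by omega
          have hW0 : WS S sh P A ds 1 K = [] := by
            apply WS_nil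
            intro j h1 h2 h3
            by_contra h4
            have := hlin j h1 h2 h3 h4
            omega
          rw [hW0, List.append_nil, top_all u C0 (fun t ht => by
            rw [hC0m t ht, hlen]
            exact hb1)]
          simp only [] at hr
          obtain ⟨M, hMd⟩ : ∃ M : ℕ, M = prA S sh P A 1 K := ⟨_, rfl⟩
          obtain ⟨w', hw'⟩ : ∃ w' : ℕ, w' = entW (ent S sh P 0) - 549755813888 := ⟨_, rfl⟩
          rw [← hMd] at hR hM hr
          rw [← hw'] at hr
          rcases hd : Nat.beq (Nat.mod (Λ * w') M) 0 with _ | _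
          · rw [hd, cond_false] at hr
            exact absurd hr (by simp)
          · rw [hd, cond_true] at hr
            rw [Nat.beq_eq] at hd
            obtain ⟨q, hq⟩ : ∃ q : ℕ, q = Nat.div (Λ * w') M := ⟨_, rfl⟩
            rw [← hq] at hr
            have hdiv : M * q = Λ * w' := by
              rw [hq]
              exact Nat.mul_div_cancel' (Nat.dvd_of_mod_eq_zero hd)
            have hdivQ : (M : ℚ) * q = Λ * w' := by exact_mod_cast hdiv
            have hwi : wi S sh P 0 = ((w' : ℕ) : ℤ) := by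
              rw [hw']
              exact wi_cast S sh P 0 hw0
            have hwq : (wi S sh P 0 : ℚ) = (w' : ℚ) := by rw [hwi, Int.cast_natCast]
            have hM' : (M : ℚ) ≠ 0 := Nat.cast_ne_zero.2 hM
            have hΛ' : (Λ : ℚ) ≠ 0 := Nat.cast_ne_zero.2 hΛ
            have hPR : PR C0 ((w' : ℚ) / R0 ds) := by
              rw [hC0]
              by_cases h0 : wi S sh P 0 = 0
              · rw [if_pos h0]
                have h1 : (w' : ℚ) = 0 := by rw [← hwq, h0, Int.cast_zero]
                rw [h1, zero_div]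
                exact PR_nil
              · rw [if_neg h0, ← hwq]
                apply PR_one ⟨wi S sh P 0, ei S sh P 0, fi S sh P 0, ds⟩ hnz
                show R0 ds ≠ 0
                rw [hR]
                apply mul_ne_zero _ hM'
                unfold sg
                split_ifs <;> norm_num
            rcases hs : sgA S sh P A 1 K with _ | _
            · rw [hs, cond_false, Option.some.injEq] at hr
              rw [hs, sg_false, one_mul] at hR
              rw [← hr]
              apply PolOK_of_PR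
              have e1 : (((q : ℕ) : ℤ) : ℚ) / ((Λ : ℤ) : ℚ) = (w' : ℚ) / R0 ds := by
                rw [hR, Int.cast_natCast, Int.cast_natCast, div_eq_div_iff hΛ' hM']
                linarith
              rw [e1]
              exact hPR
            · rw [hs, cond_true, Option.some.injEq] at hr
              rw [hs, sg_true] at hR
              rw [← hr]
              apply PolOK_of_PR
              have e1 : ((-((q : ℕ) : ℤ) : ℤ) : ℚ) / ((Λ : ℤ) : ℚ) = (w' : ℚ) / R0 ds := by
                rw [hR, Int.cast_neg, Int.cast_natCast, Int.cast_natCast,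
                  div_eq_div_iff hΛ' (by simpa using hM')]
                linarith
              rw [e1]
              exact hPR
    · rw [hz] at hQ
      have h1 : polQ K u Λ S sh P A (z + 1 + 1) = leafS K u Λ S sh P A := rfl
      rw [h1] at hQ
      exact hS hQ

end Pool.Agent.TH740.FQB
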