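import Pool.Agent.TH599.VR.Defs

/-! Job 2567 (VR-E): volume ratio of an isometric copy in a bigger Euclidean space. -/

set_option autoImplicit false

open Pool.Agent.TH599.VR Metric MeasureTheory Module

namespace Pool.Agent.TH740.J2567

/-- preimages of ellipsoids under linear isometry equivalences -/
theorem IsEllipsoid.preimage {V W : Type*} [NormedAddCommGroup V] [InnerProductSpace ℝ V]
    [NormedAddCommGroup W] [InnerProductSpace ℝ W] (e : V ≃ₗᵢ[ℝ] W) {E : Set W}
    (hE : IsEllipsoid E) : IsEllipsoid (e ⁻¹' E) := by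
  obtain ⟨L, c, rfl⟩ := hE
  refine ⟨e.toLinearEquiv.trans (L.trans e.symm.toLinearEquiv), e.symm c, ?_⟩
  ext x
  simp only [Set.mem_preimage, Set.mem_image, mem_closedBall_zero_iff]
  constructor
  · rintro ⟨y, hy, h⟩
    refine ⟨e.symm y, by simpa using hy, ?_⟩
    simp only [LinearEquiv.trans_apply, LinearIsometryEquiv.coe_toLinearEquiv,
      LinearIsometryEquiv.apply_symm_apply]
    rw [← map_add, h]
    simp
  · rintro ⟨y, hy, h⟩
    refine ⟨e y, by simpa using hy, ?_⟩
    rw [← h]
    simp

/-- Lower bound for the volume ratio of an isometric copy of a body `K` with nonempty interior: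
if every ellipsoid inside `K` satisfies the bound, so does the volume ratio of the copy. -/
theorem le_vr_of_isometry {I : Type*} [Fintype I] {n : ℕ}
    (ι : EuclideanSpace ℝ I →ₗᵢ[ℝ] EuclideanSpace ℝ (Fin n))
    (K : Set (EuclideanSpace ℝ I)) (r : ℝ) (hr : 0 < r) (hK : closedBall 0 r ⊆ K) (C : ℝ)
    (h : ∀ E : Set (EuclideanSpace ℝ I), IsEllipsoid E → E ⊆ K →
      C ≤ ((volume K).toReal / (volume E).toReal) ^ (1 / (Fintype.card I : ℝ))) :
    C ≤ vr (ι '' K) := by
  have hspan : Submodule.span ℝ K = ⊤ := by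
    apply Submodule.eq_top_of_nonempty_interior'
    refine ⟨0, ?_⟩
    rw [mem_interior]
    exact ⟨ball 0 r, (ball_subset_closedBall.trans hK).trans Submodule.subset_span, isOpen_ball,
      mem_ball_self hr⟩
  have hS : LinearMap.range ι.toLinearMap = Submodule.span ℝ (ι '' K) := by
    have h1 : Submodule.span ℝ (ι '' K) = Submodule.map ι.toLinearMap (Submodule.span ℝ K) := by
      rw [Submodule.map_span]
      rfl
    rw [h1, hspan, Submodule.map_top]
  set e : EuclideanSpace ℝ I ≃ₗᵢ[ℝ] Submodule.span ℝ (ι '' K) :=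
    ι.equivRange.trans (LinearIsometryEquiv.ofEq _ _ hS) with he
  have hecoe : ∀ x, ((e x : Submodule.span ℝ (ι '' K)) : EuclideanSpace ℝ (Fin n)) = ι x := by
    intro x
    rfl
  have hvol : ∀ A : Set (Submodule.span ℝ (ι '' K)), volume (e ⁻¹' A) = volume A := fun A =>
    e.measurePreserving.measure_preimage_emb e.toHomeomorph.measurableEmbedding A
  have htr : e ⁻¹' (traceOnSpan (ι '' K)) = K := by
    ext x
    simp only [Set.mem_preimage, traceOnSpan, Set.mem_ofPred_eq]
    rw [hecoe]
    exact ι.injective.mem_set_image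
  have hfin : finrank ℝ (Submodule.span ℝ (ι '' K)) = Fintype.card I := by
    rw [← e.toLinearEquiv.finrank_eq]
    exact finrank_euclideanSpace
  unfold vr
  refine le_csInf ?_ ?_
  · refine ⟨_, closedBall 0 r, ?_, ?_, rfl⟩
    · refine ⟨LinearEquiv.smulOfNeZero ℝ _ r hr.ne', 0, ?_⟩
      ext y
      simp only [Set.mem_image, mem_closedBall_zero_iff, LinearEquiv.smulOfNeZero_apply, add_zero]
      constructor
      · intro hy
        refine ⟨r⁻¹ • y, ?_, by rw [smul_inv_smul₀ hr.ne']⟩
        rw [norm_smul, norm_inv, Real.norm_of_nonneg hr.le, inv_mul_le_iff₀ hr, mul_one]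
        exact hy
      · rintro ⟨z, hz, rfl⟩
        rw [norm_smul, Real.norm_of_nonneg hr.le]
        nlinarith
    · intro y hy
      simp only [traceOnSpan, Set.mem_ofPred_eq]
      refine ⟨e.symm y, hK ?_, ?_⟩
      · rw [mem_closedBall_zero_iff] at hy ⊢
        simpa using hy
      · rw [← hecoe]; simp
  · rintro t ⟨E, hE, hEK, rfl⟩
    have h1 := h (e ⁻¹' E) (IsEllipsoid.preimage e hE) (by
      intro x hx
      have h2 := hEK hx
      rw [← htr]
      exact h2)
    rw [hvol] at h1
    rw [hfin, ← hvol (traceOnSpan (ι '' K)), htr]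
    exact h1

end Pool.Agent.TH740.J2567
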