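import Pool.Agent.TH981.SD.Stm

/-! Job 2297 (SD/LB): lower bound for the pattern functional. -/

set_option autoImplicit false

open Pool.Agent.TH981.SD
open Finset Set Filter MeasureTheory
open scoped BigOperators Topology Classical

namespace Pool.Agent.TH740.J2297

/-- the weight of a total embedding as a product -/
theorem wt_total {j n : ℕ} {J : SimpleGraph (Fin j)} {G : SimpleGraph (Fin n)}
    {ψ : Fin j → Option (Fin n)} {hh : Fin j → Fin n} (h : ∀ i, ψ i = some (hh i))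
    (a b : Multiset ℕ → ℝ) (Kv Z : Fin j → ℝ) (Gf : Fin j → ℕ → ℕ → ℕ → ℝ) :
    wt J G a b Kv Z Gf ψ = ∏ i, hubf J G a b Kv Gf ψ i (hh i) := by
  unfold wt
  refine Finset.prod_congr rfl fun i _ => ?_
  rw [h i]

theorem hval_nonneg {n : ℕ} {O : Finset (Fin n)} {a b : Fin n → ℝ} {g : ℕ → ℝ} {r : ℕ}
    (ha : ∀ x, 0 ≤ a x) (hb : ∀ x, 0 ≤ b x) (hg : ∀ r, 0 ≤ g r) : 0 ≤ hval O a b g r := by
  unfold hval
  exact Finset.sum_nonneg fun S _ => mul_nonneg (mul_nonneg (Finset.prod_nonneg fun x _ => hb x)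
    (Finset.prod_nonneg fun x _ => ha x)) (hg _)

theorem hval_mono {n : ℕ} {O : Finset (Fin n)} {a b : Fin n → ℝ} {g g' : ℕ → ℝ} {r : ℕ}
    (ha : ∀ x, 0 ≤ a x) (hb : ∀ x, 0 ≤ b x) (hg : ∀ r, g r ≤ g' r) :
    hval O a b g r ≤ hval O a b g' r := by
  unfold hval
  exact Finset.sum_le_sum fun S _ => mul_le_mul_of_nonneg_left (hg _)
    (mul_nonneg (Finset.prod_nonneg fun x _ => hb x) (Finset.prod_nonneg fun x _ => ha x))

theorem hval_tendsto {n : ℕ} {O : Finset (Fin n)} {a b : Fin n → ℝ} {g : ℕ → ℕ → ℝ} {g' : ℕ → ℝ}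
    {r : ℕ} (hg : ∀ r, Tendsto (fun Δ => g Δ r) atTop (𝓝 (g' r))) :
    Tendsto (fun Δ => hval O a b (g Δ) r) atTop (𝓝 (hval O a b g' r)) := by
  unfold hval
  exact tendsto_finsetSum _ fun S _ => (hg _).const_mul _

theorem hval_cont {n : ℕ} {O : Finset (Fin n)} {a b : ℝ → Fin n → ℝ} {g : ℝ → ℕ → ℝ} {r : ℕ}
    {s : Set ℝ} (ha : ∀ x, ContinuousOn (fun t => a t x) s)
    (hb : ∀ x, ContinuousOn (fun t => b t x) s) (hg : ∀ r, ContinuousOn (fun t => g t r) s) :
    ContinuousOn (fun t => hval O (a t) (b t) (g t) r) s := by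
  unfold hval
  refine continuousOn_finsetSum _ fun S _ => ?_
  exact ((continuousOn_finsetProd _ fun x _ => hb x).mul
    (continuousOn_finsetProd _ fun x _ => ha x)).mul (hg _)

theorem lb (h1 : S_LB1) (h2 : S_LB2) (h3 : S_LIN) (h4 : S_AB) (h5 : S_YF) (h6 : S_EXT) :
    S_LB := by
  intro j n α z J Kv g Y u G hα0 hα1 hz0 hz1 hY hJ hKv hg0 hg1 hu hG hn ψ hψ t1 t2 δ ht1 ht12 hδ
  -- `Y`
  have hYc : ∀ d, ContinuousOn (Y d) (Set.Ici 0) := fun d t ht =>
    (hY.deriv d t ht).continuousWithinAt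
  have hm1c : ContinuousOn (m1 Y) (Set.Ici 0) := by
    unfold m1
    exact (hYc 1).mul (continuousOn_const.sub (hYc 2))
  have hm1n : ∀ t, 0 ≤ t → 0 ≤ m1 Y t := by
    intro t ht
    unfold m1
    have := hY.le 2 t ht
    exact mul_nonneg (hY.pos 1 t ht).le (by linarith)
  -- caps
  have hcap := fun i => (h3 α (Y 1) (fun t => Kv i * m1 Y t) g hα0 hα1 (hYc 1)
    (continuousOn_const.mul hm1c) (fun t ht => (hY.pos 1 t ht).le)
    (fun t ht => mul_nonneg (hKv i) (hm1n t ht)) hg0 hg1).2.2 (u i) (hu i)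
  choose w hw1 hw2 hw3 using hcap
  -- total embedding
  have hψ' := (Finset.mem_filter.1 hψ).2
  obtain ⟨hh, hhh⟩ : ∃ hh : Fin j → Fin n, ∀ i, ψ i = some (hh i) := by
    have : ∀ i, ∃ h, ψ i = some h := fun i => Option.ne_none_iff_exists'.1 (hψ'.2 i)
    exact ⟨fun i => (this i).choose, fun i => (this i).choose_spec⟩
  have hA := (h4 α z Y hα0 hα1 hz0 hz1 hY).1
  have haW : ∀ t, 0 ≤ t → ∀ C, 0 ≤ aW Y t C := fun t ht C => (hA C t ht).2.2.1.le
  have hbW : ∀ t, 0 ≤ t → ∀ C, 0 ≤ bW α Y t C := fun t ht C => (hA C t ht).2.2.2.1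
  have haWc : ∀ C, ContinuousOn (fun t => aW Y t C) (Set.Ici 0) := fun C t ht =>
    (hA C t ht).1.continuousWithinAt
  have hbWc : ∀ C, ContinuousOn (fun t => bW α Y t C) (Set.Ici 0) := fun C t ht =>
    (hA C t ht).2.1.continuousWithinAt
  have huc : ∀ i d r, ContinuousOn (u i d r) (Set.Ici 0) := fun i d r t ht =>
    ((hu i).deriv d r t ht).continuousWithinAt
  have hwc : ∀ i Δ d r, ContinuousOn (w i Δ d r) (Set.Ici 0) := by
    intro i Δ d r
    by_cases hd : d ≤ Δ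
    · exact fun t ht => ((hw1 i Δ).deriv d r t ht hd).continuousWithinAt
    · have : w i Δ d r = fun _ => 0 := funext fun t => (hw1 i Δ).zero d r t (by omega)
      rw [this]
      exact continuousOn_const
  set f : ℝ → ℝ := fun t => wt J G (aW Y t) (bW α Y t) Kv (fun _ => 0)
    (fun i _ d r => u i d r t) ψ with hf
  set fD : ℕ → (Fin j → Option (Fin n)) → ℝ → ℝ := fun Δ ψ' t =>
    wt J G (aW Y t) (bW α Y t) Kv (fun _ => 0) (fun i _ d r => w i Δ d r t) ψ' with hfD
  have hfe : ∀ t, f t = ∏ i, hval (offN G (img ψ) (hh i)) (fun x => aW Y t (degs G (br G (hh i) x)))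
      (fun x => Kv i * bW α Y t (degs G (br G (hh i) x)))
      (fun r => u i (dg G (hh i)) r t) 0 := fun t => by
    simp only [hf]
    rw [wt_total hhh]
    rfl
  have hfDe : ∀ Δ t, fD Δ ψ t = ∏ i, hval (offN G (img ψ) (hh i))
      (fun x => aW Y t (degs G (br G (hh i) x)))
      (fun x => Kv i * bW α Y t (degs G (br G (hh i) x)))
      (fun r => w i Δ (dg G (hh i)) r t) 0 := fun Δ t => by
    simp only [hfD]
    rw [wt_total hhh]
    rfl
  have hfc : ContinuousOn f (Set.Ici 0) := by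
    have : f = fun t => ∏ i, hval (offN G (img ψ) (hh i))
      (fun x => aW Y t (degs G (br G (hh i) x)))
      (fun x => Kv i * bW α Y t (degs G (br G (hh i) x)))
      (fun r => u i (dg G (hh i)) r t) 0 := funext hfe
    rw [this]
    refine continuousOn_finsetProd _ fun i _ => ?_
    exact hval_cont (fun x => haWc _) (fun x => continuousOn_const.mul (hbWc _))
      (fun r => huc i _ r)
  have hfDc : ∀ Δ, ContinuousOn (fD Δ ψ) (Set.Ici 0) := by
    intro Δ
    have : fD Δ ψ = fun t => ∏ i, hval (offN G (img ψ) (hh i))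
      (fun x => aW Y t (degs G (br G (hh i) x)))
      (fun x => Kv i * bW α Y t (degs G (br G (hh i) x)))
      (fun r => w i Δ (dg G (hh i)) r t) 0 := funext (hfDe Δ)
    rw [this]
    refine continuousOn_finsetProd _ fun i _ => ?_
    exact hval_cont (fun x => haWc _) (fun x => continuousOn_const.mul (hbWc _))
      (fun r => hwc i Δ _ r)
  have hfDn : ∀ Δ ψ' t, 0 ≤ t → 0 ≤ fD Δ ψ' t := by
    intro Δ ψ' t ht
    simp only [hfD, wt]
    refine Finset.prod_nonneg fun i _ => ?_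
    rcases ψ' i with _ | h
    · exact le_rfl
    · have := hval_nonneg (O := offN G (img ψ') h) (a := fun x => aW Y t (degs G (br G h x)))
        (b := fun x => Kv i * bW α Y t (degs G (br G h x)))
        (g := fun r => w i Δ (dg G h) r t) (r := 0) (fun x => haW t ht _)
        (fun x => mul_nonneg (hKv i) (hbW t ht _)) (fun r => (hw1 i Δ).nonneg _ _ t ht)
      exact this
  have hfDle : ∀ Δ t, 0 ≤ t → fD Δ ψ t ≤ f t := by
    intro Δ t ht
    rw [hfe, hfDe]
    refine Finset.prod_le_prod (fun i _ => ?_) (fun i _ => ?_)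
    · exact hval_nonneg (fun x => haW t ht _)
        (fun x => mul_nonneg (hKv i) (hbW t ht _)) (fun r => (hw1 i Δ).nonneg _ _ t ht)
    · exact hval_mono (fun x => haW t ht _) (fun x => mul_nonneg (hKv i) (hbW t ht _))
        (fun r => hw2 i Δ _ r t ht)
  have hfDlim : ∀ t, 0 ≤ t → Tendsto (fun Δ => fD Δ ψ t) atTop (𝓝 (f t)) := by
    intro t ht
    rw [hfe]
    simp only [hfDe]
    exact tendsto_finsetProd _ fun i _ => hval_tendsto fun r => hw3 i _ r t ht
  have hsub : Set.Icc t1 t2 ⊆ Set.Ici 0 := fun t ht => ht1.trans ht.1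
  have hsub' : Set.uIoc t1 t2 ⊆ Set.Icc t1 t2 := by
    rw [Set.uIoc_of_le ht12]; exact Set.Ioc_subset_Icc_self
  have hfi : IntervalIntegrable f volume t1 t2 := by
    refine ContinuousOn.intervalIntegrable ?_
    rw [Set.uIcc_of_le ht12]
    exact hfc.mono hsub
  have hfDi : ∀ Δ, IntervalIntegrable (fD Δ ψ) volume t1 t2 := by
    intro Δ
    refine ContinuousOn.intervalIntegrable ?_
    rw [Set.uIcc_of_le ht12]
    exact (hfDc Δ).mono hsub
  have hlim : Tendsto (fun Δ => ∫ t in t1..t2, fD Δ ψ t) atTop (𝓝 (∫ t in t1..t2, f t)) := by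
    refine intervalIntegral.tendsto_integral_filter_of_dominated_convergence f ?_ ?_ hfi ?_
    · refine Eventually.of_forall fun Δ => ?_
      rw [Set.uIoc_of_le ht12]
      exact (hfDi Δ).1.aestronglyMeasurable
    · refine Eventually.of_forall fun Δ => Eventually.of_forall fun t ht => ?_
      have ht0 : 0 ≤ t := hsub (hsub' ht)
      rw [Real.norm_of_nonneg (hfDn Δ ψ t ht0)]
      exact hfDle Δ t ht0
    · exact Eventually.of_forall fun t ht => hfDlim t (hsub (hsub' ht))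
  obtain ⟨Δ, hΔ⟩ : ∃ Δ, (∫ t in t1..t2, f t) - δ / 2 < ∫ t in t1..t2, fD Δ ψ t :=
    (hlim.eventually (lt_mem_nhds (by linarith))).exists
  -- the capped functional
  have ht2 : 0 ≤ t2 := ht1.trans ht12
  obtain ⟨hFc, hFn, hFle⟩ := h1 j n α z J Kv g Y Δ (fun i => w i Δ) G hα0 hα1 hz0 hz1 hY hJ hKv
    hg0 (fun i => hw1 i Δ) hG hn
  have hlim2 := h2 j n α z J Kv g Y Δ (fun i => w i Δ) G hα0 hα1 hz0 hz1 hY hJ hKv
    hg0 hg1 (fun i => hw1 i Δ) hG hn t2 ht2
  obtain ⟨m0, hm0⟩ := eventually_atTop.1 (hlim2.eventually (gt_mem_nhds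
    (show (0 : ℝ) < δ / 2 by linarith)))
  refine ⟨m0, fun m hm => ?_⟩
  have e1 := hFle t2 ht2 m
  have e2 := hm0 m hm
  have hFi : ∀ a b, 0 ≤ a → a ≤ b →
      IntervalIntegrable (fun t => Fcap α J Kv Y (fun i => w i Δ) G t) volume a b := by
    intro a b ha hab
    refine ContinuousOn.intervalIntegrable ?_
    rw [Set.uIcc_of_le hab]
    exact hFc.mono fun t ht => ha.trans ht.1
  have e3 : ∫ t in t1..t2, fD Δ ψ t ≤ ∫ t in t1..t2, Fcap α J Kv Y (fun i => w i Δ) G t := by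
    refine intervalIntegral.integral_mono_on ht12 (hfDi Δ) (hFi t1 t2 ht1 ht12) fun t ht => ?_
    unfold Fcap
    exact Finset.single_le_sum (f := fun ψ' => fD Δ ψ' t)
      (fun ψ' _ => hfDn Δ ψ' t (ht1.trans ht.1)) hψ
  have e4 : ∫ t in t1..t2, Fcap α J Kv Y (fun i => w i Δ) G t ≤
      ∫ t in (0:ℝ)..t2, Fcap α J Kv Y (fun i => w i Δ) G t := by
    rw [← intervalIntegral.integral_add_adjacent_intervals (hFi 0 t1 le_rfl ht1)
      (hFi t1 t2 ht1 ht12)]
    have : 0 ≤ ∫ t in (0:ℝ)..t1, Fcap α J Kv Y (fun i => w i Δ) G t :=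
      intervalIntegral.integral_nonneg ht1 fun t ht => hFn t ht.1
    linarith
  linarith

end Pool.Agent.TH740.J2297
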