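import Mathlib
import Pool.Agent.TH740.IHc
import Pool.Agent.TH615.J2170
import Pool.Agent.TH645.J2186

/-! Job 2357 (IH-T2), preparation: shifts of paths and gadgets. -/

set_option autoImplicit false

open Finset MeasureTheory ProbabilityTheory Filter Topology
open scoped ENNReal NNReal

namespace Pool.Agent.TH740.J2357

open Pool.Agent.TH974.IH Pool.Agent.TH740.IHc Pool.Agent.TH731.IHR4 Pool.Agent.TH615.IHS

theorem adjd_shift {d : ℕ} (a : Zd d) {x y : Zd d} (h : adjd x y) : adjd (x + a) (y + a) := by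
  obtain ⟨i, h | h⟩ := h
  · exact ⟨i, Or.inl (by rw [h, add_right_comm])⟩
  · exact ⟨i, Or.inr (by rw [h, add_right_comm])⟩

theorem onp_shift {d : ℕ} (a : Zd d) (pl : List (Zd d)) (e : Ed d) :
    onp (pl.map (fun v => v + a)) e ↔ onp pl ((e.1 - a, e.2) : Ed d) := by
  rw [onp_iff, onp_iff]
  constructor
  · rintro ⟨k, hk, h⟩
    have hk' : k + 1 < pl.length := by simpa using hk
    refine ⟨k, hk', ?_⟩
    unfold Jn at h ⊢
    rw [hd_shift']
    simp only [List.getElem_map] at h
    rcases h with ⟨h1, h2⟩ | ⟨h1, h2⟩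
    · left; rw [h1, h2]; simp
    · right; rw [h1, h2]; simp
  · rintro ⟨k, hk, h⟩
    refine ⟨k, by simpa using hk, ?_⟩
    unfold Jn at h ⊢
    rw [hd_shift'] at h
    simp only [List.getElem_map]
    rcases h with ⟨h1, h2⟩ | ⟨h1, h2⟩
    · left; rw [← h1, ← h2]; simp
    · right; rw [← h1, ← h2]; simp

theorem apath_shift {d : ℕ} (a : Zd d) (E : Finset (Ed d)) (pl : List (Zd d)) (ω : Env d)
    (h : sh a ω ∈ Apath E pl) : ω ∈ Apath (shE a E) (pl.map (fun v => v + a)) := by
  intro e he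
  rw [mem_shE] at he
  have h1 := h _ he
  have h2 : sh a ω (e.1 - a, e.2) = ω e := by unfold sh; simp
  rw [h2] at h1
  refine ⟨fun h3 => h1.1 ((onp_shift a pl e).1 h3), fun h3 h4 => ?_⟩
  refine h1.2 (fun h5 => h3 ((onp_shift a pl e).2 h5)) ?_
  rw [hd_shift']
  have key : ∀ v, v ∈ pl.map (fun v => v + a) → v - a ∈ pl := by
    intro v hv
    rw [List.mem_map] at hv
    obtain ⟨w, hw, rfl⟩ := hv
    simpa using hw
  exact h4.imp (key _) (key _)

theorem apath_congr {d : ℕ} {E : Finset (Ed d)} {pl : List (Zd d)} {ω ω' : Env d}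
    (h : ∀ e ∈ E, ω e = ω' e) (hω : ω ∈ Apath E pl) : ω' ∈ Apath E pl := by
  intro e he
  rw [← h e he]
  exact hω e he

theorem dep_apath {d : ℕ} (E : Finset (Ed d)) (pl : List (Zd d)) :
    Dep (E : Set (Ed d)) (Apath E pl) := by
  intro ω ω' h
  exact ⟨apath_congr h, apath_congr fun e he => (h e he).symm⟩

theorem gad_congr {d : ℕ} {q s : ℕ} {E : Finset (Ed d)} {V : Finset (Zd d)} {x y : Zd d}
    {ω ω' : Env d} (h : ∀ e ∈ E, ω e = ω' e) (hG : Gad q s E V x y ω) : Gad q s E V x y ω' := by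
  intro u hu
  have h1 : ∀ v, flx E ω' u v = flx E ω u v := fun v => flx_congr E (fun e he => (h e he).symm) u v
  rw [h1, h1]
  exact hG u fun v hv hvx hvy => by rw [← h1]; exact hu v hv hvx hvy

theorem gad_shift {d : ℕ} {q s : ℕ} (a : Zd d) {E : Finset (Ed d)} {V : Finset (Zd d)}
    {x y : Zd d} {ω : Env d} (hG : Gad q s E V x y (sh a ω)) :
    Gad q s (shE a E) (shV a V) (x + a) (y + a) ω := by
  intro u hu
  have h1 := hG (fun v => u (v + a)) (by
    intro v hv hvx hvy
    rw [flx_shift]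
    exact hu _ (mem_shV.2 (by simpa using hv)) (fun h => hvx (add_right_cancel h))
      (fun h => hvy (add_right_cancel h)))
  rw [flx_shift, flx_shift] at h1
  exact h1

theorem isP_shift {d : ℕ} (a : Zd d) {V : Finset (Zd d)} {pl : List (Zd d)} {x y : Zd d}
    (h : IsP V pl x y) : IsP (shV a V) (pl.map (fun v => v + a)) (x + a) (y + a) where
  nodup := h.nodup.map fun _ _ h => add_right_cancel h
  chain := by
    rw [List.isChain_map]
    exact h.chain.imp fun _ _ h => adjd_shift a h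
  head := by rw [List.head?_map, h.head]; rfl
  last := by rw [List.getLast?_map, h.last]; rfl
  len := by rw [List.length_map]; exact h.len
  mem := by
    intro v hv
    rw [List.mem_map] at hv
    obtain ⟨w, hw, rfl⟩ := hv
    rcases h.mem w hw with h1 | h1 | h1
    · left; rw [h1]
    · right; left; rw [h1]
    · right; right; exact mem_shV.2 (by simpa using h1)

/-- dimension of the space of reductions of harmonic functions -/
theorem dim_HH {d N L : ℕ} (hd1 : 1 ≤ d) (hL : 2 ≤ L) (hN : 1 ≤ N) (ω : Env d) (q : ℕ)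
    [Fact q.Prime] :
    (Module.finrank (ZMod q) (HH q (DD d N L) (BB d N L) ω) : ℝ) ≤
      Module.finrank (ZMod q) (CC (ZMod q) (DD d N L) ω) + 2 * d * (N * L : ℝ) ^ (d - 1) := by
  have h2 := Pool.Agent.TH999.J2183.HH_le_WW _ _ (B_sub_D d N L) (B_nbr d N L) ω q
  have h3 := Pool.Agent.TH999.J2182.energy _ _ (B_sub_D d N L) (B_nbr d N L) ω
  have h4 := Pool.Agent.TH999.J2180.CC_rank (DD d N L) ω q
  have h5 := Pool.Agent.TH740.J2189.card_DB d N L hd1 hL hN
  have h6 : Module.finrank (ZMod q) (HH q (DD d N L) (BB d N L) ω) ≤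
      Module.finrank (ZMod q) (CC (ZMod q) (DD d N L) ω) + (DD d N L \ BB d N L).card := by
    omega
  have h7 : (Module.finrank (ZMod q) (HH q (DD d N L) (BB d N L) ω) : ℝ) ≤
      (Module.finrank (ZMod q) (CC (ZMod q) (DD d N L) ω) : ℝ) +
        ((DD d N L \ BB d N L).card : ℝ) := by
    exact_mod_cast h6
  linarith

end Pool.Agent.TH740.J2357
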