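import Mathlib
import Pool.Agent.TH740.J2357a
import Pool.Agent.TH974.IH.S1d

/-! Job 2357 (IH-T2): currents along isolated paths are divisible by `q`. -/

set_option autoImplicit false

open Finset MeasureTheory ProbabilityTheory Filter Topology
open scoped ENNReal NNReal

namespace Pool.Agent.TH740.J2357

open Pool.Agent.TH974.IH Pool.Agent.TH974.IHG Pool.Agent.TH740.IHc Pool.Agent.TH731.IHR4 Pool.Agent.TH615.IHS

theorem S1P {d : ℕ} (hd1 : 1 ≤ d) (p : ℝ) (hp0 : 0 < p) (hp1 : p < 1) (X : Loc d) (hX : X.OK)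
    (hL : 2 ≤ X.L) (x y : Zd d) (hT : X.T = {x, y}) (pl : List (Zd d))
    (hpl : IsP (X.V \ X.T) pl x y) (hE : ∀ e, onp pl e → e ∈ X.E) (q : ℕ) (hq : q.Prime)
    (β : Env d) (hβ : Gad q (pl.length - 1) X.E (X.V \ X.T) x y β) (η : ℝ) (hη : 0 < η) :
    ∃ r : ℕ, (perc d p).real {ω | ω ∈ X.G ∧ ω ∈ Apath X.E pl ∧ ∃ u, HarC r ω u ∧
      ¬ Flat q ω X.T X.E u} ≤ η := by
  classical
  have hp0' := hp0.le
  have hp1' := hp1.le
  have hprob : IsProbabilityMeasure (perc d p) := Pool.Agent.TH645.IH.perc_prob p hp0' hp1'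
  have hqf : Fact q.Prime := ⟨hq⟩
  have hL1 : 1 ≤ X.L := by omega
  have hlen := hpl.len
  have hxT : x ∈ X.T := by rw [hT]; simp
  have hyT : y ∈ X.T := by rw [hT]; simp
  have hx0 : x ∉ X.V \ X.T := fun h => (Finset.mem_sdiff.1 h).2 hxT
  have hy0 : y ∉ X.V \ X.T := fun h => (Finset.mem_sdiff.1 h).2 hyT
  -- cells
  have hVc : ∀ v ∈ X.V, v ∈ cube d 0 ((X.L : ℤ) - 1) := fun v hv =>
    cube_mono (by omega) (by omega) (hX.VL hv)
  have hEc : ∀ e ∈ X.E, e.1 ∈ cube d 0 ((X.L : ℤ) - 1) ∧ hd e ∈ cube d 0 ((X.L : ℤ) - 1) :=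
    fun e he => ⟨hVc _ (hX.EV e he).1, hVc _ (hX.EV e he).2⟩
  have hplV : ∀ v ∈ pl, v ∈ X.V := by
    intro v hv
    rcases hpl.mem v hv with rfl | rfl | h
    · exact hX.TV hxT
    · exact hX.TV hyT
    · exact (Finset.mem_sdiff.1 h).1
  have hclG : ∀ ω ∈ X.G, ∀ e, e ∉ X.E → (e.1 ∈ X.V \ X.T ∨ hd e ∈ X.V \ X.T) → ω e = false := by
    intro ω hω e he h
    exact hX.Gcl ω hω e he (h.imp Finset.mem_sdiff.1 Finset.mem_sdiff.1)
  set a0 : Zd d := pl[0] with ha0
  set a1 : Zd d := pl[1] with ha1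
  have ha0V : a0 ∈ X.V := hplV _ (List.getElem_mem _)
  have ha1V : a1 ∈ X.V := hplV _ (List.getElem_mem _)
  -- the two events
  set S : Set (Env d) := {ω | ∀ e ∈ X.E, ω e = β e} with hS
  have hSd : Dep (X.E : Set (Ed d)) S := by
    have key : ∀ ω ω' : Env d, (∀ e ∈ X.E, ω e = ω' e) → ω ∈ S → ω' ∈ S := by
      intro ω ω' h hω e he
      rw [← h e he]
      exact hω e he
    intro ω ω' h
    exact ⟨key ω ω' h, key ω' ω fun e he => (h e he).symm⟩
  have hSR : Disjoint S (Apath X.E pl) := by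
    rw [Set.disjoint_left]
    intro ω h1 h2
    exact gad_not_path q hq.two_le (X.V \ X.T) X.E x y pl hpl hx0 hy0 hE β hβ
      (apath_congr h1 h2)
  have hcyl : ∀ γ : Env d, 0 < (perc d p).real {ω | ∀ e ∈ X.E, ω e = γ e} := by
    intro γ
    rw [Pool.Agent.TH645.IH.perc_cyl p hp0' hp1']
    refine Finset.prod_pos fun e _ => ?_
    split_ifs <;> linarith
  have hSpos : 0 < (perc d p).real S := hcyl β
  have hRpos : 0 < (perc d p).real (Apath X.E pl) := by
    refine (hcyl (fun e => decide (onp pl e))).trans_le (measureReal_mono ?_)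
    intro ω hω e he
    have h1 := hω e he
    refine ⟨fun h2 => by rw [h1]; simpa using h2, fun h2 _ => by rw [h1]; simpa using h2⟩
  set ε : ℝ := (perc d p).real S / ((perc d p).real S + (perc d p).real (Apath X.E pl)) with hε
  have hsum : 0 < (perc d p).real S + (perc d p).real (Apath X.E pl) := by linarith
  have hεpos : 0 < ε := div_pos hSpos hsum
  have hεle : ε * ((perc d p).real S + (perc d p).real (Apath X.E pl)) ≤ (perc d p).real S := by
    rw [hε, div_mul_cancel₀ _ hsum.ne']
  -- the estimate for each `N`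
  have hmainN : ∀ N : ℕ, 1 ≤ N → (N : ℝ) ^ d * (perc d p).real
      {ω | ω ∈ X.G ∧ ω ∈ Apath X.E pl ∧ ∃ u, HarC (N * X.L) ω u ∧ ¬ Flat q ω X.T X.E u} ≤
        2 * d * (N * X.L : ℝ) ^ (d - 1) / ε := by
    intro N hN
    obtain ⟨Ξ, ν, hν0, hν1, hmain⟩ := Pool.Agent.TH740.J2355.GRP p hp0 hp1 X.L N hL1 X.E hEc X.G S
      (Apath X.E pl) hX.Gdep hSd (dep_apath X.E pl) hSR hRpos ε hεle
    set NF : (Fin d → Fin N) → Set (Env d) := fun z => {ω | ∃ u : Zd d → ℤ,
      (∀ v ∈ BB d N X.L, Lap ω u v = 0) ∧ ¬ (q : ℤ) ∣ u (a1 + pos X.L z) - u (a0 + pos X.L z)}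
      with hNF
    have hNFd : ∀ z, Dep (ED d N X.L) (NF z) := by
      intro z
      have key : ∀ ω ω' : Env d, (∀ e ∈ ED d N X.L, ω e = ω' e) → ω ∈ NF z → ω' ∈ NF z := by
        intro ω ω' h hω
        obtain ⟨u, hu, hne⟩ := hω
        exact ⟨u, fun v hv => by rw [← lap_dep h u hv]; exact hu v hv, hne⟩
      intro ω ω' h
      exact ⟨key ω ω' h, key ω' ω fun e he => (h e he).symm⟩
    set UZ : Env d → (Fin d → Fin N) → Submodule (ZMod q) (DD d N X.L → ZMod q) := fun ω z =>
      UU (ZMod q) (DD d N X.L)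
        (fun a b => sh (pos X.L z) ω ∈ Apath X.E pl ∧ a = a1 ∧ b = a0) (pos X.L z) with hUZ
    have hVD : ∀ (z' : Fin d → Fin N) (v : Zd d), v ∈ X.V → v + pos X.L z' ∈ DD d N X.L :=
      fun z' v hv => cell_D (hVc v hv) z'
    have h1 := hmain q (fun ω => HH q (DD d N X.L) (BB d N X.L) ω) UZ NF hNFd ?_
    · -- conclusion
      have h2 : ∀ ω : Env d, (Module.finrank (ZMod q)
            (HH q (DD d N X.L) (BB d N X.L) ω) : ℝ) -
          Module.finrank (ZMod q) (HH q (DD d N X.L) (BB d N X.L) ω ⊓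
            ⨅ (z : Fin d → Fin N) (_ : sh (pos X.L z) ω ∈ X.G), UZ ω z :
              Submodule (ZMod q) (DD d N X.L → ZMod q)) ≤
          2 * d * (N * X.L : ℝ) ^ (d - 1) := by
        intro ω
        have h3 := dim_HH (N := N) hd1 hL hN ω q
        have h4 : CC (ZMod q) (DD d N X.L) ω ≤ HH q (DD d N X.L) (BB d N X.L) ω ⊓
            ⨅ (z : Fin d → Fin N) (_ : sh (pos X.L z) ω ∈ X.G), UZ ω z := by
          refine le_inf (Pool.Agent.TH999.J2181.CC_le_HH _ _ (B_sub_D d N X.L)
            (B_nbr d N X.L) ω q) ?_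
          refine le_iInf fun z => le_iInf fun _ => ?_
          intro w hw
          rw [hUZ, mem_UU]
          rintro a b ⟨hA, rfl, rfl⟩
          rw [ext_of_mem _ (hVD z _ ha1V), ext_of_mem _ (hVD z _ ha0V)]
          obtain ⟨e, he⟩ := Jn_exists (List.isChain_iff_getElem.1 hpl.chain 0 (by omega))
          have hon : onp pl e := onp_iff.2 ⟨0, by omega, he⟩
          have heo : ω (e.1 + pos X.L z, e.2) = true := (hA e (hE e hon)).1 hon
          rcases he with ⟨h5, h6⟩ | ⟨h5, h6⟩
          · exact (hw ⟨_, hVD z _ ha0V⟩ ⟨_, hVD z _ ha1V⟩ _ heo (by rw [h5])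
              (by rw [hd_shift, h6])).symm
          · exact hw ⟨_, hVD z _ ha1V⟩ ⟨_, hVD z _ ha0V⟩ _ heo (by rw [h5])
              (by rw [hd_shift, h6])
        have h5 := Submodule.finrank_mono h4
        have h6 : (Module.finrank (ZMod q) (CC (ZMod q) (DD d N X.L) ω) : ℝ) ≤
            Module.finrank (ZMod q) (HH q (DD d N X.L) (BB d N X.L) ω ⊓
            ⨅ (z : Fin d → Fin N) (_ : sh (pos X.L z) ω ∈ X.G), UZ ω z :
              Submodule (ZMod q) (DD d N X.L → ZMod q)) := by exact_mod_cast h5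
        linarith
      have h3 : ε * ∑ z : Fin d → Fin N, (perc d p).real
          {ω | sh (pos X.L z) ω ∈ X.G ∧ sh (pos X.L z) ω ∈ Apath X.E pl ∧ ω ∈ NF z} ≤
          2 * d * (N * X.L : ℝ) ^ (d - 1) := by
        refine h1.trans ?_
        calc _ ≤ ∑ ω ∈ Ξ, ν ω * (2 * d * (N * X.L : ℝ) ^ (d - 1)) :=
              Finset.sum_le_sum fun ω _ => mul_le_mul_of_nonneg_left (h2 ω) (hν0 ω)
          _ = _ := by
              rw [← Finset.sum_mul, hν1, one_mul]
      set tgt : Set (Env d) := {ω | ω ∈ X.G ∧ ω ∈ Apath X.E pl ∧ ∃ u, HarC (N * X.L) ω u ∧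
          ¬ Flat q ω X.T X.E u} with htgt
      have h4 : ∀ z : Fin d → Fin N, (perc d p).real tgt ≤
          (perc d p).real
            {ω | sh (pos X.L z) ω ∈ X.G ∧ sh (pos X.L z) ω ∈ Apath X.E pl ∧ ω ∈ NF z} := by
        intro z
        rw [← real_shift p hp0' hp1' (pos X.L z) tgt]
        refine measureReal_mono ?_
        rintro ω ⟨hG, hA, u', hu', hfl⟩
        refine ⟨hG, hA, fun v => u' (v - pos X.L z), fun v hv =>
          har_B (r := N * X.L) le_rfl ω z hu' hv, ?_⟩
        obtain ⟨I, hI, hIx, hIy⟩ := S1lin (X.V \ X.T) X.E x y pl hpl hx0 hy0 hE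
          (sh (pos X.L z) ω) hA (hclG _ hG) u' (by
            intro v hv
            apply hu'
            have h5 := hX.VL (Finset.mem_sdiff.1 hv).1
            refine cube_mono ?_ ?_ h5
            · have : (0 : ℤ) ≤ ((N * X.L : ℕ) : ℤ) := Int.natCast_nonneg _
              omega
            · have : (X.L : ℤ) ≤ ((N * X.L : ℕ) : ℤ) := by
                exact_mod_cast Nat.le_mul_of_pos_left _ (by omega)
              omega)
        have e0 := hI 0 (by omega)
        have e1 := hI 1 (by omega)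
        simp only [add_sub_cancel_right]
        intro hdvd
        have hqI : (q : ℤ) ∣ I := by
          have : u' a1 - u' a0 = I := by
            rw [ha1, ha0, e1, e0]; push_cast; ring
          rw [← this]; exact hdvd
        apply hfl
        have hxy : ((u' y : ℤ) : ZMod q) = ((u' x : ℤ) : ZMod q) := by
          have e2 := hI (pl.length - 1) (by omega)
          rw [IsP_last hpl (k := pl.length - 1) (by omega)] at e2
          rw [e2, Int.cast_add, Int.cast_mul]
          have : ((I : ℤ) : ZMod q) = 0 := (ZMod.intCast_zmod_eq_zero_iff_dvd _ q).2 hqI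
          rw [this, mul_zero, add_zero]
        constructor
        · rw [hT]
          intro a ha b hb
          rw [Finset.mem_insert, Finset.mem_singleton] at ha hb
          rcases ha with rfl | rfl <;> rcases hb with rfl | rfl
          · rfl
          · exact hxy.symm
          · exact hxy
          · rfl
        · rw [hT]
          intro a ha
          rw [Finset.mem_insert, Finset.mem_singleton] at ha
          rw [ZMod.intCast_zmod_eq_zero_iff_dvd]
          rcases ha with rfl | rfl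
          · rw [hIx]; exact hqI
          · rw [hIy]; exact (dvd_neg).2 hqI
      have h5 := Finset.sum_le_sum fun z (_ : z ∈ (Finset.univ : Finset (Fin d → Fin N))) => h4 z
      rw [Finset.sum_const] at h5
      simp only [Finset.card_univ, Fintype.card_pi, Fintype.card_fin, Finset.prod_const,
        nsmul_eq_mul, Nat.cast_pow] at h5
      rw [le_div_iff₀ hεpos]
      nlinarith
    · -- the hypothesis of the replacement lemma
      intro ω ω' hoff hrep z hGz hRz hNFz
      obtain ⟨u, hu, hne⟩ := hNFz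
      set A : Finset (Fin d → Fin N) := Finset.univ.filter
        (fun z' => sh (pos X.L z') ω ∈ X.G ∧ sh (pos X.L z') ω ∈ S) with hA
      have memA : ∀ z', z' ∈ A ↔ sh (pos X.L z') ω ∈ X.G ∧ sh (pos X.L z') ω ∈ S := by
        intro z'; simp [hA]
      have hins : ∀ (z' : Fin d → Fin N) (v : Zd d),
          v ∈ insert (x + pos X.L z') (insert (y + pos X.L z') (shV (pos X.L z') (X.V \ X.T))) ↔
            v - pos X.L z' ∈ X.V := by
        intro z' v
        rw [Finset.mem_insert, Finset.mem_insert, mem_shV, Finset.mem_sdiff, hT,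
          Finset.mem_insert, Finset.mem_singleton]
        constructor
        · rintro (rfl | rfl | h)
          · simpa using hX.TV hxT
          · simpa using hX.TV hyT
          · exact h.1
        · intro h
          by_cases h2 : v = x + pos X.L z'
          · exact Or.inl h2
          · by_cases h3 : v = y + pos X.L z'
            · exact Or.inr (Or.inl h3)
            · refine Or.inr (Or.inr ⟨h, ?_⟩)
              rintro (h4 | h4)
              · exact h2 (sub_eq_iff_eq_add.1 h4)
              · exact h3 (sub_eq_iff_eq_add.1 h4)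
      obtain ⟨u', hu1, hu2, hu3⟩ := S1det q (BB d N X.L) A
        (fun z' => shV (pos X.L z') (X.V \ X.T)) (fun z' => x + pos X.L z')
        (fun z' => y + pos X.L z') (fun z' => shE (pos X.L z') X.E)
        (fun z' => pl.map (fun v => v + pos X.L z')) ω ω'
        (fun z' _ h => hx0 (by rw [mem_shV] at h; simpa using h))
        (fun z' _ h => hy0 (by rw [mem_shV] at h; simpa using h))
        (fun z' _ v hv => by
          rw [mem_shV] at hv
          have h2 := cell_B (N := N) (hX.VL (Finset.mem_sdiff.1 hv).1) z'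
          simpa using h2)
        (fun z' _ => isP_shift (pos X.L z') hpl)
        (fun z' _ z'' _ hne' => by
          rw [Finset.disjoint_left]
          intro v hv hv'
          rw [hins] at hv hv'
          exact hne' (cell_eq hL1 (hVc _ hv) (hVc _ hv')))
        (fun z' _ e he => by
          have h2 := hX.EV _ (mem_shE.1 he)
          rw [hins, hins]
          refine ⟨h2.1, ?_⟩
          rw [← hd_shift']
          exact h2.2)
        (fun z' _ e he => mem_shE.2 (hE _ ((onp_shift _ _ _).1 he)))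
        (fun z' hz' e he h => by
          have hG := ((memA z').1 hz').1
          have h2 := hclG _ hG (e.1 - pos X.L z', e.2) (fun h3 => he (mem_shE.2 h3)) (by
            rw [hd_shift']
            exact h.imp mem_shV.1 mem_shV.1)
          have h3 : sh (pos X.L z') ω (e.1 - pos X.L z', e.2) = ω e := by
            unfold sh
            simp
          rw [← h3]
          exact h2)
        (fun e he => hoff e fun z' h2 h3 h4 => he z' ((memA z').2 ⟨h2, h3⟩) (mem_shE.2 h4))
        (fun z' hz' => apath_shift _ _ _ _ (hrep z' ((memA z').1 hz').1 ((memA z').1 hz').2))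
        (fun z' hz' => by
          rw [List.length_map]
          refine gad_shift _ (gad_congr (fun e he => ?_) hβ)
          exact (((memA z').1 hz').2 e he).symm)
        u hu
      have hzA : z ∉ A := fun h => Set.disjoint_left.1 hSR ((memA z).1 h).2 hRz
      have hout : ∀ v ∈ X.V, ∀ i ∈ A, v + pos X.L z ∉ shV (pos X.L i) (X.V \ X.T) := by
        intro v hv i hi h4
        rw [mem_shV] at h4
        have h5 : z = i := cell_eq hL1 (x := v + pos X.L z)
          (by simpa using hVc v hv) (hVc _ (Finset.mem_sdiff.1 h4).1)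
        exact hzA (h5 ▸ hi)
      intro hle
      have hmem : (fun v : DD d N X.L => ((u' v : ℤ) : ZMod q)) ∈
          (HH q (DD d N X.L) (BB d N X.L) ω' ⊓
          ⨅ (z' : Fin d → Fin N) (_ : sh (pos X.L z') ω ∈ X.G ∧ sh (pos X.L z') ω ∈ S),
            UZ ω' z') := by
        refine ⟨Submodule.subset_span ⟨u', hu1, fun _ => rfl⟩, ?_⟩
        simp only [Submodule.mem_iInf, SetLike.mem_coe]
        intro z' hz'
        rw [hUZ, mem_UU]
        rintro a b ⟨_, rfl, rfl⟩
        rw [ext_of_mem _ (hVD z' _ ha1V), ext_of_mem _ (hVD z' _ ha0V)]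
        have h3 := hu2 z' ((memA z').2 hz') 0 (by rw [List.length_map]; omega)
        simp only [List.getElem_map] at h3
        rw [← sub_eq_zero, ← Int.cast_sub, ZMod.intCast_zmod_eq_zero_iff_dvd]
        exact h3
      have h2 := hle hmem
      rw [hUZ, mem_UU] at h2
      have hAz : sh (pos X.L z) ω' ∈ Apath X.E pl := by
        refine apath_congr (fun e he => ?_) hRz
        refine (hoff _ fun z' h3 h4 h5 => ?_).symm
        have h6 : z = z' := by
          have h7 : e.1 + pos X.L z - pos X.L z' ∈ cube d 0 ((X.L : ℤ) - 1) := (hEc _ h5).1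
          exact cell_eq hL1 (x := e.1 + pos X.L z) (by simpa using (hEc e he).1) h7
        subst h6
        exact Set.disjoint_left.1 hSR h4 hRz
      have h3 := h2 a1 a0 ⟨hAz, rfl, rfl⟩
      rw [ext_of_mem _ (hVD z _ ha1V), ext_of_mem _ (hVD z _ ha0V)] at h3
      apply hne
      rw [← hu3 _ (hout a1 ha1V), ← hu3 _ (hout a0 ha0V), ← ZMod.intCast_zmod_eq_zero_iff_dvd,
        Int.cast_sub, sub_eq_zero]
      exact h3
  -- choice of `N`
  set c : ℝ := 2 * d * (X.L : ℝ) ^ (d - 1) / ε with hc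
  have hc0 : 0 ≤ c := by positivity
  obtain ⟨N, hN⟩ := exists_nat_gt (c / η)
  refine ⟨(N + 1) * X.L, ?_⟩
  have h1 := hmainN (N + 1) (by omega)
  set Pr := (perc d p).real {ω | ω ∈ X.G ∧ ω ∈ Apath X.E pl ∧
    ∃ u, HarC ((N + 1) * X.L) ω u ∧ ¬ Flat q ω X.T X.E u} with hPr
  have hN1 : (0 : ℝ) < ((N + 1 : ℕ) : ℝ) := by positivity
  have h2 : 2 * d * (((N + 1 : ℕ) : ℝ) * X.L) ^ (d - 1) / ε = ((N + 1 : ℕ) : ℝ) ^ (d - 1) * c := by
    rw [hc, mul_pow]; ring
  rw [h2] at h1
  have h3 : ((N + 1 : ℕ) : ℝ) ^ d = ((N + 1 : ℕ) : ℝ) ^ (d - 1) * ((N + 1 : ℕ) : ℝ) := by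
    rw [← pow_succ]; congr 1; omega
  rw [h3, mul_assoc] at h1
  have h4 := le_of_mul_le_mul_left h1 (by positivity)
  have h5 : c < η * ((N + 1 : ℕ) : ℝ) := by
    rw [div_lt_iff₀ hη] at hN
    push_cast
    nlinarith
  by_contra h6
  push Not at h6
  nlinarith

end Pool.Agent.TH740.J2357
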