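import Pool.Agent.TH614.HS.Base

/-!
# HS-MT: the q-power transformation on root data (job 3860)
-/

set_option autoImplicit false

namespace Pool.Agent.TH740.J3860

open Pool.Agent.TH614.HS Polynomial

theorem MT : S_HAT → S_MT := by
  intro hH L _ _ D x s mu eta hx hRD
  obtain ⟨hs, hRD⟩ := hRD
  have hx6 := hx.p6
  have h1 := hH L D.th _ _ _ _ _ _ s mu eta D.two_ne D.th2 hx.PL hs hRD
  refine ⟨inv_ne_zero (pow_ne_zero _ hs), ?_⟩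
  have e2 : (x ^ (D.q ^ 4)) ^ (D.q ^ 2) = x := by rw [D.pp, hx6]
  have e4 : (x ^ (D.q ^ 4)) ^ (D.q ^ 4) = x ^ (D.q ^ 2) := by rw [D.pp, D.p8 hx6]
  have e3 : (x ^ (D.q ^ 4)) ^ (D.q ^ 3) = x ^ D.q := by rw [D.pp, D.p7 hx6]
  have e5 : (x ^ (D.q ^ 4)) ^ (D.q ^ 5) = x ^ (D.q ^ 3) := by rw [D.pp, D.p9 hx6]
  have e1 : (x ^ (D.q ^ 4)) ^ D.q = x ^ (D.q ^ 5) := by rw [D.pq]
  rw [e2, e4, e3, e5, e1]
  intro P0 P1 P2 Y hP
  obtain ⟨k0, k1, k2⟩ := hP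
  obtain ⟨R0, R1, R2, Z, hR, g0, g1, g2, g3⟩ :=
    HD.root1 (P0 := P1) (P1 := P2) (P2 := P0) (Y := Y) hx ⟨k1, k2, k0⟩
  have h2 := h1 R0 R1 R2 Z hR
  have h3 := congrArg D.fr h2
  simp only [Dq, map_add, map_sub, map_mul, map_div₀, map_neg, map_pow, map_inv₀, map_ofNat] at h3
  simp only [D.fr_def, g0, g1, g2, g3, D.thq, D.qp] at h3
  norm_num only at h3
  simp only [Dq, HD.nt, HD.mM, HD.mE]
  have e6 : s ^ (2 * D.q) = (s ^ D.q) ^ 2 := by rw [mul_comm, pow_mul]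
  rw [e6]
  generalize s ^ D.q = S at h3 ⊢
  generalize x ^ D.q = X1 at h3 ⊢
  generalize x ^ D.q ^ 4 = X4 at h3 ⊢
  generalize mu ^ D.q = M at h3 ⊢
  generalize eta ^ D.q = N at h3 ⊢
  rw [div_inv_eq_mul] at h3 ⊢
  linear_combination h3

end Pool.Agent.TH740.J3860
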