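import Pool.Agent.TH614.HS.Base

/-!
# HS-RT: roots of Phi and root data (job 3861)
-/

set_option autoImplicit false

namespace Pool.Agent.TH740.J3861

open Pool.Agent.TH614.HS Polynomial

/-- coordinates on the line -/
theorem dq_coord {L : Type} [Field L] {th x0 x1 x2 y0 y1 y2 s P0 P1 P2 Y : L} (hx0 : x0 ≠ 0) (hs : s ≠ 0)
    (h : OnL x0 x1 x2 y0 y1 y2 P0 P1 P2 Y) :
    Dq th s P0 P1 P2 Y = (s ^ 2 + x1 * x2 / (x0 ^ 2 * s)) * P0 ^ 2 +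
      (-th * s + (x2 * y2 - x1 * y1) / (x0 ^ 2 * s)) * (P0 * Y) + (1 - y1 * y2 / (x0 ^ 2 * s)) * Y ^ 2 := by
  obtain ⟨-, h1, h2⟩ := h
  have hP1 : P1 = (x1 * P0 + Y * y2) / x0 := by
    rw [eq_div_iff hx0]
    linear_combination h2
  have hP2 : P2 = (x2 * P0 - Y * y1) / x0 := by
    rw [eq_div_iff hx0]
    linear_combination -h1
  rw [Dq, hP1, hP2]
  field_simp
  ring

/-- the discriminant -/
theorem disc {L : Type} [Field L] {th x0 x1 x2 y0 y1 y2 s : L} (hx0 : x0 ≠ 0) (hs : s ≠ 0)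
    (hp : x0 * y0 + x1 * y1 + x2 * y2 = 0) (ht : th ^ 2 = 3) :
    x0 ^ 4 * s ^ 2 * ((-th * s + (x2 * y2 - x1 * y1) / (x0 ^ 2 * s)) ^ 2 -
      4 * (s ^ 2 + x1 * x2 / (x0 ^ 2 * s)) * (1 - y1 * y2 / (x0 ^ 2 * s))) =
    -x0 ^ 2 * (x0 ^ 2 * s ^ 4 - 4 * y1 * y2 * s ^ 3 - 2 * th * (x1 * y1 - x2 * y2) * s ^ 2
      + 4 * x1 * x2 * s - y0 ^ 2) := by
  have h1 : x0 ^ 4 * s ^ 2 * ((-th * s + (x2 * y2 - x1 * y1) / (x0 ^ 2 * s)) ^ 2 -
      4 * (s ^ 2 + x1 * x2 / (x0 ^ 2 * s)) * (1 - y1 * y2 / (x0 ^ 2 * s))) =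
      (-th * s ^ 2 * x0 ^ 2 + (x2 * y2 - x1 * y1)) ^ 2 -
        4 * (s ^ 3 * x0 ^ 2 + x1 * x2) * (x0 ^ 2 * s - y1 * y2) := by
    field_simp
  rw [h1]
  linear_combination (s ^ 4 * x0 ^ 4) * ht + (x1 * y1 + x2 * y2 - x0 * y0) * hp

/-- value of `Phi` -/
theorem phi_eval {L : Type} [Field L] (D : HD L) (x s : L) :
    (D.Phi x).eval s = x ^ 2 * s ^ 4 - 4 * x ^ (D.q ^ 5) * x ^ D.q * s ^ 3
      - 2 * D.th * (x ^ (D.q ^ 2) * x ^ (D.q ^ 5) - x ^ (D.q ^ 4) * x ^ D.q) * s ^ 2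
      + 4 * x ^ (D.q ^ 2) * x ^ (D.q ^ 4) * s - (x ^ (D.q ^ 3)) ^ 2 := by
  simp only [HD.Phi, eval_sub, eval_add, eval_mul, eval_pow, eval_C, eval_X]

/-- existence of the square root of a degenerate binary quadratic form -/
theorem sq_form {L : Type} [Field L] [IsAlgClosed L] (al be ga : L)
    (h : be ^ 2 - 4 * al * ga = 0) : ∃ A B : L, A ^ 2 = al ∧ 2 * A * B = be ∧ B ^ 2 = ga := by
  obtain ⟨A, hA⟩ := IsAlgClosed.exists_pow_nat_eq al (n := 2) (by norm_num)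
  obtain ⟨B, hB⟩ := IsAlgClosed.exists_pow_nat_eq ga (n := 2) (by norm_num)
  have h1 : (2 * A * B - be) * (2 * A * B + be) = 0 := by
    linear_combination (4 * B ^ 2) * hA + (4 * al) * hB - h
  rcases mul_eq_zero.1 h1 with h3 | h3
  · exact ⟨A, B, hA, by linear_combination h3, hB⟩
  · exact ⟨A, -B, hA, by linear_combination -h3, by rw [neg_sq, hB]⟩

/-- root data in coordinates -/
theorem rd_iff {L : Type} [Field L] {th x0 x1 x2 y0 y1 y2 s mu eta : L}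
    (hPL : PL x0 x1 x2 y0 y1 y2) (hs : s ≠ 0) :
    RDa th x0 x1 x2 y0 y1 y2 s mu eta ↔
      s ^ 2 + x1 * x2 / (x0 ^ 2 * s) = (mu * s) ^ 2 ∧
      -th * s + (x2 * y2 - x1 * y1) / (x0 ^ 2 * s) = 2 * (mu * s) * eta ∧
      1 - y1 * y2 / (x0 ^ 2 * s) = eta ^ 2 := by
  constructor
  · intro h
    have h1 : ∀ P0 Y : L, (s ^ 2 + x1 * x2 / (x0 ^ 2 * s)) * P0 ^ 2 +
        (-th * s + (x2 * y2 - x1 * y1) / (x0 ^ 2 * s)) * (P0 * Y) + (1 - y1 * y2 / (x0 ^ 2 * s)) * Y ^ 2 =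
        (mu * s * P0 + eta * Y) ^ 2 := by
      intro P0 Y
      have h3 := OnL.param hPL P0 Y
      rw [← dq_coord hPL.1 hs h3]
      exact h _ _ _ _ h3
    have a := h1 1 0
    have b := h1 0 1
    have c := h1 1 1
    refine ⟨by linear_combination a, by linear_combination c - a - b, by linear_combination b⟩
  · rintro ⟨a, b, c⟩ P0 P1 P2 Y h
    rw [dq_coord hPL.1 hs h, a, b, c]
    ring

theorem RT : S_RT := by
  intro L _ _ D x s hx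
  have hx6 := hx.p6
  have hPL := hx.PL
  have hx0 : x ≠ 0 := hx.ne
  have hp := hPL.2.2.2.2.2.2
  constructor
  · intro h
    rw [phi_eval] at h
    have hs : s ≠ 0 := by
      rintro rfl
      have h3 : (x ^ (D.q ^ 3)) ^ 2 = 0 := by linear_combination -h
      exact pow_ne_zero 2 hPL.2.2.2.1 h3
    have hd := disc hx0 hs hp D.th2
    rw [h, mul_zero] at hd
    have hd2 : (-D.th * s + (x ^ (D.q ^ 4) * x ^ D.q - x ^ (D.q ^ 2) * x ^ (D.q ^ 5)) / (x ^ 2 * s)) ^ 2 -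
        4 * (s ^ 2 + x ^ (D.q ^ 2) * x ^ (D.q ^ 4) / (x ^ 2 * s)) *
          (1 - x ^ (D.q ^ 5) * x ^ D.q / (x ^ 2 * s)) = 0 := by
      rcases mul_eq_zero.1 hd with h3 | h3
      · exact absurd h3 (mul_ne_zero (pow_ne_zero _ hx0) (pow_ne_zero _ hs))
      · exact h3
    obtain ⟨A, B, hA, hAB, hB⟩ := sq_form _ _ _ hd2
    refine ⟨A / s, B, hs, (rd_iff hPL hs).2 ⟨?_, ?_, hB.symm⟩⟩
    · rw [div_mul_cancel₀ _ hs, hA]
    · rw [div_mul_cancel₀ _ hs, hAB]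
  · rintro mu eta ⟨hs, hRD⟩
    obtain ⟨a, b, c⟩ := (rd_iff hPL hs).1 hRD
    have hd := disc hx0 hs hp D.th2
    have h0 : (D.Phi x).eval s = 0 := by
      rw [phi_eval]
      rw [a, b, c] at hd
      have h3 : -x ^ 2 * (x ^ 2 * s ^ 4 - 4 * x ^ (D.q ^ 5) * x ^ D.q * s ^ 3
          - 2 * D.th * (x ^ (D.q ^ 2) * x ^ (D.q ^ 5) - x ^ (D.q ^ 4) * x ^ D.q) * s ^ 2
          + 4 * x ^ (D.q ^ 2) * x ^ (D.q ^ 4) * s - (x ^ (D.q ^ 3)) ^ 2) = 0 := by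
        linear_combination -hd
      rcases mul_eq_zero.1 h3 with h4 | h4
      · exact absurd h4 (neg_ne_zero.2 (pow_ne_zero _ hx0))
      · exact h4
    refine ⟨h0, ?_⟩
    by_contra hcon
    push Not at hcon
    obtain ⟨rfl, rfl⟩ := hcon
    have h1 : x ^ (D.q ^ 5) * x ^ D.q = x ^ 2 * s := by
      have h3 : x ^ (D.q ^ 5) * x ^ D.q / (x ^ 2 * s) = 1 := by linear_combination -c
      rwa [div_eq_one_iff_eq (mul_ne_zero (pow_ne_zero _ hx0) hs)] at h3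
    have h2 : x ^ (D.q ^ 2) * x ^ (D.q ^ 4) = -(x ^ 2 * s ^ 3) := by
      have h3 : x ^ (D.q ^ 2) * x ^ (D.q ^ 4) / (x ^ 2 * s) = -s ^ 2 := by linear_combination a
      rw [div_eq_iff (mul_ne_zero (pow_ne_zero _ hx0) hs)] at h3
      rw [h3]
      ring
    have h4 : x ^ (D.q ^ 4) * x ^ D.q - x ^ (D.q ^ 2) * x ^ (D.q ^ 5) = D.th * s ^ 2 * x ^ 2 := by
      have h3 : (x ^ (D.q ^ 4) * x ^ D.q - x ^ (D.q ^ 2) * x ^ (D.q ^ 5)) / (x ^ 2 * s) = D.th * s := by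
        linear_combination b
      rw [div_eq_iff (mul_ne_zero (pow_ne_zero _ hx0) hs)] at h3
      rw [h3]
      ring
    have h5 : (x ^ (D.q ^ 3)) ^ 2 = -(s ^ 4 * x ^ 2) := by
      have h6 : x ^ 2 * ((x ^ (D.q ^ 3)) ^ 2 + s ^ 4 * x ^ 2) = 0 := by
        generalize x ^ (D.q ^ 2) = x1 at *
        generalize x ^ (D.q ^ 4) = x2 at *
        generalize x ^ (D.q ^ 3) = y0 at *
        generalize x ^ (D.q ^ 5) = y1 at *
        generalize x ^ D.q = y2 at *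
        have h7 : (x * y0) ^ 2 = (x2 * y2 - x1 * y1) ^ 2 + 4 * (x1 * x2) * (y1 * y2) := by
          linear_combination (x * y0 - x1 * y1 - x2 * y2) * hp
        rw [h4, h1, h2] at h7
        linear_combination h7 + (s ^ 4 * x ^ 4) * D.th2
      rcases mul_eq_zero.1 h6 with h7 | h7
      · exact absurd h7 (pow_ne_zero _ hx0)
      · linear_combination h7
    -- the cube of the Frobenius
    have h6 : x ^ (D.q ^ 2) * x ^ (D.q ^ 4) = (x ^ (D.q ^ 3)) ^ 2 * s ^ (D.q ^ 3) := by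
      have h7 : (x ^ (D.q ^ 5) * x ^ D.q) ^ (D.q ^ 3) = (x ^ 2 * s) ^ (D.q ^ 3) := by rw [h1]
      rw [mul_pow, mul_pow, D.pp, D.qp, D.p8 hx6, ← pow_mul, mul_comm 2, pow_mul] at h7
      exact h7
    have h7 : s * s ^ (D.q ^ 3) = 1 := by
      have h8 : s ^ 3 * x ^ 2 * (s * s ^ (D.q ^ 3) - 1) = 0 := by
        rw [h2, h5] at h6
        linear_combination h6
      rcases mul_eq_zero.1 h8 with h9 | h9
      · exact absurd h9 (mul_ne_zero (pow_ne_zero _ hs) (pow_ne_zero _ hx0))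
      · linear_combination h9
    have h8 : ∀ j : L, j ^ 2 = -1 → j ^ (D.q ^ 3) = j → x ^ (D.q ^ 3) ≠ j * s ^ 2 * x := by
      intro j hj hjq h9
      have h10 : (x ^ (D.q ^ 3)) ^ (D.q ^ 3) = (j * s ^ 2 * x) ^ (D.q ^ 3) := by rw [← h9]
      rw [D.pp, hx6, mul_pow, mul_pow, hjq, ← pow_mul, mul_comm 2, pow_mul, h9] at h10
      have h11 : 2 * x = 0 := by
        linear_combination h10 + (s * s ^ (D.q ^ 3)) ^ 2 * x * hj - (s * s ^ (D.q ^ 3) + 1) * x * h7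
      rcases mul_eq_zero.1 h11 with h12 | h12
      · exact D.two_ne h12
      · exact hx0 h12
    have h9 : (x ^ (D.q ^ 3) - D.ii * s ^ 2 * x) * (x ^ (D.q ^ 3) - -D.ii * s ^ 2 * x) = 0 := by
      linear_combination h5 - s ^ 4 * x ^ 2 * D.ii2
    rcases mul_eq_zero.1 h9 with h10 | h10
    · exact h8 D.ii D.ii2 (D.ii_n 3) (sub_eq_zero.1 h10)
    · exact h8 (-D.ii) (by rw [neg_sq, D.ii2]) (by rw [D.negn, D.ii_n]) (sub_eq_zero.1 h10)

end Pool.Agent.TH740.J3861
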